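import Mathlib

/-!
# Schwinger functions of lattice Yang-Mills: expansion of a Gaussian expression
-/

open MeasureTheory

namespace Pool.Agent.U322.SF

set_option linter.unusedSectionVars false
set_option linter.unusedVariables false

noncomputable section

variable {n : ℕ}

/-- signs -/
def sg (b : Bool) : ℝ := if b then 1 else -1

lemma sg_sq (b : Bool) : sg b * sg b = 1 := by cases b <;> simp [sg]

lemma sum_sg_pow (k : ℕ) : ∑ b : Bool, sg b ^ k = if Even k then 2 else 0 := by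
  rw [Fintype.sum_bool]
  unfold sg
  simp only [if_true, one_pow, Bool.false_eq_true, if_false]
  split_ifs with h
  · rw [h.neg_one_pow]; norm_num
  · rw [Nat.not_even_iff_odd.1 h |>.neg_one_pow]; norm_num

/-- product of cosines -/
lemma prod_cos (x : Fin n → ℝ) : ∏ k, Real.cos (x k) =
    (2 : ℝ)⁻¹ ^ n * ∑ σ : Fin n → Bool, Real.cos (∑ k, sg (σ k) * x k) := by
  have h1 : ∏ k, (∑ b : Bool, (2 : ℂ)⁻¹ * Complex.exp (((sg b * x k : ℝ) : ℂ) * Complex.I)) =
      ∑ σ : Fin n → Bool, ∏ k, ((2 : ℂ)⁻¹ * Complex.exp (((sg (σ k) * x k : ℝ) : ℂ) * Complex.I)) := by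
    rw [Finset.prod_univ_sum]
    rw [Fintype.piFinset_univ]
  have h2 : ∀ k, (∑ b : Bool, (2 : ℂ)⁻¹ * Complex.exp (((sg b * x k : ℝ) : ℂ) * Complex.I)) =
      ((Real.cos (x k) : ℝ) : ℂ) := by
    intro k
    rw [Fintype.sum_bool]
    unfold sg
    simp only [if_true, Bool.false_eq_true, if_false, one_mul, neg_one_mul, Complex.ofReal_neg]
    rw [Complex.ofReal_cos, Complex.cos]
    rw [neg_mul]
    ring
  have h3 : ∀ σ : Fin n → Bool, ∏ k, ((2 : ℂ)⁻¹ *
      Complex.exp (((sg (σ k) * x k : ℝ) : ℂ) * Complex.I)) =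
      (((2 : ℝ)⁻¹ ^ n : ℝ) : ℂ) * Complex.exp (((∑ k, sg (σ k) * x k : ℝ) : ℂ) * Complex.I) := by
    intro σ
    rw [Finset.prod_mul_distrib, Finset.prod_const, Finset.card_univ, Fintype.card_fin,
      ← Complex.exp_sum, ← Finset.sum_mul]
    push_cast
    rfl
  simp only [h2, h3] at h1
  rw [← Finset.mul_sum] at h1
  have h4 := congrArg Complex.re h1
  rw [← Complex.ofReal_prod, Complex.ofReal_re, Complex.re_ofReal_mul, Complex.re_sum] at h4
  rw [h4]
  congr 1
  refine Finset.sum_congr rfl fun σ _ => ?_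
  rw [Complex.exp_ofReal_mul_I_re]

/-- restriction of a vector to a set of indices -/
def rst (S : Finset (Fin n)) (x : Fin n → ℝ) : Fin n → ℝ := fun k => if k ∈ S then x k else 0

/-- the quadratic form of a matrix at a sign vector on a set -/
def qf (V : Fin n → Fin n → ℝ) (S : Finset (Fin n)) (σ : Fin n → Bool) : ℝ :=
  ∑ k, ∑ l, rst S (fun k => sg (σ k)) k * rst S (fun k => sg (σ k)) l * V k l

/-- the Gaussian expression -/
def DD (V : Fin n → Fin n → ℝ) : ℝ :=
  ∑ S : Finset (Fin n), (∏ k ∈ Sᶜ, -Real.exp (-(V k k / 2))) *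
    ((2 : ℝ)⁻¹ ^ n * ∑ σ : Fin n → Bool, Real.exp (-(qf V S σ / 2)))

lemma prod_diff {ι : Type*} (s : Finset ι) (a b : ι → ℝ) (ha : ∀ i ∈ s, |a i| ≤ 1)
    (hb : ∀ i ∈ s, |b i| ≤ 1) {δ : ℝ} (h : ∀ i ∈ s, |a i - b i| ≤ δ) :
    |∏ i ∈ s, a i - ∏ i ∈ s, b i| ≤ s.card * δ := by
  classical
  induction s using Finset.induction_on with
  | empty => simp
  | insert i s hi ih =>
    rw [Finset.prod_insert hi, Finset.prod_insert hi, Finset.card_insert_of_notMem hi]
    have h1 := ih (fun j hj => ha j (Finset.mem_insert_of_mem hj))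
      (fun j hj => hb j (Finset.mem_insert_of_mem hj))
      (fun j hj => h j (Finset.mem_insert_of_mem hj))
    have h2 := h i (Finset.mem_insert_self i s)
    have h3 := ha i (Finset.mem_insert_self i s)
    have h4 : |∏ j ∈ s, b j| ≤ 1 := by
      rw [Finset.abs_prod]
      exact Finset.prod_le_one (fun j _ => abs_nonneg _)
        fun j hj => hb j (Finset.mem_insert_of_mem hj)
    have e : a i * ∏ j ∈ s, a j - b i * ∏ j ∈ s, b j =
        a i * (∏ j ∈ s, a j - ∏ j ∈ s, b j) + (a i - b i) * ∏ j ∈ s, b j := by ring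
    rw [e]
    refine (abs_add_le _ _).trans ?_
    rw [abs_mul, abs_mul]
    have h5 : |a i| * |∏ j ∈ s, a j - ∏ j ∈ s, b j| ≤ 1 * (s.card * δ) :=
      mul_le_mul h3 h1 (abs_nonneg _) zero_le_one
    have h6 : |a i - b i| * |∏ j ∈ s, b j| ≤ δ * 1 :=
      mul_le_mul h2 h4 (abs_nonneg _) ((abs_nonneg _).trans h2)
    push_cast
    linarith

variable {Ω : Type*} [MeasurableSpace Ω] (ρ : Measure Ω) [IsProbabilityMeasure ρ]

lemma int_bdd {F : Ω → ℝ} (hF : Measurable F) {B : ℝ} (hB : ∀ ω, |F ω| ≤ B) : Integrable F ρ :=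
  Integrable.of_bound hF.aestronglyMeasurable B (Filter.Eventually.of_forall fun ω => by
    rw [Real.norm_eq_abs]; exact hB ω)

/-- the truncated expectation of cosines -/
theorem trunc_cos (θ : Fin n → Ω → ℝ) (hθ : ∀ k, Measurable (θ k)) (V : Fin n → Fin n → ℝ)
    {δ : ℝ} (hV : ∀ S σ, 0 ≤ qf V S σ)
    (H : ∀ (S : Finset (Fin n)) (σ : Fin n → Bool),
      |∫ ω, Real.cos (∑ k, rst S (fun k => sg (σ k)) k * θ k ω) ∂ρ - Real.exp (-(qf V S σ / 2))| ≤ δ) :
    |∫ ω, ∏ k, (Real.cos (θ k ω) - ∫ ω', Real.cos (θ k ω') ∂ρ) ∂ρ - DD V| ≤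
      2 ^ n * ((n + 1) * δ) := by
  have hδ : 0 ≤ δ := (abs_nonneg _).trans (H ∅ fun _ => true)
  obtain ⟨c, hc⟩ : ∃ c : Fin n → ℝ, c = fun k => ∫ ω', Real.cos (θ k ω') ∂ρ := ⟨_, rfl⟩
  have hc' : ∀ k, ∫ ω', Real.cos (θ k ω') ∂ρ = c k := fun k => by rw [hc]
  simp only [hc']
  -- single cosines
  have hqk : ∀ k, qf V {k} (fun _ => true) = V k k := by
    intro k
    unfold qf
    rw [Finset.sum_eq_single k, Finset.sum_eq_single k]
    · simp [rst, sg]
    · intro l _ hl; simp [rst, hl]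
    · intro h; exact absurd (Finset.mem_univ _) h
    · intro l _ hl; simp [rst, hl]
    · intro h; exact absurd (Finset.mem_univ _) h
  have h1 : ∀ k, |c k - Real.exp (-(V k k / 2))| ≤ δ := by
    intro k
    have h2 := H {k} (fun _ => true)
    rw [hqk] at h2
    have h3 : ∀ ω, ∑ l, rst {k} (fun l => sg ((fun _ => true) l)) l * θ l ω = θ k ω := by
      intro ω
      rw [Finset.sum_eq_single k]
      · simp [rst, sg]
      · intro l _ hl; simp [rst, hl]
      · intro h; exact absurd (Finset.mem_univ _) h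
    simp only [h3] at h2
    rw [hc' k] at h2
    exact h2
  have hc1 : ∀ k, |c k| ≤ 1 := by
    intro k
    rw [hc]
    simp only
    refine (abs_integral_le_integral_abs).trans ?_
    have : ∫ ω, |Real.cos (θ k ω)| ∂ρ ≤ ∫ _ω, (1 : ℝ) ∂ρ := by
      refine integral_mono (int_bdd ρ (Real.measurable_cos.comp (hθ k)).abs (B := 1) fun ω => ?_)
        (integrable_const _) fun ω => Real.abs_cos_le_one _
      rw [abs_abs]; exact Real.abs_cos_le_one _
    simpa using this
  have hVk : ∀ k, 0 ≤ V k k := fun k => by rw [← hqk k]; exact hV _ _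
  have he1 : ∀ k, |Real.exp (-(V k k / 2))| ≤ 1 := fun k => by
    rw [Real.abs_exp, Real.exp_le_one_iff]
    have := hVk k
    linarith
  -- products of cosines
  obtain ⟨I, hI⟩ : ∃ I : Finset (Fin n) → ℝ, I = fun S => ∫ ω, ∏ k ∈ S, Real.cos (θ k ω) ∂ρ :=
    ⟨_, rfl⟩
  obtain ⟨G, hG⟩ : ∃ G : Finset (Fin n) → ℝ, G = fun S =>
    (2 : ℝ)⁻¹ ^ n * ∑ σ : Fin n → Bool, Real.exp (-(qf V S σ / 2)) := ⟨_, rfl⟩
  have hcard : (Finset.univ : Finset (Fin n → Bool)).card = 2 ^ n := by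
    rw [Finset.card_univ, Fintype.card_fun, Fintype.card_bool, Fintype.card_fin]
  have hpow : (2 : ℝ)⁻¹ ^ n * 2 ^ n = 1 := by rw [← mul_pow]; norm_num
  have h4 : ∀ S, |I S - G S| ≤ δ := by
    intro S
    have e1 : ∀ ω, ∏ k ∈ S, Real.cos (θ k ω) =
        (2 : ℝ)⁻¹ ^ n * ∑ σ : Fin n → Bool, Real.cos (∑ k, rst S (fun k => sg (σ k)) k * θ k ω) := by
      intro ω
      have e2 := prod_cos (fun k => if k ∈ S then θ k ω else 0)
      have e3 : ∏ k, Real.cos (if k ∈ S then θ k ω else 0) = ∏ k ∈ S, Real.cos (θ k ω) := by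
        rw [← Finset.prod_subset (Finset.subset_univ S)]
        · exact Finset.prod_congr rfl fun k hk => by rw [if_pos hk]
        · intro k _ hk; rw [if_neg hk, Real.cos_zero]
      rw [e3] at e2
      rw [e2]
      congr 1
      refine Finset.sum_congr rfl fun σ _ => ?_
      congr 1
      refine Finset.sum_congr rfl fun k _ => ?_
      unfold rst
      split_ifs <;> ring
    have e2 : I S = (2 : ℝ)⁻¹ ^ n * ∑ σ : Fin n → Bool,
        ∫ ω, Real.cos (∑ k, rst S (fun k => sg (σ k)) k * θ k ω) ∂ρ := by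
      rw [hI]
      simp only [e1]
      rw [integral_const_mul, integral_finsetSum]
      intro σ _
      refine int_bdd ρ (Real.measurable_cos.comp (Finset.measurable_sum _ fun k _ =>
        (hθ k).const_mul _)) (B := 1) fun ω => Real.abs_cos_le_one _
    rw [e2, hG]
    simp only
    rw [← mul_sub, ← Finset.sum_sub_distrib, abs_mul, abs_of_pos (by positivity)]
    have e3 : |∑ σ : Fin n → Bool, (∫ ω, Real.cos (∑ k, rst S (fun k => sg (σ k)) k * θ k ω) ∂ρ -
        Real.exp (-(qf V S σ / 2)))| ≤ 2 ^ n * δ := by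
      refine (Finset.abs_sum_le_sum_abs _ _).trans ?_
      refine (Finset.sum_le_sum fun σ _ => H S σ).trans (le_of_eq ?_)
      rw [Finset.sum_const, hcard, nsmul_eq_mul]
      push_cast
      rfl
    calc (2 : ℝ)⁻¹ ^ n * _ ≤ (2 : ℝ)⁻¹ ^ n * (2 ^ n * δ) :=
          mul_le_mul_of_nonneg_left e3 (by positivity)
      _ = δ := by rw [← mul_assoc, hpow, one_mul]
  have hG1 : ∀ S, |G S| ≤ 1 := by
    intro S
    rw [hG]
    simp only
    rw [abs_mul, abs_of_pos (by positivity : (0 : ℝ) < (2 : ℝ)⁻¹ ^ n)]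
    have e3 : |∑ σ : Fin n → Bool, Real.exp (-(qf V S σ / 2))| ≤ 2 ^ n := by
      refine (Finset.abs_sum_le_sum_abs _ _).trans ?_
      refine (Finset.sum_le_sum fun σ _ => (?_ : |Real.exp (-(qf V S σ / 2))| ≤ 1)).trans
        (le_of_eq ?_)
      · rw [Real.abs_exp, Real.exp_le_one_iff]
        have := hV S σ
        linarith
      · rw [Finset.sum_const, hcard, nsmul_eq_mul]
        push_cast
        ring
    calc (2 : ℝ)⁻¹ ^ n * _ ≤ (2 : ℝ)⁻¹ ^ n * 2 ^ n :=
          mul_le_mul_of_nonneg_left e3 (by positivity)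
      _ = 1 := hpow
  -- the expansion
  have h5 : ∫ ω, ∏ k, (Real.cos (θ k ω) - c k) ∂ρ =
      ∑ S : Finset (Fin n), (∏ k ∈ Sᶜ, -c k) * I S := by
    have e1 : ∀ ω, ∏ k, (Real.cos (θ k ω) - c k) =
        ∑ S : Finset (Fin n), (∏ k ∈ Sᶜ, -c k) * ∏ k ∈ S, Real.cos (θ k ω) := by
      intro ω
      simp only [sub_eq_add_neg]
      rw [Fintype.prod_add]
      exact Finset.sum_congr rfl fun S _ => mul_comm _ _
    simp only [e1]
    rw [integral_finsetSum]
    · refine Finset.sum_congr rfl fun S _ => ?_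
      rw [integral_const_mul, hI]
    · intro S _
      refine (int_bdd ρ (Finset.measurable_prod _ fun k _ =>
        Real.measurable_cos.comp (hθ k)) (B := 1) fun ω => ?_).const_mul _
      rw [Finset.abs_prod]
      exact Finset.prod_le_one (fun k _ => abs_nonneg _) fun k _ => Real.abs_cos_le_one _
  rw [h5]
  unfold DD
  rw [← Finset.sum_sub_distrib]
  refine (Finset.abs_sum_le_sum_abs _ _).trans ?_
  have h6 : ∀ S : Finset (Fin n), |(∏ k ∈ Sᶜ, -c k) * I S -
      (∏ k ∈ Sᶜ, -Real.exp (-(V k k / 2))) * ((2 : ℝ)⁻¹ ^ n * ∑ σ : Fin n → Bool,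
        Real.exp (-(qf V S σ / 2)))| ≤ (n + 1) * δ := by
    intro S
    have e0 : (2 : ℝ)⁻¹ ^ n * ∑ σ : Fin n → Bool, Real.exp (-(qf V S σ / 2)) = G S := by rw [hG]
    rw [e0]
    have e1 := prod_diff Sᶜ (fun k => -c k) (fun k => -Real.exp (-(V k k / 2)))
      (fun k _ => by rw [abs_neg]; exact hc1 k) (fun k _ => by rw [abs_neg]; exact he1 k)
      (δ := δ) (fun k _ => by
        have e : -c k - -Real.exp (-(V k k / 2)) = -(c k - Real.exp (-(V k k / 2))) := by ring
        rw [e, abs_neg]; exact h1 k)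
    have e2 : |∏ k ∈ Sᶜ, -c k| ≤ 1 := by
      rw [Finset.abs_prod]
      exact Finset.prod_le_one (fun k _ => abs_nonneg _) fun k _ => by
        rw [abs_neg]; exact hc1 k
    have e3 : ((Sᶜ).card : ℝ) ≤ n := by
      have : (Sᶜ).card ≤ n := by
        have := Finset.card_le_univ (Sᶜ)
        simpa using this
      exact_mod_cast this
    have e : (∏ k ∈ Sᶜ, -c k) * I S - (∏ k ∈ Sᶜ, -Real.exp (-(V k k / 2))) * G S =
        (∏ k ∈ Sᶜ, -c k) * (I S - G S) +
          ((∏ k ∈ Sᶜ, -c k) - ∏ k ∈ Sᶜ, -Real.exp (-(V k k / 2))) * G S := by ring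
    rw [e]
    refine (abs_add_le _ _).trans ?_
    rw [abs_mul, abs_mul]
    have e4 : |∏ k ∈ Sᶜ, -c k| * |I S - G S| ≤ 1 * δ := mul_le_mul e2 (h4 S) (abs_nonneg _) zero_le_one
    have e5 : |(∏ k ∈ Sᶜ, -c k) - ∏ k ∈ Sᶜ, -Real.exp (-(V k k / 2))| * |G S| ≤ n * δ * 1 :=
      mul_le_mul (e1.trans (mul_le_mul_of_nonneg_right e3 hδ)) (hG1 S) (abs_nonneg _)
        (by positivity)
    linarith
  refine (Finset.sum_le_sum fun S _ => h6 S).trans (le_of_eq ?_)
  rw [Finset.sum_const, Finset.card_univ, Fintype.card_finset, Fintype.card_fin, nsmul_eq_mul]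
  push_cast
  rfl

end

end Pool.Agent.U322.SF
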