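import Mathlib
import Pool.Agent.U322.SF.Trig

/-!
# Schwinger functions of lattice Yang-Mills: the leading term of the Gaussian expression
-/

open MeasureTheory

namespace Pool.Agent.U322.SF

set_option linter.unusedSectionVars false
set_option linter.unusedVariables false

noncomputable section

variable {n : ℕ}

/-- the edge sum -/
def Qs (V : Fin n → Fin n → ℝ) (S : Finset (Fin n)) (σ : Fin n → Bool) : ℝ :=
  ∑ e : Fin n × Fin n, (if e.1 < e.2 then V e.1 e.2 else 0) *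
    (rst S (fun k => sg (σ k)) e.1 * rst S (fun k => sg (σ k)) e.2)

lemma qf_eq {V : Fin n → Fin n → ℝ} (hV : ∀ k l, V k l = V l k) (S : Finset (Fin n))
    (σ : Fin n → Bool) : qf V S σ = ∑ k ∈ S, V k k + 2 * Qs V S σ := by
  unfold qf Qs
  rw [Fintype.sum_prod_type]
  simp only
  obtain ⟨r, hr⟩ : ∃ r : Fin n → ℝ, r = rst S (fun k => sg (σ k)) := ⟨_, rfl⟩
  rw [← hr]
  have h1 : ∀ k l, r k * r l * V k l = (if k < l then V k l else 0) * (r k * r l) +
      (if l < k then V l k else 0) * (r l * r k) + (if k = l then r k * r k * V k k else 0) := by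
    intro k l
    rcases lt_trichotomy k l with h | h | h
    · rw [if_pos h, if_neg h.not_gt, if_neg h.ne]; ring
    · subst h; simp
    · rw [if_neg h.not_gt, if_pos h, if_neg h.ne', hV k l]; ring
  rw [Finset.sum_congr rfl fun k _ => Finset.sum_congr rfl fun l _ => h1 k l]
  simp only [Finset.sum_add_distrib]
  have h2 : ∑ k, ∑ l, (if l < k then V l k else 0) * (r l * r k) =
      ∑ k, ∑ l, (if k < l then V k l else 0) * (r k * r l) := Finset.sum_comm
  have h3 : ∑ k, ∑ l, (if k = l then r k * r k * V k k else 0) = ∑ k ∈ S, V k k := by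
    have e1 : ∀ k, ∑ l, (if k = l then r k * r k * V k k else 0) = if k ∈ S then V k k else 0 := by
      intro k
      rw [Finset.sum_ite_eq Finset.univ k, if_pos (Finset.mem_univ k), hr]
      unfold rst
      split_ifs
      · rw [sg_sq, one_mul]
      · ring
    simp only [e1]
    rw [← Finset.sum_filter, Finset.filter_mem_eq_inter, Finset.univ_inter]
  rw [h2, h3]
  ring

lemma DD_eq {V : Fin n → Fin n → ℝ} (hV : ∀ k l, V k l = V l k) :
    DD V = (∏ k, Real.exp (-(V k k / 2))) * ((2 : ℝ)⁻¹ ^ n *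
      ∑ σ : Fin n → Bool, ∑ S : Finset (Fin n), (-1 : ℝ) ^ (Sᶜ).card * Real.exp (-(Qs V S σ))) := by
  unfold DD
  rw [Finset.sum_comm (s := (Finset.univ : Finset (Fin n → Bool)))]
  rw [Finset.mul_sum, Finset.mul_sum]
  refine Finset.sum_congr rfl fun S _ => ?_
  rw [Finset.prod_neg, mul_left_comm, mul_left_comm (∏ k, Real.exp (-(V k k / 2)))]
  congr 1
  rw [Finset.mul_sum, Finset.mul_sum]
  refine Finset.sum_congr rfl fun σ _ => ?_
  rw [qf_eq hV]
  have h1 : Real.exp (-((∑ k ∈ S, V k k + 2 * Qs V S σ) / 2)) =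
      (∏ k ∈ S, Real.exp (-(V k k / 2))) * Real.exp (-(Qs V S σ)) := by
    rw [← Real.exp_sum, ← Real.exp_add]
    congr 1
    rw [Finset.sum_neg_distrib, ← Finset.sum_div]
    ring
  rw [h1, ← Finset.prod_mul_prod_compl S (fun k => Real.exp (-(V k k / 2)))]
  ring

/-- degree of an index -/
def dg {j : ℕ} (p : Fin j → Fin n × Fin n) (k : Fin n) : ℕ :=
  (Finset.univ.filter fun i => (p i).1 = k).card + (Finset.univ.filter fun i => (p i).2 = k).card

lemma sum_dg {j : ℕ} (p : Fin j → Fin n × Fin n) : ∑ k, dg p k = 2 * j := by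
  unfold dg
  rw [Finset.sum_add_distrib]
  have h1 := Finset.card_eq_sum_card_fiberwise (s := (Finset.univ : Finset (Fin j)))
    (t := (Finset.univ : Finset (Fin n))) (f := fun i => (p i).1) (fun _ _ => Finset.mem_univ _)
  have h2 := Finset.card_eq_sum_card_fiberwise (s := (Finset.univ : Finset (Fin j)))
    (t := (Finset.univ : Finset (Fin n))) (f := fun i => (p i).2) (fun _ _ => Finset.mem_univ _)
  rw [Finset.card_univ, Fintype.card_fin] at h1 h2
  omega

lemma prod_rst {j : ℕ} (p : Fin j → Fin n × Fin n) (r : Fin n → ℝ) :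
    ∏ i, (r (p i).1 * r (p i).2) = ∏ k, r k ^ dg p k := by
  rw [Finset.prod_mul_distrib]
  rw [← Finset.prod_fiberwise' Finset.univ (fun i => (p i).1) r,
    ← Finset.prod_fiberwise' Finset.univ (fun i => (p i).2) r, ← Finset.prod_mul_distrib]
  refine Finset.prod_congr rfl fun k _ => ?_
  rw [Finset.prod_const, Finset.prod_const, ← pow_add]
  rfl

/-- the moments of the edge sums -/
lemma moment (V : Fin n → Fin n → ℝ) (j : ℕ) :
    (2 : ℝ)⁻¹ ^ n * ∑ σ : Fin n → Bool, ∑ S : Finset (Fin n), (-1 : ℝ) ^ (Sᶜ).card *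
      Qs V S σ ^ j = ∑ p : Fin j → Fin n × Fin n,
        (∏ i, if (p i).1 < (p i).2 then V (p i).1 (p i).2 else 0) *
          ∏ k, if Even (dg p k) ∧ dg p k ≠ 0 then (1 : ℝ) else 0 := by
  have h1 : ∀ (σ : Fin n → Bool) (S : Finset (Fin n)), Qs V S σ ^ j =
      ∑ p : Fin j → Fin n × Fin n, (∏ i, if (p i).1 < (p i).2 then V (p i).1 (p i).2 else 0) *
        ∏ k, rst S (fun k => sg (σ k)) k ^ dg p k := by
    intro σ S
    unfold Qs
    rw [Fintype.sum_pow]
    refine Finset.sum_congr rfl fun p _ => ?_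
    rw [Finset.prod_mul_distrib, prod_rst]
  have h2 : (2 : ℝ)⁻¹ ^ n * ∑ σ : Fin n → Bool, ∑ S : Finset (Fin n), (-1 : ℝ) ^ (Sᶜ).card *
      Qs V S σ ^ j = ∑ p : Fin j → Fin n × Fin n,
        (∏ i, if (p i).1 < (p i).2 then V (p i).1 (p i).2 else 0) *
          ((2 : ℝ)⁻¹ ^ n * ∑ σ : Fin n → Bool, ∑ S : Finset (Fin n), (-1 : ℝ) ^ (Sᶜ).card *
            ∏ k, rst S (fun k => sg (σ k)) k ^ dg p k) := by
    simp only [h1, Finset.mul_sum]
    symm
    rw [Finset.sum_comm]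
    refine Finset.sum_congr rfl fun σ _ => ?_
    rw [Finset.sum_comm]
    exact Finset.sum_congr rfl fun S _ => Finset.sum_congr rfl fun p _ => by ring
  rw [h2]
  refine Finset.sum_congr rfl fun p _ => ?_
  congr 1
  rw [Finset.sum_comm, Finset.mul_sum]
  have h3 : ∀ S : Finset (Fin n), (2 : ℝ)⁻¹ ^ n * ∑ σ : Fin n → Bool, (-1 : ℝ) ^ (Sᶜ).card *
      ∏ k, rst S (fun k => sg (σ k)) k ^ dg p k =
      (∏ k ∈ S, if Even (dg p k) then (1 : ℝ) else 0) * ∏ k ∈ Sᶜ, -(0 : ℝ) ^ dg p k := by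
    intro S
    rw [← Finset.mul_sum, Finset.prod_neg]
    have e1 : ∑ σ : Fin n → Bool, ∏ k, rst S (fun k => sg (σ k)) k ^ dg p k =
        ∏ k, ∑ b : Bool, (if k ∈ S then sg b else 0) ^ dg p k := by
      rw [Finset.prod_univ_sum, Fintype.piFinset_univ]
      rfl
    have e2 : ∀ k, ∑ b : Bool, (if k ∈ S then sg b else 0) ^ dg p k =
        2 * if k ∈ S then (if Even (dg p k) then (1 : ℝ) else 0) else 0 ^ dg p k := by
      intro k
      split_ifs with hk he
      · rw [sum_sg_pow, if_pos he]; ring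
      · rw [sum_sg_pow, if_neg he]; ring
      · rw [Fintype.sum_bool]; ring
    rw [e1]
    simp only [e2]
    rw [Finset.prod_mul_distrib, Finset.prod_const, Finset.card_univ, Fintype.card_fin]
    have e3 : ∏ k, (if k ∈ S then (if Even (dg p k) then (1 : ℝ) else 0) else 0 ^ dg p k) =
        (∏ k ∈ S, if Even (dg p k) then (1 : ℝ) else 0) * ∏ k ∈ Sᶜ, (0 : ℝ) ^ dg p k := by
      rw [← Finset.prod_mul_prod_compl S]
      congr 1
      · exact Finset.prod_congr rfl fun k hk => by rw [if_pos hk]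
      · exact Finset.prod_congr rfl fun k hk => by rw [if_neg (Finset.mem_compl.1 hk)]
    rw [e3]
    have e4 : (2 : ℝ)⁻¹ ^ n * 2 ^ n = 1 := by rw [← mul_pow]; norm_num
    calc _ = ((2 : ℝ)⁻¹ ^ n * 2 ^ n) * ((-1) ^ (Sᶜ).card *
          ((∏ k ∈ S, if Even (dg p k) then (1 : ℝ) else 0) * ∏ k ∈ Sᶜ, (0 : ℝ) ^ dg p k)) := by ring
      _ = _ := by rw [e4]; ring
  rw [Finset.sum_congr rfl fun S _ => h3 S, ← Fintype.prod_add]
  refine Finset.prod_congr rfl fun k _ => ?_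
  by_cases h0 : dg p k = 0
  · rw [h0]; simp
  · rw [zero_pow h0]
    by_cases he : Even (dg p k)
    · rw [if_pos he, if_pos ⟨he, h0⟩]; ring
    · rw [if_neg he, if_neg fun h => he h.1]; ring

lemma moment_lt (V : Fin n → Fin n → ℝ) {j : ℕ} (hj : j < n) :
    (2 : ℝ)⁻¹ ^ n * ∑ σ : Fin n → Bool, ∑ S : Finset (Fin n), (-1 : ℝ) ^ (Sᶜ).card *
      Qs V S σ ^ j = 0 := by
  rw [moment]
  refine Finset.sum_eq_zero fun p _ => ?_
  have h1 : ∃ k, ¬(Even (dg p k) ∧ dg p k ≠ 0) := by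
    by_contra h
    push Not at h
    have h2 : ∀ k, 2 ≤ dg p k := by
      intro k
      obtain ⟨⟨r, hr⟩, h3⟩ := h k
      omega
    have h3 : ∑ _k : Fin n, 2 ≤ ∑ k, dg p k := Finset.sum_le_sum fun k _ => h2 k
    rw [sum_dg] at h3
    simp at h3
    omega
  obtain ⟨k, hk⟩ := h1
  rw [Finset.prod_eq_zero (Finset.mem_univ k) (if_neg hk), mul_zero]

/-- the sum over the decompositions into closed loops -/
def Lp (V : Fin n → Fin n → ℝ) : ℝ :=
  (n.factorial : ℝ)⁻¹ * ∑ p : Fin n → Fin n × Fin n,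
    if (∀ i, (p i).1 < (p i).2) ∧ ∀ k, dg p k = 2 then ∏ i, V (p i).1 (p i).2 else 0

lemma moment_eq (V : Fin n → Fin n → ℝ) :
    (2 : ℝ)⁻¹ ^ n * ∑ σ : Fin n → Bool, ∑ S : Finset (Fin n), (-1 : ℝ) ^ (Sᶜ).card *
      Qs V S σ ^ n = n.factorial * Lp V := by
  unfold Lp
  rw [← mul_assoc, mul_inv_cancel₀ (by positivity), one_mul, moment]
  refine Finset.sum_congr rfl fun p _ => ?_
  have h1 : (∀ k, Even (dg p k) ∧ dg p k ≠ 0) ↔ ∀ k, dg p k = 2 := by
    constructor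
    · intro h
      have h2 : ∀ k, 2 ≤ dg p k := by
        intro k
        obtain ⟨⟨r, hr⟩, h3⟩ := h k
        omega
      by_contra h3
      push Not at h3
      obtain ⟨k, hk⟩ := h3
      have h4 : ∑ _k : Fin n, 2 < ∑ k, dg p k :=
        Finset.sum_lt_sum (fun k _ => h2 k) ⟨k, Finset.mem_univ k, by have := h2 k; omega⟩
      rw [sum_dg] at h4
      simp at h4
      omega
    · intro h k
      rw [h k]
      exact ⟨even_two, two_ne_zero⟩
  by_cases h2 : ∀ k, dg p k = 2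
  · have e1 : (∏ k, if Even (dg p k) ∧ dg p k ≠ 0 then (1 : ℝ) else 0) = 1 :=
      Finset.prod_eq_one fun k _ => if_pos (h1.2 h2 k)
    rw [e1, mul_one]
    by_cases h3 : ∀ i, (p i).1 < (p i).2
    · rw [if_pos ⟨h3, h2⟩]
      exact Finset.prod_congr rfl fun i _ => if_pos (h3 i)
    · rw [if_neg fun h => h3 h.1]
      push Not at h3
      obtain ⟨i, hi⟩ := h3
      exact Finset.prod_eq_zero (Finset.mem_univ i) (if_neg (not_lt.2 hi))
  · have e1 : (∏ k, if Even (dg p k) ∧ dg p k ≠ 0 then (1 : ℝ) else 0) = 0 := by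
      rw [← h1] at h2
      push Not at h2
      obtain ⟨k, hk⟩ := h2
      refine Finset.prod_eq_zero (Finset.mem_univ k) (if_neg ?_)
      rintro ⟨h3, h4⟩
      exact h4 (hk h3)
    rw [e1, mul_zero, if_neg fun h => h2 h.2]

lemma Qs_le {V : Fin n → Fin n → ℝ} {η : ℝ} (hη : 0 ≤ η) (hV : ∀ k l, k < l → |V k l| ≤ η)
    (S : Finset (Fin n)) (σ : Fin n → Bool) : |Qs V S σ| ≤ n ^ 2 * η := by
  unfold Qs
  refine (Finset.abs_sum_le_sum_abs _ _).trans ?_
  have h1 : ∀ e : Fin n × Fin n, |(if e.1 < e.2 then V e.1 e.2 else 0) *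
      (rst S (fun k => sg (σ k)) e.1 * rst S (fun k => sg (σ k)) e.2)| ≤ η := by
    intro e
    have h2 : ∀ k, |rst S (fun k => sg (σ k)) k| ≤ 1 := by
      intro k
      unfold rst
      split_ifs
      · have h3 : ∀ b : Bool, |sg b| ≤ 1 := fun b => by cases b <;> simp [sg]
        exact h3 _
      · simp
    rw [abs_mul, abs_mul]
    have h3 : |rst S (fun k => sg (σ k)) e.1| * |rst S (fun k => sg (σ k)) e.2| ≤ 1 :=
      mul_le_one₀ (h2 _) (abs_nonneg _) (h2 _)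
    have h4 : |if e.1 < e.2 then V e.1 e.2 else 0| ≤ η := by
      split_ifs with h
      · exact hV _ _ h
      · rw [abs_zero]; exact hη
    calc _ ≤ η * 1 := mul_le_mul h4 h3 (by positivity) hη
      _ = η := mul_one _
  refine (Finset.sum_le_sum fun e _ => h1 e).trans (le_of_eq ?_)
  rw [Finset.sum_const, Finset.card_univ, Fintype.card_prod, Fintype.card_fin, nsmul_eq_mul]
  push_cast
  ring

/-- the leading term of the Gaussian expression -/
theorem DD_lead : ∃ C : ℝ, 0 ≤ C ∧ ∀ (V : Fin n → Fin n → ℝ), (∀ k l, V k l = V l k) →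
    (∀ k, 0 ≤ V k k) → ∀ η : ℝ, 0 ≤ η → n ^ 2 * η ≤ 1 → (∀ k l, k < l → |V k l| ≤ η) →
      |DD V - (∏ k, Real.exp (-(V k k / 2))) * ((-1) ^ n * Lp V)| ≤ C * η ^ (n + 1) := by
  refine ⟨2 ^ n * ((n : ℝ) ^ (2 * (n + 1)) * (((n + 1).succ : ℝ) /
    ((n + 1).factorial * (n + 1 : ℕ)))), by positivity, fun V hV hVk η hη hη1 hb => ?_⟩
  rw [DD_eq hV, ← mul_sub, abs_mul]
  have h0 : |∏ k, Real.exp (-(V k k / 2))| ≤ 1 := by
    rw [Finset.abs_prod]
    refine Finset.prod_le_one (fun k _ => abs_nonneg _) fun k _ => ?_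
    rw [Real.abs_exp, Real.exp_le_one_iff]
    have := hVk k
    linarith
  -- Taylor expansion
  have h1 : ∀ S σ, |Real.exp (-(Qs V S σ)) - ∑ j ∈ Finset.range (n + 1),
      (-(Qs V S σ)) ^ j / j.factorial| ≤ ((n : ℝ) ^ 2 * η) ^ (n + 1) *
        (((n + 1).succ : ℝ) / ((n + 1).factorial * (n + 1 : ℕ))) := by
    intro S σ
    have h2 := Qs_le hη hb S σ
    have h3 : |-(Qs V S σ)| ≤ 1 := by rw [abs_neg]; linarith
    refine (Real.exp_bound h3 (Nat.succ_pos n)).trans ?_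
    rw [abs_neg]
    exact mul_le_mul_of_nonneg_right (pow_le_pow_left₀ (abs_nonneg _) h2 _) (by positivity)
  have h2 : (2 : ℝ)⁻¹ ^ n * ∑ σ : Fin n → Bool, ∑ S : Finset (Fin n), (-1 : ℝ) ^ (Sᶜ).card *
      ∑ j ∈ Finset.range (n + 1), (-(Qs V S σ)) ^ j / j.factorial = (-1) ^ n * Lp V := by
    have e1 : (2 : ℝ)⁻¹ ^ n * ∑ σ : Fin n → Bool, ∑ S : Finset (Fin n), (-1 : ℝ) ^ (Sᶜ).card *
        ∑ j ∈ Finset.range (n + 1), (-(Qs V S σ)) ^ j / j.factorial =
        ∑ j ∈ Finset.range (n + 1), ((-1) ^ j / j.factorial) * ((2 : ℝ)⁻¹ ^ n *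
          ∑ σ : Fin n → Bool, ∑ S : Finset (Fin n), (-1 : ℝ) ^ (Sᶜ).card * Qs V S σ ^ j) := by
      simp only [Finset.mul_sum]
      symm
      rw [Finset.sum_comm]
      refine Finset.sum_congr rfl fun σ _ => ?_
      rw [Finset.sum_comm]
      refine Finset.sum_congr rfl fun S _ => Finset.sum_congr rfl fun j _ => ?_
      rw [neg_pow]
      ring
    rw [e1, Finset.sum_range_succ, Finset.sum_eq_zero, zero_add, moment_eq]
    · field_simp
    · intro j hj
      rw [moment_lt V (Finset.mem_range.1 hj), mul_zero]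
  rw [← h2, ← mul_sub, ← Finset.sum_sub_distrib]
  simp only [← Finset.sum_sub_distrib, ← mul_sub]
  obtain ⟨E, hE⟩ : ∃ E, E = ((n : ℝ) ^ 2 * η) ^ (n + 1) *
        (((n + 1).succ : ℝ) / ((n + 1).factorial * (n + 1 : ℕ))) := ⟨_, rfl⟩
  rw [← hE] at h1
  have hE0 : 0 ≤ E := by rw [hE]; positivity
  have h3 : |(2 : ℝ)⁻¹ ^ n * ∑ σ : Fin n → Bool, ∑ S : Finset (Fin n), (-1 : ℝ) ^ (Sᶜ).card *
      (Real.exp (-(Qs V S σ)) - ∑ j ∈ Finset.range (n + 1), (-(Qs V S σ)) ^ j / j.factorial)| ≤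
      2 ^ n * E := by
    rw [abs_mul, abs_of_pos (by positivity : (0 : ℝ) < (2 : ℝ)⁻¹ ^ n)]
    have e1 : |∑ σ : Fin n → Bool, ∑ S : Finset (Fin n), (-1 : ℝ) ^ (Sᶜ).card *
      (Real.exp (-(Qs V S σ)) - ∑ j ∈ Finset.range (n + 1), (-(Qs V S σ)) ^ j / j.factorial)| ≤
        2 ^ n * (2 ^ n * E) := by
      refine (Finset.abs_sum_le_sum_abs _ _).trans ?_
      have e2 : ∀ σ : Fin n → Bool, |∑ S : Finset (Fin n), (-1 : ℝ) ^ (Sᶜ).card *
          (Real.exp (-(Qs V S σ)) - ∑ j ∈ Finset.range (n + 1), (-(Qs V S σ)) ^ j / j.factorial)| ≤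
          2 ^ n * E := by
        intro σ
        refine (Finset.abs_sum_le_sum_abs _ _).trans ?_
        refine (Finset.sum_le_sum fun S _ => (?_ : _ ≤ E)).trans (le_of_eq ?_)
        · rw [abs_mul, abs_pow, abs_neg, abs_one, one_pow, one_mul]
          exact h1 S σ
        · rw [Finset.sum_const, Finset.card_univ, Fintype.card_finset, Fintype.card_fin,
            nsmul_eq_mul]
          push_cast
          rfl
      refine (Finset.sum_le_sum fun σ _ => e2 σ).trans (le_of_eq ?_)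
      rw [Finset.sum_const, Finset.card_univ, Fintype.card_fun, Fintype.card_bool,
        Fintype.card_fin, nsmul_eq_mul]
      push_cast
      rfl
    calc (2 : ℝ)⁻¹ ^ n * _ ≤ (2 : ℝ)⁻¹ ^ n * (2 ^ n * (2 ^ n * E)) :=
          mul_le_mul_of_nonneg_left e1 (by positivity)
      _ = ((2 : ℝ)⁻¹ ^ n * 2 ^ n) * (2 ^ n * E) := by ring
      _ = 2 ^ n * E := by rw [← mul_pow]; norm_num
  have h4 : 2 ^ n * E = 2 ^ n * ((n : ℝ) ^ (2 * (n + 1)) * (((n + 1).succ : ℝ) /
    ((n + 1).factorial * (n + 1 : ℕ)))) * η ^ (n + 1) := by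
    rw [hE, mul_pow, ← pow_mul]
    ring
  rw [← h4]
  calc _ ≤ 1 * (2 ^ n * E) := mul_le_mul h0 h3 (abs_nonneg _) zero_le_one
    _ = _ := one_mul _

end

end Pool.Agent.U322.SF
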