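import Mathlib
import Pool.Agent.U322.SF.Exp

/-!
# Schwinger functions of lattice Yang-Mills: from characteristic functions to squares
-/

open MeasureTheory Filter

namespace Pool.Agent.U322.SF

set_option linter.unusedSectionVars false
set_option linter.unusedVariables false

noncomputable section

lemma cos_err (x : ℝ) : |(1 - Real.cos x) - x ^ 2 / 2| ≤ x ^ 4 / 2 := by
  have h1 : 1 - x ^ 2 / 2 ≤ Real.cos x := Real.one_sub_sq_div_two_le_cos
  have h2 := Real.cos_le_one x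
  rcases le_total |x| 1 with h | h
  · have h3 := Real.cos_bound h
    have h4 : |x| ^ 4 = x ^ 4 := by
      rw [show (4 : ℕ) = 2 * 2 by norm_num, pow_mul, pow_mul, sq_abs]
    rw [h4] at h3
    have h5 : 0 ≤ x ^ 4 := by positivity
    have e : (1 - Real.cos x) - x ^ 2 / 2 = -(Real.cos x - (1 - x ^ 2 / 2)) := by ring
    rw [e, abs_neg]
    linarith
  · have h3 : 1 ≤ x ^ 2 := by
      rw [← sq_abs]; nlinarith
    have h4 : x ^ 2 ≤ x ^ 4 := by nlinarith
    rw [abs_le]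
    constructor <;> linarith

/-- the regularised square -/
def TT {D : ℕ} (ε : ℝ) (y : Fin D → ℝ) : ℝ := ∑ a, (1 - Real.cos (2 * ε * y a)) / (4 * ε ^ 2)

section reg

variable {D : ℕ} {ε : ℝ} (hε : 0 < ε) (y : Fin D → ℝ)

include hε

lemma TT_nonneg : 0 ≤ TT ε y := by
  unfold TT
  refine Finset.sum_nonneg fun a _ => div_nonneg ?_ (by positivity)
  have := Real.cos_le_one (2 * ε * y a)
  linarith

lemma TT_le : TT ε y ≤ 1 / 2 * ∑ a, y a ^ 2 := by
  unfold TT
  rw [Finset.mul_sum]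
  refine Finset.sum_le_sum fun a _ => ?_
  have h1 : 1 - (2 * ε * y a) ^ 2 / 2 ≤ Real.cos (2 * ε * y a) := Real.one_sub_sq_div_two_le_cos
  rw [div_le_iff₀ (by positivity)]
  nlinarith

lemma TT_err : |TT ε y - 1 / 2 * ∑ a, y a ^ 2| ≤ 2 * ε ^ 2 * (∑ a, y a ^ 2) ^ 2 := by
  unfold TT
  rw [Finset.mul_sum, ← Finset.sum_sub_distrib]
  refine (Finset.abs_sum_le_sum_abs _ _).trans ?_
  have h1 : ∀ a, |(1 - Real.cos (2 * ε * y a)) / (4 * ε ^ 2) - 1 / 2 * y a ^ 2| ≤
      2 * ε ^ 2 * (y a ^ 2) ^ 2 := by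
    intro a
    have h2 := cos_err (2 * ε * y a)
    have e : (1 - Real.cos (2 * ε * y a)) / (4 * ε ^ 2) - 1 / 2 * y a ^ 2 =
        ((1 - Real.cos (2 * ε * y a)) - (2 * ε * y a) ^ 2 / 2) / (4 * ε ^ 2) := by
      field_simp
      ring
    rw [e, abs_div, abs_of_pos (show 0 < 4 * ε ^ 2 by positivity), div_le_iff₀ (by positivity)]
    refine h2.trans (le_of_eq ?_)
    ring
  refine (Finset.sum_le_sum fun a _ => h1 a).trans ?_
  rw [← Finset.mul_sum]
  refine mul_le_mul_of_nonneg_left ?_ (by positivity)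
  rw [sq (∑ a, y a ^ 2), Finset.sum_mul]
  refine Finset.sum_le_sum fun a _ => ?_
  rw [sq (y a ^ 2)]
  exact mul_le_mul_of_nonneg_left (Finset.single_le_sum (f := fun a => y a ^ 2)
    (fun _ _ => sq_nonneg _) (Finset.mem_univ a)) (sq_nonneg _)

end reg

/-- products of close numbers -/
lemma prod_diff2 {n : ℕ} {A B : Fin n → ℝ} {W g : ℝ} (hW : 0 < W) (hA : ∀ k, |A k| ≤ W)
    (hB : ∀ k, |B k| ≤ W) (hAB : ∀ k, |A k - B k| ≤ g * W ^ 2) :
    |∏ k, A k - ∏ k, B k| ≤ n * g * W ^ (n + 1) := by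
  have h1 := prod_diff Finset.univ (fun k => A k / W) (fun k => B k / W)
    (fun k _ => by rw [abs_div, abs_of_pos hW, div_le_one hW]; exact hA k)
    (fun k _ => by rw [abs_div, abs_of_pos hW, div_le_one hW]; exact hB k) (δ := g * W)
    (fun k _ => by
      rw [← sub_div, abs_div, abs_of_pos hW, div_le_iff₀ hW]
      refine (hAB k).trans (le_of_eq ?_)
      ring)
  rw [Finset.prod_div_distrib, Finset.prod_div_distrib, Finset.prod_const, Finset.card_univ,
    Fintype.card_fin, ← sub_div, abs_div, abs_of_pos (show 0 < W ^ n by positivity),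
    div_le_iff₀ (by positivity)] at h1
  refine h1.trans (le_of_eq ?_)
  ring

variable {Ω : Type*} [MeasurableSpace Ω]

/-- removing the regularisation -/
theorem reg_err (n : ℕ) {M : ℝ} (hM : 0 ≤ M) : ∃ C : ℝ, 0 ≤ C ∧
    ∀ (ρ : Measure Ω) [IsProbabilityMeasure ρ] (w T : Fin n → Ω → ℝ) (g τ B : ℝ),
    (∀ k, Measurable (w k)) → (∀ k, Measurable (T k)) → (∀ k ω, |w k ω| ≤ B) → 0 ≤ g → 1 ≤ τ →
    (∀ k ω, 0 ≤ w k ω) → (∀ k ω, 0 ≤ T k ω ∧ T k ω ≤ w k ω) →
    (∀ k ω, |w k ω - T k ω| ≤ g * w k ω ^ 2) →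
    (∀ k, ∀ p ∈ Finset.Icc 1 (n + 2), ∫ ω, w k ω ^ p ∂ρ ≤ M * τ) →
    |∫ ω, ∏ k, (w k ω - ∫ ω', w k ω' ∂ρ) ∂ρ - ∫ ω, ∏ k, (T k ω - ∫ ω', T k ω' ∂ρ) ∂ρ| ≤
      C * g * τ ^ (n + 1) := by
  refine ⟨n * (2 ^ n * (n ^ (n + 1) * M + (1 + M) ^ (n + 1))), by positivity,
    fun ρ _ w T g τ B hwm hTm hB hg hτ hw0 hT hd hmom => ?_⟩
  have hB0 : ∀ k ω, w k ω ≤ B := fun k ω => (le_abs_self _).trans (hB k ω)
  have hTB : ∀ k ω, |T k ω| ≤ B := fun k ω => by
    rw [abs_of_nonneg (hT k ω).1]; exact (hT k ω).2.trans (hB0 k ω)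
  have iw : ∀ k, Integrable (w k) ρ := fun k => int_bdd ρ (hwm k) (hB k)
  have iT : ∀ k, Integrable (T k) ρ := fun k => int_bdd ρ (hTm k) (hTB k)
  obtain ⟨c, hc⟩ : ∃ c : Fin n → ℝ, c = fun k => ∫ ω', w k ω' ∂ρ := ⟨_, rfl⟩
  obtain ⟨c', hc'⟩ : ∃ c' : Fin n → ℝ, c' = fun k => ∫ ω', T k ω' ∂ρ := ⟨_, rfl⟩
  have hce : ∀ k, ∫ ω', w k ω' ∂ρ = c k := fun k => by rw [hc]
  have hce' : ∀ k, ∫ ω', T k ω' ∂ρ = c' k := fun k => by rw [hc']
  simp only [hce, hce']
  have hM1 : ∀ k, ∀ p ∈ Finset.Icc 1 (n + 2), ∫ ω, w k ω ^ p ∂ρ ≤ M * τ := hmom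
  have hc0 : ∀ k, 0 ≤ c k := fun k => by rw [← hce]; exact integral_nonneg (hw0 k)
  have hc0' : ∀ k, 0 ≤ c' k := fun k => by
    rw [← hce']; exact integral_nonneg fun ω => (hT k ω).1
  have hcM : ∀ k, c k ≤ M * τ := fun k => by
    have := hmom k 1 (Finset.mem_Icc.2 ⟨le_rfl, by omega⟩)
    simp only [pow_one] at this
    rwa [hce] at this
  have hcc : ∀ k, c' k ≤ c k := fun k => by
    rw [← hce, ← hce']; exact integral_mono (iT k) (iw k) fun ω => (hT k ω).2
  have hcd : ∀ k, |c k - c' k| ≤ g * (M * τ) := fun k => by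
    rw [← hce, ← hce', ← integral_sub (iw k) (iT k)]
    refine abs_integral_le_integral_abs.trans ?_
    have h2 := hmom k 2 (Finset.mem_Icc.2 ⟨by norm_num, by omega⟩)
    have i2 : Integrable (fun ω => w k ω ^ 2) ρ :=
      int_bdd ρ ((hwm k).pow_const 2) (B := B ^ 2) fun ω => by
        rw [abs_pow]; exact pow_le_pow_left₀ (abs_nonneg _) (hB k ω) 2
    calc ∫ ω, |w k ω - T k ω| ∂ρ ≤ ∫ ω, g * w k ω ^ 2 ∂ρ :=
          integral_mono ((iw k).sub (iT k)).abs (i2.const_mul g) fun ω => hd k ω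
      _ = g * ∫ ω, w k ω ^ 2 ∂ρ := integral_const_mul _ _
      _ ≤ g * (M * τ) := mul_le_mul_of_nonneg_left h2 hg
  have hMτ : 0 ≤ M * τ := by positivity
  obtain ⟨W, hW⟩ : ∃ W : Ω → ℝ, W = fun ω => ∑ k, w k ω + (1 + M * τ) := ⟨_, rfl⟩
  have hWw : ∀ k ω, w k ω + (1 + M * τ) ≤ W ω := fun k ω => by
    rw [hW]
    have := Finset.single_le_sum (f := fun k => w k ω) (fun k _ => hw0 k ω) (Finset.mem_univ k)
    simp only at this ⊢
    linarith
  have hW0 : ∀ ω, 0 ≤ ∑ k, w k ω := fun ω => Finset.sum_nonneg fun k _ => hw0 k ω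
  have hWpos : ∀ ω, 0 < W ω := fun ω => by
    rw [hW]; have := hW0 ω; simp only; linarith
  have hpt : ∀ ω, |∏ k, (w k ω - c k) - ∏ k, (T k ω - c' k)| ≤ n * g * W ω ^ (n + 1) := by
    intro ω
    refine prod_diff2 (hWpos ω) (fun k => ?_) (fun k => ?_) (fun k => ?_)
    · have h1 := hWw k ω
      have h2 := hw0 k ω
      have h3 := hc0 k
      have h4 := hcM k
      rw [abs_le]; constructor <;> linarith
    · have h1 := hWw k ω
      have h2 := hT k ω
      have h3 := hc0' k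
      have h4 := hcM k
      have h5 := hcc k
      rw [abs_le]; constructor <;> linarith [h2.1, h2.2]
    · have h1 := hWw k ω
      have h2 := hw0 k ω
      have e : w k ω - c k - (T k ω - c' k) = (w k ω - T k ω) - (c k - c' k) := by ring
      rw [e]
      refine (abs_sub _ _).trans ?_
      have h3 := hd k ω
      have h4 := hcd k
      have h5 : w k ω ^ 2 + M * τ ≤ W ω ^ 2 := by nlinarith
      calc |w k ω - T k ω| + |c k - c' k| ≤ g * (w k ω ^ 2 + M * τ) := by linarith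
        _ ≤ g * W ω ^ 2 := mul_le_mul_of_nonneg_left h5 hg
  have hpm : Measurable fun ω => ∏ k, (w k ω - c k) :=
    Finset.measurable_prod _ fun k _ => (hwm k).sub_const _
  have hpm' : Measurable fun ω => ∏ k, (T k ω - c' k) :=
    Finset.measurable_prod _ fun k _ => (hTm k).sub_const _
  have hbd : ∀ k ω, |w k ω - c k| ≤ B + M * τ := fun k ω => by
    have h2 := hw0 k ω
    have h3 := hc0 k
    have h4 := hcM k
    have h5 := hB0 k ω
    rw [abs_le]; constructor <;> linarith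
  have hbd' : ∀ k ω, |T k ω - c' k| ≤ B + M * τ := fun k ω => by
    have h2 := hT k ω
    have h3 := hc0' k
    have h4 := hcM k
    have h5 := hB0 k ω
    have h6 := hcc k
    rw [abs_le]; constructor <;> linarith [h2.1, h2.2]
  have ip : Integrable (fun ω => ∏ k, (w k ω - c k)) ρ :=
    int_bdd ρ hpm (B := (B + M * τ) ^ n) fun ω => by
      rw [Finset.abs_prod]
      refine (Finset.prod_le_prod (fun k _ => abs_nonneg _) fun k _ => hbd k ω).trans ?_
      simp
  have ip' : Integrable (fun ω => ∏ k, (T k ω - c' k)) ρ :=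
    int_bdd ρ hpm' (B := (B + M * τ) ^ n) fun ω => by
      rw [Finset.abs_prod]
      refine (Finset.prod_le_prod (fun k _ => abs_nonneg _) fun k _ => hbd' k ω).trans ?_
      simp
  rw [← integral_sub ip ip']
  refine abs_integral_le_integral_abs.trans ?_
  have ipw : ∀ k (p : ℕ), Integrable (fun ω => w k ω ^ p) ρ := fun k p =>
    int_bdd ρ ((hwm k).pow_const p) (B := B ^ p) fun ω => by
      rw [abs_pow]; exact pow_le_pow_left₀ (abs_nonneg _) (hB k ω) p
  have hWb : ∀ ω, W ω ^ (n + 1) ≤ 2 ^ n * (n ^ n * ∑ k, w k ω ^ (n + 1) +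
      ((1 + M) * τ) ^ (n + 1)) := by
    intro ω
    have h1 := add_pow_le (hW0 ω) (show 0 ≤ 1 + M * τ by positivity) (n + 1)
    have h2 : (∑ k, w k ω) ^ (n + 1) ≤ n ^ n * ∑ k, w k ω ^ (n + 1) := by
      have h3 := pow_sum_div_card_le_sum_pow (s := (Finset.univ : Finset (Fin n)))
        (f := fun k => w k ω) (fun k _ => hw0 k ω) n
      rw [Finset.card_univ, Fintype.card_fin] at h3
      rcases Nat.eq_zero_or_pos n with h | h
      · subst h; simp
      · have hn : (0 : ℝ) < (n : ℝ) ^ n := by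
          have : (0 : ℝ) < n := by exact_mod_cast h
          positivity
        rw [div_le_iff₀ hn] at h3
        linarith
    have h4 : (1 + M * τ) ^ (n + 1) ≤ ((1 + M) * τ) ^ (n + 1) := by
      refine pow_le_pow_left₀ (by positivity) ?_ _
      nlinarith
    rw [Nat.add_sub_cancel] at h1
    rw [hW]
    simp only
    refine h1.trans ?_
    refine mul_le_mul_of_nonneg_left ?_ (by positivity)
    linarith
  have hsum : ∫ ω, ∑ k, w k ω ^ (n + 1) ∂ρ ≤ n * (M * τ) := by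
    rw [integral_finsetSum _ fun k _ => ipw k (n + 1)]
    refine (Finset.sum_le_sum fun k _ => hmom k (n + 1)
      (Finset.mem_Icc.2 ⟨by omega, by omega⟩)).trans (le_of_eq ?_)
    simp
  have iS : Integrable (fun ω => ∑ k, w k ω ^ (n + 1)) ρ :=
    integrable_finsetSum _ fun k _ => ipw k (n + 1)
  have iR : Integrable (fun ω => 2 ^ n * (n ^ n * ∑ k, w k ω ^ (n + 1) +
      ((1 + M) * τ) ^ (n + 1))) ρ := ((iS.const_mul _).add (integrable_const _)).const_mul _
  have hτ1 : τ ≤ τ ^ (n + 1) := le_self_pow₀ hτ (by omega)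
  calc ∫ ω, |∏ k, (w k ω - c k) - ∏ k, (T k ω - c' k)| ∂ρ ≤
      ∫ ω, n * g * (2 ^ n * (n ^ n * ∑ k, w k ω ^ (n + 1) + ((1 + M) * τ) ^ (n + 1))) ∂ρ := by
        refine integral_mono (ip.sub ip').abs (iR.const_mul _) fun ω => ?_
        exact (hpt ω).trans (mul_le_mul_of_nonneg_left (hWb ω) (by positivity))
    _ = n * g * (2 ^ n * (n ^ n * ∫ ω, ∑ k, w k ω ^ (n + 1) ∂ρ + ((1 + M) * τ) ^ (n + 1))) := by
        rw [integral_const_mul, integral_const_mul, integral_add (iS.const_mul _)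
          (integrable_const _), integral_const_mul, integral_const]
        simp
    _ ≤ n * g * (2 ^ n * (n ^ n * (n * (M * τ)) + ((1 + M) * τ) ^ (n + 1))) := by
        gcongr
    _ ≤ n * g * (2 ^ n * (n ^ n * (n * (M * τ ^ (n + 1))) + ((1 + M) * τ) ^ (n + 1))) := by
        gcongr
    _ = _ := by rw [mul_pow]; ring

end

end Pool.Agent.U322.SF
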