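import Mathlib
import Pool.Agent.U322.SF.Asm

/-!
# Schwinger functions of lattice Yang-Mills: the truncated moments of the squares
-/

open MeasureTheory Filter

namespace Pool.Agent.U322.SF

set_option linter.unusedSectionVars false
set_option linter.unusedVariables false

noncomputable section

lemma Lp_smul {n : ℕ} (s : ℝ) (V : Fin n → Fin n → ℝ) :
    Lp (fun k l => s * V k l) = s ^ n * Lp V := by
  unfold Lp
  rw [mul_left_comm]
  congr 1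
  rw [Finset.mul_sum]
  refine Finset.sum_congr rfl fun p _ => ?_
  split_ifs
  · rw [Finset.prod_mul_distrib, Finset.prod_const, Finset.card_univ, Fintype.card_fin]
  · rw [mul_zero]

/-- the covariance restricted to equal colours -/
def cv {n D : ℕ} (V : Fin n → Fin n → ℝ) (a : Fin n → Fin D) : Fin n → Fin n → ℝ :=
  fun k l => if a k = a l then V k l else 0

/-- the truncated moment of the squares -/
def SS {n : ℕ} (D : ℕ) (V : Fin n → Fin n → ℝ) : ℝ := ∑ a : Fin n → Fin D, Lp (cv V a)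

variable {Ω : Type*} [MeasurableSpace Ω]

/-- the regularised part -/
theorem reg_main (n D : ℕ) : ∃ C : ℝ, 0 ≤ C ∧
    ∀ (ρ : Measure Ω) [IsProbabilityMeasure ρ] (Y : Fin n → Fin D → Ω → ℝ)
      (V : Fin n → Fin n → ℝ) (ε δ v : ℝ), (∀ k a, Measurable (Y k a)) → 0 < ε → 0 ≤ δ →
    (∀ k l, V k l = V l k) → (∀ k, 0 ≤ V k k) → 0 ≤ v → n ^ 2 * (4 * ε ^ 2 * v) ≤ 1 →
    (∀ k l, k < l → |V k l| ≤ v) →
    (∀ (a : Fin n → Fin D) S σ, 0 ≤ qf (fun k l => 4 * ε ^ 2 * cv V a k l) S σ) →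
    (∀ (a : Fin n → Fin D) (S : Finset (Fin n)) (σ : Fin n → Bool),
      |∫ ω, Real.cos (∑ k, rst S (fun k => sg (σ k)) k * (2 * ε * Y k (a k) ω)) ∂ρ -
        Real.exp (-(qf (fun k l => 4 * ε ^ 2 * cv V a k l) S σ / 2))| ≤ δ) →
    |∫ ω, ∏ k, (TT ε (fun a => Y k a ω) - ∫ ω', TT ε (fun a => Y k a ω') ∂ρ) ∂ρ -
      (∏ k, Real.exp (-(2 * ε ^ 2 * V k k))) * SS D V| ≤
        C * (δ / (4 * ε ^ 2) ^ n + ε ^ 2 * v ^ (n + 1)) := by
  obtain ⟨C, hC, hlead⟩ := DD_lead (n := n)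
  refine ⟨(D : ℝ) ^ n * (2 ^ n * (n + 1) + C * 4), by positivity,
    fun ρ _ Y V ε δ v hY hε hδ hVs hVk hv hv1 hVb hqf H => ?_⟩
  have he4 : 0 < 4 * ε ^ 2 := by positivity
  have hcosm : ∀ k a, Measurable fun ω => Real.cos (2 * ε * Y k a ω) := fun k a =>
    Real.measurable_cos.comp ((hY k a).const_mul _)
  have icos : ∀ k a, Integrable (fun ω => Real.cos (2 * ε * Y k a ω)) ρ := fun k a =>
    int_bdd ρ (hcosm k a) (B := 1) fun ω => Real.abs_cos_le_one _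
  obtain ⟨c, hc⟩ : ∃ c : Fin n → Fin D → ℝ, c = fun k a =>
    ∫ ω', Real.cos (2 * ε * Y k a ω') ∂ρ := ⟨_, rfl⟩
  have hce : ∀ k a, ∫ ω', Real.cos (2 * ε * Y k a ω') ∂ρ = c k a := fun k a => by rw [hc]
  have hT : ∀ k ω, TT ε (fun a => Y k a ω) - ∫ ω', TT ε (fun a => Y k a ω') ∂ρ =
      ∑ a, (-(1 / (4 * ε ^ 2))) * (Real.cos (2 * ε * Y k a ω) - c k a) := by
    intro k ω
    unfold TT
    simp only
    have i1 : ∀ a ∈ (Finset.univ : Finset (Fin D)),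
        Integrable (fun ω' => (1 - Real.cos (2 * ε * Y k a ω')) / (4 * ε ^ 2)) ρ := fun a _ =>
      ((integrable_const (1 : ℝ)).sub (icos k a)).div_const _
    rw [integral_finsetSum _ i1, ← Finset.sum_sub_distrib]
    refine Finset.sum_congr rfl fun a _ => ?_
    rw [integral_div, integral_sub (integrable_const _) (icos k a), hce]
    simp only [integral_const, probReal_univ, smul_eq_mul, mul_one]
    ring
  have hprod : ∀ ω, ∏ k, (TT ε (fun a => Y k a ω) - ∫ ω', TT ε (fun a => Y k a ω') ∂ρ) =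
      (-(1 / (4 * ε ^ 2))) ^ n * ∑ a : Fin n → Fin D,
        ∏ k, (Real.cos (2 * ε * Y k (a k) ω) - c k (a k)) := by
    intro ω
    rw [Finset.prod_congr rfl fun k _ => hT k ω, Finset.prod_univ_sum, Fintype.piFinset_univ,
      Finset.mul_sum]
    refine Finset.sum_congr rfl fun a _ => ?_
    rw [Finset.prod_mul_distrib, Finset.prod_const, Finset.card_univ, Fintype.card_fin]
  simp only [hprod]
  have icp : ∀ a : Fin n → Fin D,
      Integrable (fun ω => ∏ k, (Real.cos (2 * ε * Y k (a k) ω) - c k (a k))) ρ := by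
    intro a
    refine int_bdd ρ (Finset.measurable_prod _ fun k _ => (hcosm k (a k)).sub_const _)
      (B := 2 ^ n) fun ω => ?_
    rw [Finset.abs_prod]
    refine (Finset.prod_le_prod (fun k _ => abs_nonneg _) fun k _ =>
      (show |Real.cos (2 * ε * Y k (a k) ω) - c k (a k)| ≤ 2 from ?_)).trans ?_
    · refine (abs_sub _ _).trans ?_
      have h1 := Real.abs_cos_le_one (2 * ε * Y k (a k) ω)
      have h2 : |c k (a k)| ≤ 1 := by
        rw [← hce]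
        have := norm_integral_le_of_norm_le_const (μ := ρ)
          (f := fun ω' => Real.cos (2 * ε * Y k (a k) ω')) (C := 1)
          (Eventually.of_forall fun ω => Real.abs_cos_le_one _)
        simpa using this
      linarith
    · simp
  rw [integral_const_mul, integral_finsetSum _ fun a _ => icp a]
  have hneg : (-(1 / (4 * ε ^ 2))) ^ n = (-1) ^ n * ((4 * ε ^ 2) ^ n)⁻¹ := by
    rw [neg_eq_neg_one_mul, mul_pow, one_div, inv_pow]
  have hone : ((-1 : ℝ)) ^ n * (-1) ^ n = 1 := by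
    rw [← mul_pow]; norm_num
  have hterm : ∀ a : Fin n → Fin D,
      |∫ ω, ∏ k, (Real.cos (2 * ε * Y k (a k) ω) - c k (a k)) ∂ρ -
        (∏ k, Real.exp (-(2 * ε ^ 2 * V k k))) * ((-1) ^ n * ((4 * ε ^ 2) ^ n * Lp (cv V a)))| ≤
      2 ^ n * ((n + 1) * δ) + C * (4 * ε ^ 2 * v) ^ (n + 1) := by
    intro a
    have h1 := trunc_cos ρ (fun k ω => 2 * ε * Y k (a k) ω) (fun k => (hY k (a k)).const_mul _)
      (fun k l => 4 * ε ^ 2 * cv V a k l) (hqf a) (H a)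
    simp only [hce] at h1
    have h2 := hlead (fun k l => 4 * ε ^ 2 * cv V a k l) (fun k l => by
      unfold cv
      by_cases h : a k = a l
      · simp only [if_pos h, if_pos h.symm]; rw [hVs k l]
      · simp only [if_neg h, if_neg (Ne.symm h)]) (fun k => by
      unfold cv
      simp only [if_true]
      exact mul_nonneg he4.le (hVk k)) (4 * ε ^ 2 * v) (by positivity) hv1 (fun k l hkl => by
      rw [abs_mul, abs_of_pos he4]
      refine mul_le_mul_of_nonneg_left ?_ he4.le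
      unfold cv
      split_ifs
      · exact hVb k l hkl
      · rw [abs_zero]; exact hv)
    rw [Lp_smul] at h2
    have e1 : ∀ k, Real.exp (-(4 * ε ^ 2 * cv V a k k / 2)) = Real.exp (-(2 * ε ^ 2 * V k k)) := by
      intro k
      unfold cv
      simp only [if_true]
      congr 1
      ring
    simp only [e1] at h2
    have h3 := abs_add_le (∫ ω, ∏ k, (Real.cos (2 * ε * Y k (a k) ω) - c k (a k)) ∂ρ -
      DD (fun k l => 4 * ε ^ 2 * cv V a k l)) (DD (fun k l => 4 * ε ^ 2 * cv V a k l) -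
      (∏ k, Real.exp (-(2 * ε ^ 2 * V k k))) * ((-1) ^ n * ((4 * ε ^ 2) ^ n * Lp (cv V a))))
    rw [sub_add_sub_cancel] at h3
    linarith
  have hSS : (∏ k, Real.exp (-(2 * ε ^ 2 * V k k))) * SS D V =
      (-1) ^ n * ((4 * ε ^ 2) ^ n)⁻¹ * ∑ a : Fin n → Fin D,
        (∏ k, Real.exp (-(2 * ε ^ 2 * V k k))) *
          ((-1) ^ n * ((4 * ε ^ 2) ^ n * Lp (cv V a))) := by
    unfold SS
    rw [Finset.mul_sum, Finset.mul_sum]
    refine Finset.sum_congr rfl fun a _ => ?_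
    have h4 : (4 * ε ^ 2) ^ n ≠ 0 := by positivity
    calc (∏ k, Real.exp (-(2 * ε ^ 2 * V k k))) * Lp (cv V a) =
        ((-1) ^ n * (-1) ^ n) * (((4 * ε ^ 2) ^ n)⁻¹ * (4 * ε ^ 2) ^ n) *
          ((∏ k, Real.exp (-(2 * ε ^ 2 * V k k))) * Lp (cv V a)) := by
          rw [hone, inv_mul_cancel₀ h4, one_mul, one_mul]
      _ = _ := by ring
  rw [hneg, hSS, ← mul_sub, ← Finset.sum_sub_distrib, abs_mul, abs_mul, abs_pow, abs_neg, abs_one,
    one_pow, one_mul, abs_of_pos (show 0 < ((4 * ε ^ 2) ^ n)⁻¹ by positivity)]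
  have hsum : |∑ a : Fin n → Fin D, (∫ ω, ∏ k, (Real.cos (2 * ε * Y k (a k) ω) - c k (a k)) ∂ρ -
      (∏ k, Real.exp (-(2 * ε ^ 2 * V k k))) * ((-1) ^ n * ((4 * ε ^ 2) ^ n * Lp (cv V a))))| ≤
      (D : ℝ) ^ n * (2 ^ n * ((n + 1) * δ) + C * (4 * ε ^ 2 * v) ^ (n + 1)) := by
    refine (Finset.abs_sum_le_sum_abs _ _).trans
      ((Finset.sum_le_sum fun a _ => hterm a).trans (le_of_eq ?_))
    rw [Finset.sum_const, Finset.card_univ, Fintype.card_fun, Fintype.card_fin, Fintype.card_fin,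
      nsmul_eq_mul]
    push_cast
    rfl
  calc ((4 * ε ^ 2) ^ n)⁻¹ * _ ≤ ((4 * ε ^ 2) ^ n)⁻¹ * ((D : ℝ) ^ n * (2 ^ n * ((n + 1) * δ) +
        C * (4 * ε ^ 2 * v) ^ (n + 1))) := mul_le_mul_of_nonneg_left hsum (by positivity)
    _ = (D : ℝ) ^ n * (2 ^ n * (n + 1)) * (δ / (4 * ε ^ 2) ^ n) +
        (D : ℝ) ^ n * (C * 4) * (ε ^ 2 * v ^ (n + 1)) := by
      have h4 : (4 * ε ^ 2) ^ n ≠ 0 := by positivity
      rw [mul_pow (4 * ε ^ 2) v, pow_succ (4 * ε ^ 2)]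
      field_simp
    _ ≤ _ := by
      have p1 : 0 ≤ δ / (4 * ε ^ 2) ^ n := by positivity
      have p2 : 0 ≤ ε ^ 2 * v ^ (n + 1) := by positivity
      have p3 : 0 ≤ (D : ℝ) ^ n * (2 ^ n * (n + 1)) := by positivity
      have p4 : 0 ≤ (D : ℝ) ^ n * (C * 4) := by positivity
      nlinarith

/-- the truncated moments of the squares -/
theorem asm (n D : ℕ) {M : ℝ} (hM : 0 ≤ M) : ∃ C : ℝ, 0 ≤ C ∧
    ∀ (ρ : Measure Ω) [IsProbabilityMeasure ρ] (w : Fin n → Ω → ℝ) (Y : Fin n → Fin D → Ω → ℝ)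
      (V : Fin n → Fin n → ℝ) (ε γ τ δ v B : ℝ), (∀ k, Measurable (w k)) →
    (∀ k a, Measurable (Y k a)) → (∀ k ω, |w k ω| ≤ B) → 0 < ε → 0 ≤ γ → 1 ≤ τ → 0 ≤ δ →
    (∀ k ω, 0 ≤ w k ω) → (∀ k ω, ∑ a, Y k a ω ^ 2 ≤ 2 * w k ω) →
    (∀ k ω, |w k ω - 1 / 2 * ∑ a, Y k a ω ^ 2| ≤ γ * w k ω ^ 2) →
    (∀ k, ∀ p ∈ Finset.Icc 1 (n + 2), ∫ ω, w k ω ^ p ∂ρ ≤ M * τ) →
    (∀ k l, V k l = V l k) → (∀ k, 0 ≤ V k k) → 0 ≤ v → n ^ 2 * (4 * ε ^ 2 * v) ≤ 1 →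
    (∀ k l, k < l → |V k l| ≤ v) →
    (∀ (a : Fin n → Fin D) S σ, 0 ≤ qf (fun k l => 4 * ε ^ 2 * cv V a k l) S σ) →
    (∀ (a : Fin n → Fin D) (S : Finset (Fin n)) (σ : Fin n → Bool),
      |∫ ω, Real.cos (∑ k, rst S (fun k => sg (σ k)) k * (2 * ε * Y k (a k) ω)) ∂ρ -
        Real.exp (-(qf (fun k l => 4 * ε ^ 2 * cv V a k l) S σ / 2))| ≤ δ) →
    |∫ ω, ∏ k, (w k ω - ∫ ω', w k ω' ∂ρ) ∂ρ -
      (∏ k, Real.exp (-(2 * ε ^ 2 * V k k))) * SS D V| ≤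
        C * ((γ + 8 * ε ^ 2) * τ ^ (n + 1) + (δ / (4 * ε ^ 2) ^ n + ε ^ 2 * v ^ (n + 1))) := by
  obtain ⟨C1, hC1, h1⟩ := reg_err (Ω := Ω) n hM
  obtain ⟨C2, hC2, h2⟩ := reg_main (Ω := Ω) n D
  refine ⟨C1 + C2, by positivity, fun ρ _ w Y V ε γ τ δ v B hwm hYm hB hε hγ hτ hδ hw0 hY2 hd hmom
    hVs hVk hv hv1 hVb hqf H => ?_⟩
  have hTm : ∀ k, Measurable fun ω => TT ε (fun a => Y k a ω) := fun k => by
    unfold TT
    exact Finset.measurable_sum _ fun a _ => (measurable_const.sub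
      (Real.measurable_cos.comp ((hYm k a).const_mul _))).div_const _
  have h3 := h1 ρ w (fun k ω => TT ε (fun a => Y k a ω)) (γ + 8 * ε ^ 2) τ B hwm hTm hB
    (by positivity) hτ hw0 (fun k ω => ⟨TT_nonneg hε _, (TT_le hε _).trans (by
      have := hY2 k ω; linarith)⟩) (fun k ω => by
      have e1 := TT_err hε (fun a => Y k a ω)
      have e2 := hd k ω
      have e3 := hY2 k ω
      have e4 : 0 ≤ ∑ a, Y k a ω ^ 2 := Finset.sum_nonneg fun a _ => sq_nonneg _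
      have e5 : (∑ a, Y k a ω ^ 2) ^ 2 ≤ (2 * w k ω) ^ 2 := pow_le_pow_left₀ e4 e3 2
      have e6 := abs_sub_le (w k ω) (1 / 2 * ∑ a, Y k a ω ^ 2) (TT ε (fun a => Y k a ω))
      rw [abs_sub_comm (1 / 2 * ∑ a, Y k a ω ^ 2)] at e6
      have e7 : 2 * ε ^ 2 * (∑ a, Y k a ω ^ 2) ^ 2 ≤ 2 * ε ^ 2 * (2 * w k ω) ^ 2 :=
        mul_le_mul_of_nonneg_left e5 (by positivity)
      nlinarith) hmom
  have h4 := h2 ρ Y V ε δ v hYm hε hδ hVs hVk hv hv1 hVb hqf H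
  have h5 := abs_sub_le (∫ ω, ∏ k, (w k ω - ∫ ω', w k ω' ∂ρ) ∂ρ)
    (∫ ω, ∏ k, (TT ε (fun a => Y k a ω) - ∫ ω', TT ε (fun a => Y k a ω') ∂ρ) ∂ρ)
    ((∏ k, Real.exp (-(2 * ε ^ 2 * V k k))) * SS D V)
  refine h5.trans ?_
  have p1 : 0 ≤ (γ + 8 * ε ^ 2) * τ ^ (n + 1) := by positivity
  have p2 : 0 ≤ δ / (4 * ε ^ 2) ^ n + ε ^ 2 * v ^ (n + 1) := by positivity
  nlinarith

end

end Pool.Agent.U322.SF
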