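import Mathlib
import Pool.Agent.U322.SF.Asm2

/-!
# Schwinger functions of lattice Yang-Mills: Wick's theorem for squares, sum over the permutations
without fixed points
-/

namespace Pool.Agent.U322.SF

set_option linter.unusedSectionVars false
set_option linter.unusedVariables false

open Equiv

variable {n : ℕ}

/-- the number of cycles, fixed points included -/
noncomputable def cyc (σ : Perm (Fin n)) : ℕ := Nat.card (Quotient (Perm.SameCycle.setoid σ))

lemma inv_zpow {X : Type*} {σ : Perm (Fin n)} {f : Fin n → X} (h : ∀ k, f (σ k) = f k)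
    (i : ℤ) (k : Fin n) : f ((σ ^ i) k) = f k := by
  have hi : ∀ k, f (σ⁻¹ k) = f k := fun k => by
    rw [← h (σ⁻¹ k)]
    simp
  induction i generalizing k with
  | zero => simp
  | succ i ih =>
    rw [zpow_add_one, Perm.mul_apply, ih, h]
  | pred i ih =>
    rw [zpow_sub_one, Perm.mul_apply, ih, hi]

/-- the number of the colourings which are constant on the cycles -/
lemma card_inv (σ : Perm (Fin n)) (X : Type*) [Fintype X] [DecidableEq X] :
    (Finset.univ.filter fun f : Fin n → X => ∀ k, f (σ k) = f k).card = Fintype.card X ^ cyc σ := by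
  have e : {f : Fin n → X // ∀ k, f (σ k) = f k} ≃
      (Quotient (Perm.SameCycle.setoid σ) → X) :=
    { toFun := fun f => Quotient.lift f.1 (by
        rintro a b ⟨i, hi⟩
        rw [← hi]
        exact (inv_zpow f.2 i a).symm)
      invFun := fun g => ⟨fun k => g (Quotient.mk _ k), fun k =>
        congrArg g (Quotient.sound ⟨-1, by simp⟩)⟩
      left_inv := fun f => by
        apply Subtype.ext
        funext k
        rfl
      right_inv := fun g => by
        funext q
        induction q using Quotient.inductionOn with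
        | h k => rfl }
  rw [← Fintype.card_subtype, ← Nat.card_eq_fintype_card, Nat.card_congr e, Nat.card_fun,
    Nat.card_eq_fintype_card]
  rfl

/-- the sorted pair -/
def srt (k l : Fin n) : Fin n × Fin n := if k < l then (k, l) else (l, k)

lemma srt_eq {k l k' l' : Fin n} :
    srt k l = srt k' l' ↔ (k = k' ∧ l = l') ∨ (k = l' ∧ l = k') := by
  unfold srt
  split_ifs with h1 h2 h2 <;> rw [Prod.mk.injEq]
  · constructor
    · exact fun h => Or.inl h
    · rintro (h | ⟨rfl, rfl⟩)
      · exact h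
      · exact absurd h1 (not_lt.2 h2.le)
  · constructor
    · exact fun h => Or.inr h
    · rintro (⟨rfl, rfl⟩ | h)
      · exact absurd h1 h2
      · exact h
  · constructor
    · exact fun h => Or.inr ⟨h.2, h.1⟩
    · rintro (⟨rfl, rfl⟩ | h)
      · exact absurd h2 h1
      · exact ⟨h.2, h.1⟩
  · constructor
    · exact fun h => Or.inl ⟨h.2, h.1⟩
    · rintro (h | ⟨rfl, rfl⟩)
      · exact ⟨h.2, h.1⟩
      · have := le_antisymm (not_lt.1 h1) (not_lt.1 h2)
        exact ⟨this, this.symm⟩

/-- the labelled graph of a permutation -/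
def Psi (x : Perm (Fin n) × Perm (Fin n)) : Fin n → Fin n × Fin n :=
  fun i => srt (x.2 i) (x.1 (x.2 i))

lemma dg_eq {j : ℕ} (p : Fin j → Fin n × Fin n) (k : Fin n) :
    dg p k = ∑ i, ((if (p i).1 = k then 1 else 0) + (if (p i).2 = k then 1 else 0)) := by
  unfold dg
  rw [Finset.sum_add_distrib, Finset.card_filter, Finset.card_filter]

lemma srt_sum (k l m : Fin n) : ((if (srt k l).1 = m then 1 else 0) +
    (if (srt k l).2 = m then 1 else 0) : ℕ) = (if k = m then 1 else 0) + (if l = m then 1 else 0) := by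
  unfold srt
  split_ifs <;> simp_all

lemma dg_Psi (x : Perm (Fin n) × Perm (Fin n)) (k : Fin n) : dg (Psi x) k = 2 := by
  rw [dg_eq]
  unfold Psi
  simp only [srt_sum]
  rw [Finset.sum_add_distrib]
  have h1 : ∀ π : Perm (Fin n), ∑ i, (if π i = k then 1 else 0) = 1 := by
    intro π
    rw [Equiv.sum_comp π (fun j => if j = k then 1 else 0)]
    simp
  have h2 := h1 x.2
  have h3 : ∑ i, (if x.1 (x.2 i) = k then 1 else 0) = 1 := h1 (x.1 * x.2)
  rw [h2, h3]

/-- the permutations without fixed points, with a labelling -/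
def Xs (n : ℕ) : Finset (Perm (Fin n) × Perm (Fin n)) :=
  Finset.univ.filter fun x => ∀ k, x.1 k ≠ k

/-- the labelled two regular graphs -/
def Ps (n : ℕ) : Finset (Fin n → Fin n × Fin n) :=
  Finset.univ.filter fun p => (∀ i, (p i).1 < (p i).2) ∧ ∀ k, dg p k = 2

lemma Psi_mem {x : Perm (Fin n) × Perm (Fin n)} (hx : x ∈ Xs n) : Psi x ∈ Ps n := by
  unfold Xs at hx
  unfold Ps
  rw [Finset.mem_filter] at hx ⊢
  refine ⟨Finset.mem_univ _, fun i => ?_, dg_Psi x⟩
  have h1 := hx.2 (x.2 i)
  unfold Psi srt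
  split_ifs with h
  · exact h
  · exact lt_of_le_of_ne (not_lt.1 h) h1

/-- the permutation which is the identity or `σ` -/
lemma rho_inj {σ : Perm (Fin n)} {B : Fin n → Bool} (hB : ∀ k, B (σ k) = B k) :
    Function.Injective fun k => if B k then k else σ k := by
  intro k l h
  simp only at h
  by_cases hk : B k = true <;> by_cases hl : B l = true
  · rwa [if_pos hk, if_pos hl] at h
  · rw [if_pos hk, if_neg hl] at h
    exfalso
    rw [h, hB] at hk
    exact hl hk
  · rw [if_neg hk, if_pos hl] at h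
    exfalso
    rw [← h, hB] at hl
    exact hk hl
  · rw [if_neg hk, if_neg hl] at h
    exact σ.injective h

lemma inv_inv_b {σ : Perm (Fin n)} {B : Fin n → Bool} (hB : ∀ k, B (σ k) = B k) (k : Fin n) :
    B (σ⁻¹ k) = B k := by
  rw [← hB (σ⁻¹ k)]
  simp

lemma tau_inj {σ : Perm (Fin n)} {B : Fin n → Bool} (hB : ∀ k, B (σ k) = B k) :
    Function.Injective fun k => if B k then σ k else σ⁻¹ k := by
  intro k l h
  simp only at h
  by_cases hk : B k = true <;> by_cases hl : B l = true
  · rw [if_pos hk, if_pos hl] at h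
    exact σ.injective h
  · rw [if_pos hk, if_neg hl] at h
    exfalso
    have h1 := congrArg B h
    rw [hB, inv_inv_b hB] at h1
    rw [h1] at hk
    exact hl hk
  · rw [if_neg hk, if_pos hl] at h
    exfalso
    have h1 := congrArg B h
    rw [hB, inv_inv_b hB] at h1
    rw [← h1] at hl
    exact hk hl
  · rw [if_neg hk, if_neg hl] at h
    exact σ⁻¹.injective h

/-- the permutation which is the identity or `σ` -/
noncomputable def rho {σ : Perm (Fin n)} {B : Fin n → Bool} (hB : ∀ k, B (σ k) = B k) :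
    Perm (Fin n) := Equiv.ofBijective _ (Finite.injective_iff_bijective.1 (rho_inj hB))

lemma rho_apply {σ : Perm (Fin n)} {B : Fin n → Bool} (hB : ∀ k, B (σ k) = B k) (k : Fin n) :
    rho hB k = if B k then k else σ k := rfl

/-- the permutation which is `σ` or its inverse -/
noncomputable def tau {σ : Perm (Fin n)} {B : Fin n → Bool} (hB : ∀ k, B (σ k) = B k) :
    Perm (Fin n) := Equiv.ofBijective _ (Finite.injective_iff_bijective.1 (tau_inj hB))

lemma tau_apply {σ : Perm (Fin n)} {B : Fin n → Bool} (hB : ∀ k, B (σ k) = B k) (k : Fin n) :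
    tau hB k = if B k then σ k else σ⁻¹ k := rfl

/-- the two cases -/
lemma fib_cases {σ π : Perm (Fin n)} {y : Perm (Fin n) × Perm (Fin n)}
    (hy : Psi y = Psi (σ, π)) (k : Fin n) :
    (y.2 (π.symm k) = k ∧ y.1 k = σ k) ∨ (y.2 (π.symm k) = σ k ∧ y.1 (σ k) = k) := by
  have h1 := congrFun hy (π.symm k)
  unfold Psi at h1
  simp only [Equiv.apply_symm_apply] at h1
  rcases srt_eq.1 h1 with ⟨h2, h3⟩ | ⟨h2, h3⟩
  · left
    refine ⟨h2, ?_⟩
    rwa [h2] at h3
  · right
    refine ⟨h2, ?_⟩
    rwa [h2] at h3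

/-- the colouring of an orientation -/
lemma fib_inv {σ π : Perm (Fin n)} (hσ : ∀ k, σ k ≠ k) {y : Perm (Fin n) × Perm (Fin n)}
    (hy : Psi y = Psi (σ, π)) (k : Fin n) :
    decide (y.2 (π.symm (σ k)) = σ k) = decide (y.2 (π.symm k) = k) := by
  have h1 : ∀ k, y.2 (π.symm (σ k)) = σ k → y.2 (π.symm k) = k := by
    intro k hk
    rcases fib_cases hy k with h | h
    · exact h.1
    · exfalso
      have h2 := y.2.injective (hk.trans h.1.symm)
      exact hσ k (π.symm.injective h2)
  obtain ⟨B, hB⟩ : ∃ B : Fin n → Prop, B = fun k => y.2 (π.symm k) = k := ⟨_, rfl⟩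
  have hdec : DecidablePred B := by rw [hB]; infer_instance
  have h2 : (Finset.univ.filter fun k => B (σ k)) ⊆ Finset.univ.filter B := by
    intro k hk
    rw [Finset.mem_filter] at hk ⊢
    refine ⟨hk.1, ?_⟩
    have h3 := hk.2
    rw [hB] at h3 ⊢
    exact h1 k h3
  have h3 : (Finset.univ.filter B).card ≤ (Finset.univ.filter fun k => B (σ k)).card := by
    rw [Finset.card_filter, Finset.card_filter]
    exact (Equiv.sum_comp σ (fun k => if B k then 1 else 0)).ge
  have h4 := Finset.eq_of_subset_of_card_le h2 h3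
  have h5 : B (σ k) ↔ B k := by
    have h6 : k ∈ (Finset.univ.filter fun k => B (σ k)) ↔ k ∈ Finset.univ.filter B := by rw [h4]
    simpa using h6
  rw [hB] at h5
  simp only at h5
  exact decide_eq_decide.2 h5

/-- the number of the orientations of a two regular graph -/
lemma fib_card {x : Perm (Fin n) × Perm (Fin n)} (hx : x ∈ Xs n) :
    ((Xs n).filter fun y => Psi y = Psi x).card = 2 ^ cyc x.1 := by
  obtain ⟨σ, π⟩ := x
  have hσ : ∀ k, σ k ≠ k := by
    unfold Xs at hx
    exact (Finset.mem_filter.1 hx).2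
  have h0 := card_inv σ Bool
  rw [Fintype.card_bool] at h0
  rw [← h0]
  symm
  refine Finset.card_bij'
    (fun B hB => (tau (Finset.mem_filter.1 hB).2, rho (Finset.mem_filter.1 hB).2 * π))
    (fun y _ => fun k => decide (y.2 (π.symm k) = k)) ?_ ?_ ?_ ?_
  · intro B hB
    have hB' := (Finset.mem_filter.1 hB).2
    rw [Finset.mem_filter]
    constructor
    · unfold Xs
      rw [Finset.mem_filter]
      refine ⟨Finset.mem_univ _, fun k => ?_⟩
      simp only
      rw [tau_apply]
      split_ifs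
      · exact hσ k
      · intro h
        apply hσ k
        rw [← h]
        simp
        exact h.symm
    · funext i
      unfold Psi
      simp only [Perm.mul_apply]
      rw [srt_eq, rho_apply, tau_apply]
      by_cases h : B (π i) = true
      · left
        rw [if_pos h, if_pos h]
        exact ⟨rfl, rfl⟩
      · right
        rw [if_neg h]
        refine ⟨rfl, ?_⟩
        have h2 : ¬B (σ (π i)) = true := by rw [hB']; exact h
        rw [if_neg h2]
        simp
  · intro y hy
    rw [Finset.mem_filter] at hy ⊢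
    exact ⟨Finset.mem_univ _, fun k => fib_inv hσ hy.2 k⟩
  · intro B hB
    funext k
    simp only [Perm.mul_apply, Equiv.apply_symm_apply]
    rw [rho_apply]
    by_cases h : B k = true
    · rw [if_pos h, h]; simp
    · rw [if_neg h, decide_eq_false (hσ k)]
      simpa using h
  · intro y hy
    rw [Finset.mem_filter] at hy
    apply Prod.ext
    · ext1 k
      simp only
      rw [tau_apply]
      rcases fib_cases hy.2 k with h | h
      · rw [if_pos (by simpa using h.1)]; exact h.2.symm
      · have h2 : ¬y.2 (π.symm k) = k := by rw [h.1]; exact hσ k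
        rw [if_neg (by simpa using h2)]
        obtain ⟨j, rfl⟩ := σ.surjective k
        have h3 := fib_inv hσ hy.2 j
        rw [decide_eq_decide] at h3
        rcases fib_cases hy.2 j with h4 | h4
        · exact absurd (h3.2 h4.1) h2
        · rw [h4.2]; simp
    · ext1 i
      simp only [Perm.mul_apply]
      rw [rho_apply]
      have h5 := fib_cases hy.2 (π i)
      rw [Equiv.symm_apply_apply] at h5
      rcases h5 with h | h
      · rw [if_pos (by simpa using h.1)]; exact h.1.symm
      · have h2 : ¬y.2 (π.symm (π i)) = π i := by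
          rw [Equiv.symm_apply_apply, h.1]; exact hσ _
        rw [if_neg (by simpa using h2)]
        exact h.1.symm

/-- every labelled two regular graph has an orientation -/
lemma Psi_surj {p : Fin n → Fin n × Fin n} (hp : p ∈ Ps n) : ∃ x ∈ Xs n, Psi x = p := by
  unfold Ps at hp
  rw [Finset.mem_filter] at hp
  obtain ⟨-, hlt, hdg⟩ := hp
  have hall : ∀ s : Finset (Fin n),
      s.card ≤ (s.biUnion fun i => ({(p i).1, (p i).2} : Finset (Fin n))).card := by
    intro s
    obtain ⟨T, hT⟩ : ∃ T, T = s.biUnion fun i => ({(p i).1, (p i).2} : Finset (Fin n)) :=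
      ⟨_, rfl⟩
    rw [← hT]
    have h1 : ∀ i ∈ s, ∑ k ∈ T, (((if (p i).1 = k then 1 else 0) +
        (if (p i).2 = k then 1 else 0)) : ℕ) = 2 := by
      intro i hi
      rw [Finset.sum_add_distrib, Finset.sum_ite_eq T, Finset.sum_ite_eq T, if_pos, if_pos]
      · rw [hT, Finset.mem_biUnion]; exact ⟨i, hi, by simp⟩
      · rw [hT, Finset.mem_biUnion]; exact ⟨i, hi, by simp⟩
    have h2 : ∑ i ∈ s, ∑ k ∈ T, (((if (p i).1 = k then 1 else 0) +
        (if (p i).2 = k then 1 else 0)) : ℕ) = s.card * 2 := by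
      rw [Finset.sum_congr rfl h1, Finset.sum_const, smul_eq_mul]
    have h3 : ∀ k ∈ T, ∑ i ∈ s, (((if (p i).1 = k then 1 else 0) +
        (if (p i).2 = k then 1 else 0)) : ℕ) ≤ 2 := by
      intro k _
      rw [← hdg k, dg_eq]
      exact Finset.sum_le_sum_of_subset (Finset.subset_univ s)
    have h4 : ∑ k ∈ T, ∑ i ∈ s, (((if (p i).1 = k then 1 else 0) +
        (if (p i).2 = k then 1 else 0)) : ℕ) ≤ T.card * 2 := by
      refine (Finset.sum_le_sum h3).trans (le_of_eq ?_)
      rw [Finset.sum_const, smul_eq_mul]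
    rw [Finset.sum_comm, h2] at h4
    omega
  obtain ⟨f, hf, hft⟩ := (Finset.all_card_le_biUnion_card_iff_exists_injective _).1 hall
  have hft' : ∀ i, f i = (p i).1 ∨ f i = (p i).2 := fun i => by
    have := hft i
    simpa using this
  obtain ⟨g, hg⟩ : ∃ g : Fin n → Fin n, g = fun i => if f i = (p i).1 then (p i).2 else (p i).1 :=
    ⟨_, rfl⟩
  have hgp : ∀ i, (f i = (p i).1 ∧ g i = (p i).2) ∨ (f i = (p i).2 ∧ g i = (p i).1) := by
    intro i
    rw [hg]
    rcases hft' i with h | h
    · left; exact ⟨h, by simp only; rw [if_pos h]⟩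
    · right
      refine ⟨h, ?_⟩
      simp only
      rw [if_neg]
      rw [h]
      exact (hlt i).ne'
  have hgs : Function.Surjective g := by
    intro k
    by_contra hcon
    push Not at hcon
    have h1 := hdg k
    rw [dg_eq] at h1
    have h2 : ∀ i, (((if (p i).1 = k then 1 else 0) + (if (p i).2 = k then 1 else 0)) : ℕ) =
        if f i = k then 1 else 0 := by
      intro i
      have h3 := hcon i
      rcases hgp i with ⟨h4, h5⟩ | ⟨h4, h5⟩
      · rw [h5] at h3
        rw [if_neg h3, h4, add_zero]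
      · rw [h5] at h3
        rw [if_neg h3, h4, zero_add]
    rw [Finset.sum_congr rfl fun i _ => h2 i] at h1
    have h6 : ∑ i, (if f i = k then 1 else 0) ≤ 1 := by
      rw [← Finset.card_filter, Finset.card_le_one]
      intro a ha b hb
      rw [Finset.mem_filter] at ha hb
      exact hf (ha.2.trans hb.2.symm)
    omega
  obtain ⟨π, hπ⟩ : ∃ π : Perm (Fin n), ∀ i, π i = f i :=
    ⟨Equiv.ofBijective f (Finite.injective_iff_bijective.1 hf), fun _ => rfl⟩
  obtain ⟨τ, hτ⟩ : ∃ τ : Perm (Fin n), ∀ i, τ i = g i :=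
    ⟨Equiv.ofBijective g (Finite.surjective_iff_bijective.1 hgs), fun _ => rfl⟩
  refine ⟨(τ * π⁻¹, π), ?_, ?_⟩
  · unfold Xs
    rw [Finset.mem_filter]
    refine ⟨Finset.mem_univ _, fun k => ?_⟩
    obtain ⟨i, rfl⟩ := π.surjective k
    simp only [Perm.mul_apply]
    have e : π⁻¹ (π i) = i := by simp
    rw [e, hτ, hπ]
    have := (hlt i).ne
    rcases hgp i with ⟨h4, h5⟩ | ⟨h4, h5⟩
    · rw [h4, h5]; exact this.symm
    · rw [h4, h5]; exact this
  · funext i
    unfold Psi
    simp only [Perm.mul_apply]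
    have e : π⁻¹ (π i) = i := by simp
    rw [e, hτ, hπ]
    have h0 := hlt i
    unfold srt
    rcases hgp i with ⟨h4, h5⟩ | ⟨h4, h5⟩
    · rw [h4, h5, if_pos h0]
    · rw [h4, h5, if_neg h0.not_gt]

/-- Wick's theorem for the squares -/
theorem Lp_wick {V : Fin n → Fin n → ℝ} (hV : ∀ k l, V k l = V l k) :
    Lp V = ∑ σ ∈ Finset.univ.filter (fun σ : Perm (Fin n) => ∀ k, σ k ≠ k),
      ((2 : ℝ) ^ cyc σ)⁻¹ * ∏ k, V k (σ k) := by
  have h1 : ∀ x : Perm (Fin n) × Perm (Fin n),
      ∏ i, V (Psi x i).1 (Psi x i).2 = ∏ k, V k (x.1 k) := by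
    intro x
    rw [← Equiv.prod_comp x.2 (fun k => V k (x.1 k))]
    refine Finset.prod_congr rfl fun i _ => ?_
    unfold Psi srt
    split_ifs
    · rfl
    · exact hV _ _
  have h2 : ∀ p ∈ Ps n, ∑ x ∈ (Xs n).filter (fun x => Psi x = p),
      ((2 : ℝ) ^ cyc x.1)⁻¹ * ∏ i, V (Psi x i).1 (Psi x i).2 = ∏ i, V (p i).1 (p i).2 := by
    intro p hp
    obtain ⟨x0, hx0, rfl⟩ := Psi_surj hp
    have h3 : ∀ x ∈ (Xs n).filter (fun x => Psi x = Psi x0),
        ((2 : ℝ) ^ cyc x.1)⁻¹ * ∏ i, V (Psi x i).1 (Psi x i).2 =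
        (((Xs n).filter (fun x => Psi x = Psi x0)).card : ℝ)⁻¹ *
          ∏ i, V (Psi x0 i).1 (Psi x0 i).2 := by
      intro x hx
      rw [Finset.mem_filter] at hx
      have h4 := fib_card hx.1
      rw [hx.2] at h4
      rw [h4, hx.2]
      push_cast
      rfl
    rw [Finset.sum_congr rfl h3, Finset.sum_const, nsmul_eq_mul, ← mul_assoc,
      mul_inv_cancel₀, one_mul]
    have h5 : 0 < ((Xs n).filter (fun x => Psi x = Psi x0)).card :=
      Finset.card_pos.2 ⟨x0, Finset.mem_filter.2 ⟨hx0, rfl⟩⟩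
    exact_mod_cast h5.ne'
  have h6 : ∑ p : Fin n → Fin n × Fin n,
      (if (∀ i, (p i).1 < (p i).2) ∧ ∀ k, dg p k = 2 then ∏ i, V (p i).1 (p i).2 else 0) =
      ∑ p ∈ Ps n, ∏ i, V (p i).1 (p i).2 := by
    unfold Ps
    rw [Finset.sum_filter]
  unfold Lp
  rw [h6, ← Finset.sum_congr rfl h2,
    Finset.sum_fiberwise_of_maps_to (fun x hx => Psi_mem hx)]
  simp only [h1]
  unfold Xs
  rw [Finset.sum_filter, Fintype.sum_prod_type, Finset.sum_filter, Finset.mul_sum]
  refine Finset.sum_congr rfl fun σ _ => ?_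
  simp only
  rw [Finset.sum_const, Finset.card_univ, Fintype.card_perm, Fintype.card_fin, nsmul_eq_mul,
    ← mul_assoc, inv_mul_cancel₀ (by positivity), one_mul]

/-- the sum over the colours -/
theorem SS_wick {D : ℕ} {V : Fin n → Fin n → ℝ} (hV : ∀ k l, V k l = V l k) :
    SS D V = ∑ σ ∈ Finset.univ.filter (fun σ : Perm (Fin n) => ∀ k, σ k ≠ k),
      ((D : ℝ) / 2) ^ cyc σ * ∏ k, V k (σ k) := by
  unfold SS
  have h1 : ∀ a : Fin n → Fin D, Lp (cv V a) =
      ∑ σ ∈ Finset.univ.filter (fun σ : Perm (Fin n) => ∀ k, σ k ≠ k),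
      ((2 : ℝ) ^ cyc σ)⁻¹ * ((∏ k, V k (σ k)) * if (∀ k, a (σ k) = a k) then 1 else 0) := by
    intro a
    rw [Lp_wick fun k l => by
      unfold cv
      by_cases h : a k = a l
      · rw [if_pos h, if_pos h.symm, hV]
      · rw [if_neg h, if_neg (Ne.symm h)]]
    refine Finset.sum_congr rfl fun σ _ => ?_
    congr 1
    split_ifs with h
    · rw [mul_one]
      refine Finset.prod_congr rfl fun k _ => ?_
      unfold cv
      rw [if_pos (h k).symm]
    · rw [mul_zero]
      push Not at h
      obtain ⟨k, hk⟩ := h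
      refine Finset.prod_eq_zero (Finset.mem_univ k) ?_
      unfold cv
      rw [if_neg (Ne.symm hk)]
  rw [Finset.sum_congr rfl fun a _ => h1 a, Finset.sum_comm]
  refine Finset.sum_congr rfl fun σ _ => ?_
  rw [← Finset.mul_sum, ← Finset.mul_sum]
  have h2 : ∑ a : Fin n → Fin D, (if (∀ k, a (σ k) = a k) then (1 : ℝ) else 0) =
      (D : ℝ) ^ cyc σ := by
    have h3 := card_inv σ (Fin D)
    rw [Fintype.card_fin, Finset.card_filter] at h3
    have h4 := congrArg (Nat.cast : ℕ → ℝ) h3
    push_cast at h4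
    exact h4
  rw [h2, div_pow]
  ring

end Pool.Agent.U322.SF
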