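import Mathlib

/-!
# Schwinger functions of lattice Yang-Mills: one dimensional heat kernels
-/

open MeasureTheory Filter
open scoped Topology ContDiff

namespace Pool.Agent.U322.SF

set_option linter.unusedSectionVars false
set_option linter.unusedVariables false

noncomputable section

/-- the character -/
def ee (θ : ℝ) : ℂ := Complex.exp (((2 * Real.pi * θ : ℝ) : ℂ) * Complex.I)

lemma ee_add (a b : ℝ) : ee (a + b) = ee a * ee b := by
  unfold ee
  rw [← Complex.exp_add]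
  congr 1
  push_cast
  ring

lemma ee_zero : ee 0 = 1 := by unfold ee; simp

lemma norm_ee (θ : ℝ) : ‖ee θ‖ = 1 := Complex.norm_exp_ofReal_mul_I _

lemma ee_int (k : ℤ) : ee k = 1 := by
  unfold ee
  rw [show (((2 * Real.pi * (k : ℝ) : ℝ) : ℂ) * Complex.I) = k * (2 * Real.pi * Complex.I) by
    push_cast; ring]
  exact Complex.exp_int_mul_two_pi_mul_I k

lemma ee_neg_mul (θ : ℝ) : ee (-θ) * ee θ = 1 := by rw [← ee_add]; simp [ee_zero]

lemma ee_smooth : ContDiff ℝ ∞ ee := by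
  unfold ee
  have h1 : ContDiff ℝ ∞ fun θ : ℝ => ((2 * Real.pi * θ : ℝ) : ℂ) * Complex.I :=
    (Complex.ofRealCLM.contDiff.comp (contDiff_const.mul contDiff_id)).mul contDiff_const
  exact h1.cexp

lemma ee_cont : Continuous ee := ee_smooth.continuous

lemma ee_periodic : Function.Periodic ee 1 := fun θ => by
  rw [ee_add]
  have := ee_int 1
  rw [Int.cast_one] at this
  rw [this, mul_one]

lemma hasDerivAt_ee_mul (c θ : ℝ) :
    HasDerivAt (fun θ : ℝ => ee (c * θ)) (2 * Real.pi * c * Complex.I * ee (c * θ)) θ := by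
  unfold ee
  have h1 : HasDerivAt (fun θ : ℝ => ((2 * Real.pi * (c * θ) : ℝ) : ℂ) * Complex.I)
      (((2 * Real.pi * c : ℝ) : ℂ) * Complex.I) θ := by
    have h2 : HasDerivAt (fun θ : ℝ => 2 * Real.pi * (c * θ)) (2 * Real.pi * c) θ := by
      have := ((hasDerivAt_id θ).const_mul c).const_mul (2 * Real.pi)
      simpa using this
    exact h2.ofReal_comp.mul_const _
  have h3 := h1.cexp
  convert h3 using 1
  push_cast
  ring

lemma norm_one_sub_ee (θ : ℝ) : ‖1 - ee θ‖ = 2 * |Real.sin (Real.pi * θ)| := by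
  have h1 : ‖1 - ee θ‖ ^ 2 = (2 * |Real.sin (Real.pi * θ)|) ^ 2 := by
    rw [← Complex.normSq_eq_norm_sq, Complex.normSq_apply]
    have e1 : (ee θ).re = Real.cos (2 * Real.pi * θ) := Complex.exp_ofReal_mul_I_re _
    have e2 : (ee θ).im = Real.sin (2 * Real.pi * θ) := Complex.exp_ofReal_mul_I_im _
    rw [Complex.sub_re, Complex.sub_im, Complex.one_re, Complex.one_im, e1, e2, mul_pow, sq_abs,
      show 2 * Real.pi * θ = 2 * (Real.pi * θ) by ring, Real.cos_two_mul, Real.sin_two_mul]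
    have := Real.sin_sq_add_cos_sq (Real.pi * θ)
    nlinarith [this]
  exact (pow_left_inj₀ (norm_nonneg _) (by positivity) (by norm_num)).1 h1

lemma norm_one_sub_ee_le (θ : ℝ) : ‖1 - ee θ‖ ≤ 2 * Real.pi * |θ| := by
  rw [norm_one_sub_ee]
  have h1 : |Real.sin (Real.pi * θ)| ≤ |Real.pi * θ| := Real.abs_sin_le_abs
  rw [abs_mul, abs_of_pos Real.pi_pos] at h1
  linarith

/-- the symbols of order `r` -/
def Sym (r : ℕ) (m : ℝ → ℂ) : Prop :=
  ∃ p : ℝ → ℂ, ContDiff ℝ ∞ p ∧ Function.Periodic p 1 ∧ ∀ θ, m θ = (1 - ee θ) ^ r * p θ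

lemma Sym.smooth {r : ℕ} {m : ℝ → ℂ} (h : Sym r m) : ContDiff ℝ ∞ m := by
  obtain ⟨p, hp, -, hm⟩ := h
  have : m = fun θ => (1 - ee θ) ^ r * p θ := funext hm
  rw [this]
  exact ((contDiff_const.sub ee_smooth).pow r).mul hp

lemma Sym.periodic {r : ℕ} {m : ℝ → ℂ} (h : Sym r m) : Function.Periodic m 1 := by
  obtain ⟨p, -, hp, hm⟩ := h
  intro θ
  rw [hm, hm, ee_periodic, hp]

lemma periodic_bdd {p : ℝ → ℂ} (hp : Continuous p) (h1 : Function.Periodic p 1) :
    ∃ C : ℝ, 0 ≤ C ∧ ∀ θ, ‖p θ‖ ≤ C := by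
  obtain ⟨C, hC⟩ := isCompact_Icc.exists_bound_of_continuousOn (s := Set.Icc (0 : ℝ) 1)
    hp.continuousOn
  refine ⟨C, (norm_nonneg _).trans (hC 0 ⟨le_rfl, zero_le_one⟩), fun θ => ?_⟩
  obtain ⟨y, hy, hy2⟩ := h1.exists_mem_Ico₀ one_pos θ
  rw [hy2]
  exact hC y ⟨hy.1, hy.2.le⟩

lemma Sym.bound {r : ℕ} {m : ℝ → ℂ} (h : Sym r m) : ∃ C : ℝ, 0 ≤ C ∧ ∀ θ, ‖m θ‖ ≤ C * |θ| ^ r := by
  obtain ⟨p, hp, hp1, hm⟩ := h
  obtain ⟨C, hC, hb⟩ := periodic_bdd hp.continuous hp1
  refine ⟨(2 * Real.pi) ^ r * C, by positivity, fun θ => ?_⟩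
  rw [hm, norm_mul, norm_pow]
  calc ‖1 - ee θ‖ ^ r * ‖p θ‖ ≤ (2 * Real.pi * |θ|) ^ r * C :=
        mul_le_mul (pow_le_pow_left₀ (norm_nonneg _) (norm_one_sub_ee_le θ) r) (hb θ)
          (norm_nonneg _) (by positivity)
    _ = _ := by rw [mul_pow]; ring

lemma Sym.one : Sym 0 fun _ => 1 := ⟨fun _ => 1, contDiff_const, fun _ => rfl, fun θ => by simp⟩

lemma Sym.mul {r r' : ℕ} {m m' : ℝ → ℂ} (h : Sym r m) (h' : Sym r' m') :
    Sym (r + r') fun θ => m θ * m' θ := by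
  obtain ⟨p, hp, hp1, hm⟩ := h
  obtain ⟨p', hp', hp1', hm'⟩ := h'
  refine ⟨fun θ => p θ * p' θ, hp.mul hp', fun θ => ?_, fun θ => ?_⟩
  · simp only; rw [hp1, hp1']
  · simp only; rw [hm, hm', pow_add]; ring

lemma Sym.e1 : Sym 1 fun θ => 1 - ee θ :=
  ⟨fun _ => 1, contDiff_const, fun _ => rfl, fun θ => by simp⟩

lemma Sym.e1' : Sym 1 fun θ => 1 - ee (-θ) := by
  refine ⟨fun θ => -ee (-θ), (ee_smooth.comp contDiff_neg).neg, fun θ => ?_, fun θ => ?_⟩
  · simp only
    rw [neg_add, ee_add]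
    have := ee_int (-1)
    rw [Int.cast_neg, Int.cast_one] at this
    rw [this, mul_one]
  · rw [pow_one]
    have := ee_neg_mul θ
    linear_combination (-1 : ℂ) * this

/-- the sine as a symbol -/
lemma Sym.sin : Sym 1 fun θ => ((Real.sin (2 * Real.pi * θ) : ℝ) : ℂ) := by
  refine ⟨fun θ => Complex.I / 2 * (ee (-θ) + 1), ?_, fun θ => ?_, fun θ => ?_⟩
  · exact contDiff_const.mul ((ee_smooth.comp contDiff_neg).add contDiff_const)
  · simp only
    rw [neg_add, ee_add]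
    have := ee_int (-1)
    rw [Int.cast_neg, Int.cast_one] at this
    rw [this, mul_one]
  · simp only
    rw [pow_one, Complex.ofReal_sin, Complex.sin]
    have h1 : Complex.exp (-((2 * Real.pi * θ : ℝ) : ℂ) * Complex.I) = ee (-θ) := by
      unfold ee
      congr 1
      push_cast
      ring
    have h2 : Complex.exp (((2 * Real.pi * θ : ℝ) : ℂ) * Complex.I) = ee θ := rfl
    rw [h1, h2]
    have := ee_neg_mul θ
    linear_combination (Complex.I / 2) * this

/-- the derivative of a symbol -/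
lemma Sym.deriv {r : ℕ} {m : ℝ → ℂ} (h : Sym r m) : ∃ m' : ℝ → ℂ, Sym (r - 1) m' ∧
    ∀ θ, HasDerivAt m (m' θ) θ := by
  obtain ⟨p, hp, hp1, hm⟩ := h
  have hmf : m = fun θ => (1 - ee θ) ^ r * p θ := funext hm
  have hdp : ∀ θ, HasDerivAt p (_root_.deriv p θ) θ := fun θ =>
    (hp.differentiable (by simp)).differentiableAt.hasDerivAt
  have hdps : ContDiff ℝ ∞ (_root_.deriv p) := by
    have := hp.iterate_deriv 1
    simpa using this
  have hdpp : Function.Periodic (_root_.deriv p) 1 := fun θ => by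
    have h2 : (fun x => p (x + 1)) = p := funext hp1
    have h3 := deriv_comp_add_const p 1 θ
    rw [h2] at h3
    exact h3.symm
  have hde : ∀ θ, HasDerivAt ee (2 * Real.pi * Complex.I * ee θ) θ := fun θ => by
    have := hasDerivAt_ee_mul 1 θ
    simp only [one_mul] at this
    convert this using 1
    push_cast
    ring
  refine ⟨fun θ => (1 - ee θ) ^ (r - 1) * ((r : ℂ) * (-(2 * Real.pi * Complex.I * ee θ)) * p θ +
    (if r = 0 then 1 else 1 - ee θ) * _root_.deriv p θ), ⟨fun θ => (r : ℂ) *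
      (-(2 * Real.pi * Complex.I * ee θ)) * p θ +
    (if r = 0 then 1 else 1 - ee θ) * _root_.deriv p θ, ?_, ?_, fun θ => rfl⟩, fun θ => ?_⟩
  · refine ContDiff.add ?_ ?_
    · exact (contDiff_const.mul (contDiff_const.mul ee_smooth).neg).mul hp
    · split_ifs
      · exact contDiff_const.mul hdps
      · exact (contDiff_const.sub ee_smooth).mul hdps
  · intro θ
    simp only
    rw [ee_periodic, hp1, hdpp]
  · rw [hmf]
    have h1 := ((hde θ).const_sub 1).pow r |>.mul (hdp θ)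
    refine h1.congr_deriv ?_
    rcases Nat.eq_zero_or_pos r with h0 | h0
    · subst h0; simp
    · simp only [Pi.pow_apply]
      rw [if_neg h0.ne']
      have : (1 - ee θ) ^ r = (1 - ee θ) ^ (r - 1) * (1 - ee θ) := by
        rw [← pow_succ, Nat.sub_add_cancel h0]
      rw [this]
      ring

/-- the integrand -/
def fI (m : ℝ → ℂ) (t : ℝ) (k : ℤ) (θ : ℝ) : ℂ :=
  ee (k * θ) * m θ * ((Real.exp (-(4 * t * Real.sin (Real.pi * θ) ^ 2)) : ℝ) : ℂ)

/-- the heat kernel with a symbol -/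
def II (m : ℝ → ℂ) (t : ℝ) (k : ℤ) : ℂ := ∫ θ in (-(1 / 2) : ℝ)..(1 / 2), fI m t k θ

lemma fI_cont {m : ℝ → ℂ} (hm : Continuous m) (t : ℝ) (k : ℤ) : Continuous (fI m t k) := by
  unfold fI
  refine ((ee_cont.comp (continuous_const.mul continuous_id)).mul hm).mul ?_
  exact Complex.continuous_ofReal.comp (Real.continuous_exp.comp (continuous_const.mul
    ((Real.continuous_sin.comp (continuous_const.mul continuous_id)).pow 2)).neg)

lemma sin_sq_ge {θ : ℝ} (h : |θ| ≤ 1 / 2) : 4 * θ ^ 2 ≤ Real.sin (Real.pi * θ) ^ 2 := by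
  have h1 : 2 * |θ| ≤ Real.sin (Real.pi * |θ|) := by
    have h2 := Real.mul_le_sin (x := Real.pi * |θ|) (by positivity) (by
      nlinarith [Real.pi_pos])
    have e : 2 / Real.pi * (Real.pi * |θ|) = 2 * |θ| := by
      field_simp
    rwa [e] at h2
  have h3 : Real.sin (Real.pi * θ) ^ 2 = Real.sin (Real.pi * |θ|) ^ 2 := by
    rcases abs_cases θ with ⟨h, _⟩ | ⟨h, _⟩
    · rw [h]
    · rw [h, mul_neg, Real.sin_neg, neg_sq]
  rw [h3, ← sq_abs θ]
  nlinarith [abs_nonneg θ]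

lemma norm_fI_le {m : ℝ → ℂ} {C : ℝ} {r : ℕ} (hC : 0 ≤ C) (hm : ∀ θ, ‖m θ‖ ≤ C * |θ| ^ r) {t : ℝ}
    (ht : 0 ≤ t) (k : ℤ) {θ : ℝ} (h : |θ| ≤ 1 / 2) :
    ‖fI m t k θ‖ ≤ C * |θ| ^ r * Real.exp (-(16 * t * θ ^ 2)) := by
  unfold fI
  rw [norm_mul, norm_mul, norm_ee, one_mul, Complex.norm_real, Real.norm_eq_abs, Real.abs_exp]
  refine mul_le_mul (hm θ) ?_ (Real.exp_pos _).le (by positivity)
  rw [Real.exp_le_exp]
  have := sin_sq_ge h
  nlinarith

lemma int_pow_gauss (r : ℕ) {c : ℝ} (hc : 0 < c) :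
    Integrable fun y : ℝ => |y| ^ r * Real.exp (-(c * y ^ 2)) := by
  have h1 := integrable_rpow_mul_exp_neg_mul_sq hc (s := r) (by
    have : (0 : ℝ) ≤ r := Nat.cast_nonneg r
    linarith)
  refine h1.norm.congr (Eventually.of_forall fun y => ?_)
  simp only [norm_mul, Real.norm_eq_abs, Real.rpow_natCast, abs_pow, Real.abs_exp, neg_mul]

/-- the bound of the kernel -/
lemma II_bound {r : ℕ} {m : ℝ → ℂ} (h : Sym r m) : ∃ C : ℝ, 0 ≤ C ∧ ∀ (t : ℝ), 0 ≤ t → ∀ k : ℤ,
    ‖II m t k‖ * Real.sqrt (1 + t) ^ (r + 1) ≤ C := by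
  obtain ⟨C, hC, hb⟩ := h.bound
  obtain ⟨A, hA⟩ : ∃ A : ℝ, A = ∫ y : ℝ, |y| ^ r * Real.exp (-(16 * y ^ 2)) := ⟨_, rfl⟩
  have hA0 : 0 ≤ A := by rw [hA]; exact integral_nonneg fun y => by positivity
  refine ⟨C * Real.exp 4 * A, by positivity, fun t ht k => ?_⟩
  obtain ⟨R, hR⟩ : ∃ R, R = Real.sqrt (1 + t) := ⟨_, rfl⟩
  have hR0 : 0 < R := by rw [hR]; exact Real.sqrt_pos.2 (by linarith)
  have hR2 : R ^ 2 = 1 + t := by rw [hR, Real.sq_sqrt (by linarith)]
  rw [← hR]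
  have h1 : ‖II m t k‖ ≤ ∫ θ in (-(1 / 2) : ℝ)..(1 / 2), C * Real.exp 4 *
      (|θ| ^ r * Real.exp (-(16 * (R * θ) ^ 2))) := by
    unfold II
    refine intervalIntegral.norm_integral_le_of_norm_le (by norm_num)
      (Eventually.of_forall fun θ hθ => ?_) ?_
    · have hθ2 : |θ| ≤ 1 / 2 := abs_le.2 ⟨hθ.1.le, hθ.2⟩
      refine (norm_fI_le hC hb ht k hθ2).trans ?_
      have e1 : Real.exp (-(16 * t * θ ^ 2)) ≤ Real.exp 4 * Real.exp (-(16 * (R * θ) ^ 2)) := by
        rw [← Real.exp_add, Real.exp_le_exp, mul_pow, hR2]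
        have : θ ^ 2 ≤ 1 / 4 := by
          rw [← sq_abs]; nlinarith [abs_nonneg θ]
        nlinarith
      calc C * |θ| ^ r * Real.exp (-(16 * t * θ ^ 2)) ≤
          C * |θ| ^ r * (Real.exp 4 * Real.exp (-(16 * (R * θ) ^ 2))) :=
            mul_le_mul_of_nonneg_left e1 (by positivity)
        _ = _ := by ring
    · refine Continuous.intervalIntegrable (by fun_prop) _ _
  have h2 : ∫ θ in (-(1 / 2) : ℝ)..(1 / 2), C * Real.exp 4 *
      (|θ| ^ r * Real.exp (-(16 * (R * θ) ^ 2))) ≤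
      ∫ θ : ℝ, C * Real.exp 4 * (|θ| ^ r * Real.exp (-(16 * (R * θ) ^ 2))) := by
    rw [intervalIntegral.integral_of_le (by norm_num)]
    refine setIntegral_le_integral ?_ (Eventually.of_forall fun θ => by positivity)
    have := (int_pow_gauss r (c := 16 * R ^ 2) (by positivity)).const_mul (C * Real.exp 4)
    refine this.congr (Eventually.of_forall fun θ => ?_)
    simp only
    rw [mul_pow]
    ring_nf
  have h3 : ∫ θ : ℝ, C * Real.exp 4 * (|θ| ^ r * Real.exp (-(16 * (R * θ) ^ 2))) =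
      C * Real.exp 4 * A / R ^ (r + 1) := by
    have e1 : ∀ θ : ℝ, C * Real.exp 4 * (|θ| ^ r * Real.exp (-(16 * (R * θ) ^ 2))) =
        (C * Real.exp 4 / R ^ r) * (fun y : ℝ => |y| ^ r * Real.exp (-(16 * y ^ 2))) (R * θ) := by
      intro θ
      simp only
      rw [abs_mul, abs_of_pos hR0, mul_pow R |θ| r]
      field_simp
    simp only [e1]
    rw [integral_const_mul, Measure.integral_comp_mul_left
      (fun y : ℝ => |y| ^ r * Real.exp (-(16 * y ^ 2))), ← hA, abs_of_pos (by positivity), smul_eq_mul]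
    rw [pow_succ]
    field_simp
  have h4 := h1.trans (h2.trans (le_of_eq h3))
  rwa [le_div_iff₀ (by positivity)] at h4

/-- integration by parts -/
lemma II_rec {r : ℕ} {m m' : ℝ → ℂ} (h : Sym r m) (h' : Continuous m')
    (hd : ∀ θ, HasDerivAt m (m' θ) θ) (t : ℝ) (k : ℤ) :
    2 * Real.pi * k * Complex.I * II m t k = -II m' t k +
      4 * Real.pi * t * II (fun θ => m θ * ((Real.sin (2 * Real.pi * θ) : ℝ) : ℂ)) t k := by
  have hder : ∀ θ, HasDerivAt (fI m t k) (2 * Real.pi * k * Complex.I * fI m t k θ + fI m' t k θ -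
      4 * Real.pi * t * fI (fun θ => m θ * ((Real.sin (2 * Real.pi * θ) : ℝ) : ℂ)) t k θ) θ := by
    intro θ
    have h1 := hasDerivAt_ee_mul k θ
    have h2 := hd θ
    have h3 : HasDerivAt (fun θ : ℝ => Real.exp (-(4 * t * Real.sin (Real.pi * θ) ^ 2)))
        (Real.exp (-(4 * t * Real.sin (Real.pi * θ) ^ 2)) *
          (-(4 * Real.pi * t * Real.sin (2 * Real.pi * θ)))) θ := by
      have e1 : HasDerivAt (fun θ : ℝ => Real.sin (Real.pi * θ))
          (Real.cos (Real.pi * θ) * Real.pi) θ := by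
        have := (Real.hasDerivAt_sin (Real.pi * θ)).comp θ ((hasDerivAt_id θ).const_mul Real.pi)
        rw [mul_one] at this
        exact this
      have e2 := ((e1.pow 2).const_mul (4 * t)).neg
      have e3 := e2.exp
      refine e3.congr_deriv ?_
      congr 1
      rw [show 2 * Real.pi * θ = 2 * (Real.pi * θ) by ring, Real.sin_two_mul]
      push_cast
      ring
    have h4 := (h1.mul h2).mul h3.ofReal_comp
    refine h4.congr_deriv ?_
    unfold fI
    simp only [Pi.mul_apply]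
    push_cast
    ring
  have hmc : Continuous m := h.smooth.continuous
  have hsc : Continuous fun θ => m θ * ((Real.sin (2 * Real.pi * θ) : ℝ) : ℂ) :=
    hmc.mul (Complex.continuous_ofReal.comp (Real.continuous_sin.comp
      (continuous_const.mul continuous_id)))
  have h5 := intervalIntegral.integral_eq_sub_of_hasDerivAt (a := -(1 / 2)) (b := 1 / 2)
    (fun θ _ => hder θ) (Continuous.intervalIntegrable (by
      refine ((continuous_const.mul (fI_cont hmc t k)).add (fI_cont h' t k)).sub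
        (continuous_const.mul (fI_cont hsc t k))) _ _)
  have h6 : fI m t k (1 / 2) = fI m t k (-(1 / 2)) := by
    unfold fI
    have e1 : ee ((k : ℝ) * (1 / 2)) = ee ((k : ℝ) * -(1 / 2)) := by
      have : (k : ℝ) * (1 / 2) = (k : ℝ) * -(1 / 2) + (k : ℤ) := by ring
      rw [this, ee_add, ee_int, mul_one]
    have e2 : m (1 / 2) = m (-(1 / 2)) := by
      have := h.periodic (-(1 / 2))
      norm_num at this
      norm_num
      exact this
    rw [e1, e2, mul_neg Real.pi, Real.sin_neg, neg_sq]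
  rw [h6, sub_self] at h5
  have i1 : IntervalIntegrable (fun θ => 2 * Real.pi * k * Complex.I * fI m t k θ) volume
      (-(1 / 2)) (1 / 2) := (continuous_const.mul (fI_cont hmc t k)).intervalIntegrable _ _
  have i2 : IntervalIntegrable (fI m' t k) volume (-(1 / 2)) (1 / 2) :=
    (fI_cont h' t k).intervalIntegrable _ _
  have i3 : IntervalIntegrable (fun θ => 4 * Real.pi * t *
      fI (fun θ => m θ * ((Real.sin (2 * Real.pi * θ) : ℝ) : ℂ)) t k θ) volume
      (-(1 / 2)) (1 / 2) := (continuous_const.mul (fI_cont hsc t k)).intervalIntegrable _ _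
  rw [intervalIntegral.integral_sub (i1.add i2) i3, intervalIntegral.integral_add i1 i2,
    intervalIntegral.integral_const_mul, intervalIntegral.integral_const_mul] at h5
  unfold II
  linear_combination h5

/-- the decay of the kernel -/
theorem II_decay (M : ℕ) : ∀ {r : ℕ} {m : ℝ → ℂ}, Sym r m → ∃ C : ℝ, 0 ≤ C ∧ ∀ (t : ℝ), 0 ≤ t →
    ∀ k : ℤ, |(k : ℝ)| ^ M * ‖II m t k‖ * Real.sqrt (1 + t) ^ (r + 1) ≤ C * Real.sqrt (1 + t) ^ M := by
  induction M with
  | zero =>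
    intro r m h
    obtain ⟨C, hC, hb⟩ := II_bound h
    refine ⟨C, hC, fun t ht k => ?_⟩
    simpa using hb t ht k
  | succ M ih =>
    intro r m h
    obtain ⟨m', hm', hd⟩ := h.deriv
    obtain ⟨C1, hC1, hb1⟩ := ih hm'
    obtain ⟨C2, hC2, hb2⟩ := ih (h.mul Sym.sin)
    refine ⟨C1 + 2 * C2, by positivity, fun t ht k => ?_⟩
    obtain ⟨R, hR⟩ : ∃ R, R = Real.sqrt (1 + t) := ⟨_, rfl⟩
    have hR1 : 1 ≤ R := by rw [hR, Real.one_le_sqrt]; linarith
    have hR0 : 0 < R := by linarith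
    have hR2 : R ^ 2 = 1 + t := by rw [hR, Real.sq_sqrt (by linarith)]
    have h1 := hb1 t ht k
    have h2 := hb2 t ht k
    rw [← hR] at h1 h2 ⊢
    have hrec := II_rec h hm'.smooth.continuous hd t k
    have h3 : 2 * Real.pi * |(k : ℝ)| * ‖II m t k‖ ≤ ‖II m' t k‖ +
        4 * Real.pi * t * ‖II (fun θ => m θ * ((Real.sin (2 * Real.pi * θ) : ℝ) : ℂ)) t k‖ := by
      have e1 := congrArg norm hrec
      have e2 : ‖(2 : ℂ) * Real.pi * k * Complex.I * II m t k‖ =
          2 * Real.pi * |(k : ℝ)| * ‖II m t k‖ := by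
        rw [norm_mul, norm_mul, norm_mul, norm_mul, Complex.norm_I, Complex.norm_real,
          Real.norm_eq_abs, abs_of_pos Real.pi_pos, Complex.norm_intCast]
        simp
      rw [e2] at e1
      rw [e1]
      refine (norm_add_le _ _).trans ?_
      rw [norm_neg, norm_mul, norm_mul, norm_mul, Complex.norm_real, Complex.norm_real,
        Real.norm_eq_abs, Real.norm_eq_abs, abs_of_pos Real.pi_pos, abs_of_nonneg ht]
      simp
    obtain ⟨K, hK⟩ : ∃ K, K = |(k : ℝ)| := ⟨_, rfl⟩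
    have hK0 : 0 ≤ K := by rw [hK]; exact abs_nonneg _
    rw [← hK] at h1 h2 h3 ⊢
    obtain ⟨A, hA⟩ : ∃ A, A = ‖II m t k‖ := ⟨_, rfl⟩
    obtain ⟨A1, hA1⟩ : ∃ A1, A1 = ‖II m' t k‖ := ⟨_, rfl⟩
    obtain ⟨A2, hA2⟩ : ∃ A2, A2 = ‖II (fun θ => m θ * ((Real.sin (2 * Real.pi * θ) : ℝ) : ℂ)) t k‖ :=
      ⟨_, rfl⟩
    rw [← hA, ← hA1, ← hA2] at h3
    rw [← hA1] at h1
    rw [← hA2] at h2
    rw [← hA]
    have hA0 : 0 ≤ A := by rw [hA]; exact norm_nonneg _
    have hA10 : 0 ≤ A1 := by rw [hA1]; exact norm_nonneg _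
    have hA20 : 0 ≤ A2 := by rw [hA2]; exact norm_nonneg _
    have h4 : K * A ≤ A1 + 2 * t * A2 := by
      have hpi : 3 < Real.pi := Real.pi_gt_three
      have e1 : 2 * Real.pi * (K * A) ≤ 2 * Real.pi * (A1 + 2 * t * A2) := by
        have : A1 ≤ 2 * Real.pi * A1 := by nlinarith
        calc 2 * Real.pi * (K * A) = 2 * Real.pi * K * A := by ring
          _ ≤ A1 + 4 * Real.pi * t * A2 := h3
          _ ≤ 2 * Real.pi * A1 + 4 * Real.pi * t * A2 := by linarith
          _ = _ := by ring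
      exact le_of_mul_le_mul_left e1 (by positivity)
    have h5 : K ^ (M + 1) * A * R ^ (r + 1) ≤ K ^ M * A1 * R ^ (r + 1) +
        2 * t * (K ^ M * A2 * R ^ (r + 1)) := by
      calc K ^ (M + 1) * A * R ^ (r + 1) = K ^ M * (K * A) * R ^ (r + 1) := by ring
        _ ≤ K ^ M * (A1 + 2 * t * A2) * R ^ (r + 1) := by gcongr
        _ = _ := by ring
    have h6 : K ^ M * A1 * R ^ (r + 1) ≤ C1 * R ^ (M + 1) := by
      rcases Nat.eq_zero_or_pos r with h0 | h0
      · subst h0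
        have e1 : K ^ M * A1 * R ^ (0 + 1) ≤ C1 * R ^ M := by simpa using h1
        exact e1.trans (mul_le_mul_of_nonneg_left (pow_le_pow_right₀ hR1 (Nat.le_succ M)) hC1)
      · have e1 : r - 1 + 1 = r := Nat.sub_add_cancel h0
        rw [e1] at h1
        calc K ^ M * A1 * R ^ (r + 1) = (K ^ M * A1 * R ^ r) * R := by ring
          _ ≤ (C1 * R ^ M) * R := mul_le_mul_of_nonneg_right h1 hR0.le
          _ = _ := by ring
    have h7 : t * (K ^ M * A2 * R ^ (r + 1)) ≤ C2 * R ^ (M + 1) := by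
      have e1 : t ≤ R ^ 2 := by rw [hR2]; linarith
      calc t * (K ^ M * A2 * R ^ (r + 1)) ≤ R ^ 2 * (K ^ M * A2 * R ^ (r + 1)) := by gcongr
        _ = (K ^ M * A2 * R ^ (r + 1 + 1)) * R := by ring
        _ ≤ (C2 * R ^ M) * R := mul_le_mul_of_nonneg_right h2 hR0.le
        _ = _ := by ring
    calc _ ≤ _ := h5
      _ ≤ C1 * R ^ (M + 1) + 2 * (C2 * R ^ (M + 1)) := by linarith
      _ = _ := by ring

end

end Pool.Agent.U322.SF
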