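import Mathlib
import Pool.Agent.U322.SF.Heat

/-!
# Schwinger functions of lattice Yang-Mills: scaling limit of the one dimensional heat kernels
-/

open MeasureTheory Filter
open scoped Topology ContDiff

namespace Pool.Agent.U322.SF

set_option linter.unusedSectionVars false
set_option linter.unusedVariables false

noncomputable section

/-- the integrand of the limit -/
def gI (r : ℕ) (τ x ξ : ℝ) : ℂ :=
  ee (x * ξ) * (-(2 * Real.pi * Complex.I * ξ)) ^ r *
    ((Real.exp (-(4 * Real.pi ^ 2 * τ * ξ ^ 2)) : ℝ) : ℂ)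

/-- the limit -/
def GG (r : ℕ) (τ x : ℝ) : ℂ := ∫ ξ : ℝ, gI r τ x ξ

lemma scaled {m : ℝ → ℂ} {h : ℝ} (hh : 0 < h) (r : ℕ) (t : ℝ) (k : ℤ) :
    ((h : ℂ) ^ (r + 1))⁻¹ * II m t k = ∫ ξ : ℝ, ((h : ℂ) ^ r)⁻¹ *
      (Set.Ioc (-(1 / 2) : ℝ) (1 / 2)).indicator (fI m t k) (h * ξ) := by
  unfold II
  rw [intervalIntegral.integral_of_le (by norm_num), ← integral_indicator measurableSet_Ioc,
    integral_const_mul, Measure.integral_comp_mul_left, abs_of_pos (inv_pos.2 hh), pow_succ]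
  rw [Complex.real_smul]
  push_cast
  rw [mul_inv]
  ring

lemma lim_one_sub (ξ : ℝ) {h : ℕ → ℝ} (hh : ∀ n, 0 < h n) (hl : Tendsto h atTop (𝓝 0)) :
    Tendsto (fun n => (1 - ee (h n * ξ)) / (h n : ℂ)) atTop (𝓝 (-(2 * Real.pi * Complex.I * ξ))) := by
  have h1 : HasDerivAt (fun y : ℝ => 1 - ee (ξ * y)) (-(2 * Real.pi * ξ * Complex.I)) 0 := by
    have := (hasDerivAt_ee_mul ξ 0).const_sub 1
    simpa [ee_zero] using this
  have h2 := h1.tendsto_slope_zero
  have h3 : Tendsto h atTop (𝓝[≠] 0) := tendsto_nhdsWithin_iff.2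
    ⟨hl, Eventually.of_forall fun n => (hh n).ne'⟩
  have h4 := h2.comp h3
  have e : -(2 * Real.pi * ξ * Complex.I) = -(2 * Real.pi * Complex.I * ξ) := by ring
  rw [e] at h4
  refine h4.congr fun n => ?_
  simp only [Function.comp_apply, zero_add, mul_zero, ee_zero, sub_self, sub_zero]
  rw [Complex.real_smul, mul_comm ξ]
  push_cast
  rw [div_eq_inv_mul]

lemma lim_sin (ξ : ℝ) {h : ℕ → ℝ} (hh : ∀ n, 0 < h n) (hl : Tendsto h atTop (𝓝 0)) :
    Tendsto (fun n => Real.sin (Real.pi * (h n * ξ)) / h n) atTop (𝓝 (Real.pi * ξ)) := by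
  have h1 : HasDerivAt (fun y : ℝ => Real.sin (Real.pi * ξ * y)) (Real.pi * ξ) 0 := by
    have := ((hasDerivAt_id (0 : ℝ)).const_mul (Real.pi * ξ)).sin
    simpa using this
  have h2 := h1.tendsto_slope_zero
  have h3 : Tendsto h atTop (𝓝[≠] 0) := tendsto_nhdsWithin_iff.2
    ⟨hl, Eventually.of_forall fun n => (hh n).ne'⟩
  have h4 := h2.comp h3
  refine h4.congr fun n => ?_
  simp only [Function.comp_apply, zero_add, mul_zero, Real.sin_zero, sub_zero, smul_eq_mul]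
  rw [div_eq_inv_mul]
  congr 2
  ring

/-- the scaling limit -/
theorem II_lim {r : ℕ} {m p : ℝ → ℂ} (hp : ContDiff ℝ ∞ p) (hp1 : Function.Periodic p 1)
    (hm : ∀ θ, m θ = (1 - ee θ) ^ r * p θ) {h : ℕ → ℝ} (hh : ∀ n, 0 < h n)
    (hl : Tendsto h atTop (𝓝 0)) {k : ℕ → ℤ} {x : ℝ}
    (hk : Tendsto (fun n => h n * (k n : ℝ)) atTop (𝓝 x)) {τ : ℝ} (hτ : 0 < τ) :
    Tendsto (fun n => ((h n : ℂ) ^ (r + 1))⁻¹ * II m (τ / h n ^ 2) (k n)) atTop
      (𝓝 (p 0 * GG r τ x)) := by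
  have hS : Sym r m := ⟨p, hp, hp1, hm⟩
  obtain ⟨C, hC, hb⟩ := hS.bound
  simp only [scaled (hh _)]
  unfold GG
  rw [← integral_const_mul]
  refine tendsto_integral_of_dominated_convergence
    (fun ξ => C * (|ξ| ^ r * Real.exp (-(16 * τ * ξ ^ 2)))) (fun n => ?_) ?_ (fun n => ?_) ?_
  · refine AEStronglyMeasurable.const_mul ?_ _
    exact (((fI_cont hS.smooth.continuous _ _).stronglyMeasurable.indicator
      measurableSet_Ioc).comp_measurable (measurable_const_mul (h n))).aestronglyMeasurable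
  · exact (int_pow_gauss r (by positivity)).const_mul C
  · refine Eventually.of_forall fun ξ => ?_
    have hn := hh n
    rw [norm_mul, norm_inv, norm_pow, Complex.norm_real, Real.norm_eq_abs, abs_of_pos hn]
    by_cases hi : h n * ξ ∈ Set.Ioc (-(1 / 2) : ℝ) (1 / 2)
    · rw [Set.indicator_of_mem hi]
      have hi2 : |h n * ξ| ≤ 1 / 2 := abs_le.2 ⟨hi.1.le, hi.2⟩
      have h1 := norm_fI_le hC hb (t := τ / h n ^ 2) (by positivity) (k n) hi2
      have e1 : C * |h n * ξ| ^ r * Real.exp (-(16 * (τ / h n ^ 2) * (h n * ξ) ^ 2)) =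
          h n ^ r * (C * (|ξ| ^ r * Real.exp (-(16 * τ * ξ ^ 2)))) := by
        rw [abs_mul, abs_of_pos hn, mul_pow (h n) |ξ| r]
        have : 16 * (τ / h n ^ 2) * (h n * ξ) ^ 2 = 16 * τ * ξ ^ 2 := by
          field_simp
        rw [this]
        ring
      rw [e1] at h1
      rw [inv_mul_le_iff₀ (by positivity)]
      exact h1
    · rw [Set.indicator_of_notMem hi, norm_zero, mul_zero]
      positivity
  · refine Eventually.of_forall fun ξ => ?_
    have h0 : Tendsto (fun n => h n * ξ) atTop (𝓝 0) := by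
      have := hl.mul_const ξ
      rwa [zero_mul] at this
    have h1 : ∀ᶠ n in atTop, h n * ξ ∈ Set.Ioc (-(1 / 2) : ℝ) (1 / 2) := by
      have := h0.eventually (Ioo_mem_nhds (show (-(1 / 2) : ℝ) < 0 by norm_num)
        (show (0 : ℝ) < 1 / 2 by norm_num))
      filter_upwards [this] with n hn using ⟨hn.1, hn.2.le⟩
    have h2 : Tendsto (fun n => ee (h n * (k n : ℝ) * ξ)) atTop (𝓝 (ee (x * ξ))) :=
      (ee_cont.tendsto _).comp (hk.mul_const ξ)
    have h3 := (lim_one_sub ξ hh hl).pow r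
    have h4 : Tendsto (fun n => p (h n * ξ)) atTop (𝓝 (p 0)) := (hp.continuous.tendsto _).comp h0
    have h5 : Tendsto (fun n => ((Real.exp (-(4 * τ * (Real.sin (Real.pi * (h n * ξ)) / h n) ^ 2)) :
        ℝ) : ℂ)) atTop (𝓝 ((Real.exp (-(4 * τ * (Real.pi * ξ) ^ 2)) : ℝ) : ℂ)) :=
      (Complex.continuous_ofReal.tendsto _).comp ((Real.continuous_exp.tendsto _).comp
        (((lim_sin ξ hh hl).pow 2).const_mul (4 * τ)).neg)
    have h6 := ((h2.mul h3).mul h4).mul h5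
    have e : ee (x * ξ) * (-(2 * Real.pi * Complex.I * ξ)) ^ r * p 0 *
        ((Real.exp (-(4 * τ * (Real.pi * ξ) ^ 2)) : ℝ) : ℂ) = p 0 * gI r τ x ξ := by
      unfold gI
      have : 4 * τ * (Real.pi * ξ) ^ 2 = 4 * Real.pi ^ 2 * τ * ξ ^ 2 := by ring
      rw [this]
      ring
    rw [e] at h6
    refine h6.congr' ?_
    filter_upwards [h1] with n hn
    rw [Set.indicator_of_mem hn]
    unfold fI
    rw [hm]
    have hn0 : (h n : ℂ) ≠ 0 := by exact_mod_cast (hh n).ne'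
    have e1 : 4 * (τ / h n ^ 2) * Real.sin (Real.pi * (h n * ξ)) ^ 2 =
        4 * τ * (Real.sin (Real.pi * (h n * ξ)) / h n) ^ 2 := by
      rw [div_pow]; ring
    have e2 : (k n : ℝ) * (h n * ξ) = h n * (k n : ℝ) * ξ := by ring
    rw [e1, e2, div_pow]
    field_simp

lemma gauss_int {τ : ℝ} (hτ : 0 < τ) (r : ℕ) (x : ℝ) : Integrable (gI r τ x) := by
  have h1 := (int_pow_gauss r (c := 4 * Real.pi ^ 2 * τ) (by positivity)).const_mul
    ((2 * Real.pi) ^ r)
  refine h1.mono' ?_ (Eventually.of_forall fun ξ => ?_)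
  · unfold gI
    refine Continuous.aestronglyMeasurable ?_
    refine ((ee_cont.comp (continuous_const.mul continuous_id)).mul ?_).mul ?_
    · exact ((continuous_const.mul Complex.continuous_ofReal).neg).pow r
    · exact Complex.continuous_ofReal.comp (Real.continuous_exp.comp
        (continuous_const.mul (continuous_id.pow 2)).neg)
  · unfold gI
    rw [norm_mul, norm_mul, norm_ee, one_mul, norm_pow, norm_neg, Complex.norm_real,
      Real.norm_eq_abs, Real.abs_exp]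
    have e : ‖(2 : ℂ) * Real.pi * Complex.I * ξ‖ = 2 * Real.pi * |ξ| := by
      rw [norm_mul, norm_mul, norm_mul, Complex.norm_I, Complex.norm_real, Complex.norm_real,
        Real.norm_eq_abs, Real.norm_eq_abs, abs_of_pos Real.pi_pos]
      simp
    rw [e, mul_pow]
    ring_nf
    exact le_rfl

/-- the one dimensional heat kernel -/
def g0 (τ x : ℝ) : ℝ := Real.exp (-(x ^ 2 / (4 * τ))) / Real.sqrt (4 * Real.pi * τ)

lemma GG_zero {τ : ℝ} (hτ : 0 < τ) (x : ℝ) : GG 0 τ x = (g0 τ x : ℂ) := by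
  unfold GG gI
  have h1 := fourierIntegral_gaussian (b := ((4 * Real.pi ^ 2 * τ : ℝ) : ℂ))
    (by rw [Complex.ofReal_re]; positivity) ((2 * Real.pi * x : ℝ) : ℂ)
  have e : ∀ ξ : ℝ, ee (x * ξ) * (-(2 * Real.pi * Complex.I * ξ)) ^ 0 *
      ((Real.exp (-(4 * Real.pi ^ 2 * τ * ξ ^ 2)) : ℝ) : ℂ) =
      Complex.exp (Complex.I * ((2 * Real.pi * x : ℝ) : ℂ) * ξ) *
        Complex.exp (-((4 * Real.pi ^ 2 * τ : ℝ) : ℂ) * ξ ^ 2) := by
    intro ξ
    unfold ee
    rw [pow_zero, mul_one, Complex.ofReal_exp]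
    congr 2
    · push_cast; ring
    · push_cast; ring
  simp only [e]
  rw [h1]
  unfold g0
  have hpi := Real.pi_pos
  have e1 : (Real.pi : ℂ) / ((4 * Real.pi ^ 2 * τ : ℝ) : ℂ) = (((4 * Real.pi * τ)⁻¹ : ℝ) : ℂ) := by
    have h2 : (Real.pi : ℂ) ≠ 0 := by exact_mod_cast hpi.ne'
    have h3 : (τ : ℂ) ≠ 0 := by exact_mod_cast hτ.ne'
    push_cast
    field_simp
  have e2 : -((2 * Real.pi * x : ℝ) : ℂ) ^ 2 / (4 * ((4 * Real.pi ^ 2 * τ : ℝ) : ℂ)) =
      ((-(x ^ 2 / (4 * τ)) : ℝ) : ℂ) := by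
    have h2 : (Real.pi : ℂ) ≠ 0 := by exact_mod_cast hpi.ne'
    have h3 : (τ : ℂ) ≠ 0 := by exact_mod_cast hτ.ne'
    push_cast
    field_simp
    ring
  have e3 : (1 / 2 : ℂ) = ((1 / 2 : ℝ) : ℂ) := by push_cast; ring
  rw [e1, e2, e3, ← Complex.ofReal_cpow (by positivity), ← Complex.ofReal_exp, ← Complex.ofReal_mul]
  congr 1
  rw [← Real.sqrt_eq_rpow, Real.sqrt_inv]
  field_simp

/-- the recursion of the Gaussian integrals -/
lemma GG_succ {τ : ℝ} (hτ : 0 < τ) (r : ℕ) (x : ℝ) :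
    GG (r + 1) τ x = (x * GG r τ x - r * GG (r - 1) τ x) / (2 * τ) := by
  have hpi : (Real.pi : ℂ) ≠ 0 := by exact_mod_cast Real.pi_pos.ne'
  have hτ0 : (τ : ℂ) ≠ 0 := by exact_mod_cast hτ.ne'
  have hder : ∀ ξ, HasDerivAt (gI r τ x) (2 * Real.pi * Complex.I * x * gI r τ x ξ +
      -(2 * Real.pi * Complex.I * r) * gI (r - 1) τ x ξ +
        -(4 * Real.pi * Complex.I * τ) * gI (r + 1) τ x ξ) ξ := by
    intro ξ
    have h1 := hasDerivAt_ee_mul x ξ
    have h2 : HasDerivAt (fun ξ : ℝ => (-(2 * Real.pi * Complex.I * ξ)) ^ r)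
        (r * (-(2 * Real.pi * Complex.I * ξ)) ^ (r - 1) * (-(2 * Real.pi * Complex.I))) ξ := by
      have e1 : HasDerivAt (fun ξ : ℝ => -(2 * Real.pi * Complex.I * (ξ : ℂ)))
          (-(2 * Real.pi * Complex.I)) ξ := by
        have h0 : HasDerivAt (fun ξ : ℝ => (ξ : ℂ)) 1 ξ := Complex.ofRealCLM.hasDerivAt
        have := (h0.const_mul (2 * Real.pi * Complex.I)).fun_neg
        rwa [mul_one] at this
      exact e1.pow r
    have h3 : HasDerivAt (fun ξ : ℝ => Real.exp (-(4 * Real.pi ^ 2 * τ * ξ ^ 2)))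
        (Real.exp (-(4 * Real.pi ^ 2 * τ * ξ ^ 2)) * (-(8 * Real.pi ^ 2 * τ * ξ))) ξ := by
      have e1 : HasDerivAt (fun ξ : ℝ => -(4 * Real.pi ^ 2 * τ * ξ ^ 2))
          (-(8 * Real.pi ^ 2 * τ * ξ)) ξ := by
        have := ((hasDerivAt_pow 2 ξ).const_mul (4 * Real.pi ^ 2 * τ)).neg
        refine this.congr_deriv ?_
        push_cast
        ring
      exact e1.exp
    have h4 := (h1.fun_mul h2).fun_mul h3.ofReal_comp
    refine h4.congr_deriv ?_
    unfold gI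
    rw [pow_succ (-(2 * (Real.pi : ℂ) * Complex.I * ξ)) r,
      Complex.ofReal_mul (Real.exp (-(4 * Real.pi ^ 2 * τ * ξ ^ 2)))]
    generalize ((Real.exp (-(4 * Real.pi ^ 2 * τ * ξ ^ 2)) : ℝ) : ℂ) = E
    generalize (-(2 * (Real.pi : ℂ) * Complex.I * ξ)) ^ r = W
    generalize (-(2 * (Real.pi : ℂ) * Complex.I * ξ)) ^ (r - 1) = W'
    generalize ee (x * ξ) = F
    simp only [Complex.ofReal_mul, Complex.ofReal_neg, Complex.ofReal_pow, Complex.ofReal_ofNat]
    linear_combination (F * W * E * (-(8 * Real.pi ^ 2 * τ * ξ))) * Complex.I_sq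
  have i1 := (gauss_int hτ r x).const_mul (2 * Real.pi * Complex.I * x)
  have i2 := (gauss_int hτ (r - 1) x).const_mul (-(2 * Real.pi * Complex.I * r))
  have i3 := (gauss_int hτ (r + 1) x).const_mul (-(4 * Real.pi * Complex.I * τ))
  have h5 := integral_eq_zero_of_hasDerivAt_of_integrable hder ((i1.add i2).add i3)
    (gauss_int hτ r x)
  have i12 : Integrable fun ξ => 2 * Real.pi * Complex.I * x * gI r τ x ξ +
      -(2 * Real.pi * Complex.I * r) * gI (r - 1) τ x ξ := i1.add i2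
  rw [integral_add i12 i3, integral_add i1 i2, integral_const_mul,
    integral_const_mul, integral_const_mul] at h5
  change 2 * Real.pi * Complex.I * x * GG r τ x + -(2 * Real.pi * Complex.I * r) *
    GG (r - 1) τ x + -(4 * Real.pi * Complex.I * τ) * GG (r + 1) τ x = 0 at h5
  have hI := Complex.I_ne_zero
  rw [eq_div_iff (by simpa using hτ0)]
  have h6 : (2 * Real.pi * Complex.I) * (GG (r + 1) τ x * (2 * τ)) =
      (2 * Real.pi * Complex.I) * (x * GG r τ x - r * GG (r - 1) τ x) := by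
    linear_combination -h5
  exact mul_left_cancel₀ (by simp [hpi]) h6

lemma GG_one {τ : ℝ} (hτ : 0 < τ) (x : ℝ) :
    GG 1 τ x = ((x / (2 * τ) * g0 τ x : ℝ) : ℂ) := by
  have h1 := GG_succ hτ 0 x
  rw [zero_add] at h1
  rw [h1, GG_zero hτ]
  push_cast
  ring

lemma GG_two {τ : ℝ} (hτ : 0 < τ) (x : ℝ) :
    GG 2 τ x = (((x ^ 2 / (4 * τ ^ 2) - 1 / (2 * τ)) * g0 τ x : ℝ) : ℂ) := by
  have h1 := GG_succ hτ 1 x
  rw [show 1 + 1 = 2 by norm_num, show 1 - 1 = 0 by norm_num] at h1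
  have hτ0 : (τ : ℂ) ≠ 0 := by exact_mod_cast hτ.ne'
  rw [h1, GG_zero hτ, GG_one hτ]
  push_cast
  field_simp
  ring

end

end Pool.Agent.U322.SF
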