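import Mathlib
import Pool.Agent.U322.SF.HeatLim
import Pool.Agent.TH618.YM.Coul

/-!
# Schwinger functions of lattice Yang-Mills: second differences of the lattice Green function
-/

open MeasureTheory Filter
open scoped Topology ContDiff
open Pool.Agent.TH618.YM (nu1)

namespace Pool.Agent.U322.SF

set_option linter.unusedSectionVars false
set_option linter.unusedVariables false

noncomputable section

variable {d : ℕ}

/-- the symbol of the lattice Laplace operator -/
def sl (u : Fin d → ℝ) : ℝ := ∑ i, 4 * Real.sin (Real.pi * u i) ^ 2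

lemma sl_nonneg (u : Fin d → ℝ) : 0 ≤ sl u := Finset.sum_nonneg fun i _ => by positivity

lemma sl_ge (u : Fin d → ℝ) (i : Fin d) : 4 * Real.sin (Real.pi * u i) ^ 2 ≤ sl u :=
  Finset.single_le_sum (f := fun i => 4 * Real.sin (Real.pi * u i) ^ 2)
    (fun i _ => by positivity) (Finset.mem_univ i)

lemma sl_cont : Continuous (sl : (Fin d → ℝ) → ℝ) := by
  unfold sl
  exact continuous_finsetSum _ fun i _ => continuous_const.mul
    ((Real.continuous_sin.comp (continuous_const.mul (continuous_apply i))).pow 2)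

/-- the one dimensional symbols -/
def mm (a b i : Fin d) (θ : ℝ) : ℂ :=
  (if i = a then 1 - ee θ else 1) * (if i = b then 1 - ee (-θ) else 1)

/-- the orders -/
def rr (a b i : Fin d) : ℕ := (if i = a then 1 else 0) + (if i = b then 1 else 0)

/-- the regular parts -/
def pp (b i : Fin d) (θ : ℝ) : ℂ := if i = b then -ee (-θ) else 1

lemma pp_smooth (b i : Fin d) : ContDiff ℝ ∞ (pp b i) := by
  by_cases h : i = b
  · have : pp b i = fun θ => -ee (-θ) := by funext θ; simp [pp, h]
    rw [this]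
    exact (ee_smooth.comp contDiff_neg).neg
  · have : pp b i = fun θ => 1 := by funext θ; simp [pp, h]
    rw [this]
    exact contDiff_const

lemma pp_periodic (b i : Fin d) : Function.Periodic (pp b i) 1 := by
  intro θ
  unfold pp
  split_ifs
  · rw [neg_add, ee_add]
    have := ee_int (-1)
    rw [Int.cast_neg, Int.cast_one] at this
    rw [this, mul_one]
  · rfl

lemma mm_eq (a b i : Fin d) (θ : ℝ) : mm a b i θ = (1 - ee θ) ^ rr a b i * pp b i θ := by
  have h0 : 1 - ee (-θ) = (1 - ee θ) * -ee (-θ) := by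
    have := ee_neg_mul θ
    linear_combination -this
  unfold mm rr pp
  by_cases ha : i = a <;> by_cases hb : i = b
  · rw [if_pos ha, if_pos hb, if_pos ha, if_pos hb, if_pos hb, h0]; ring
  · rw [if_pos ha, if_neg hb, if_pos ha, if_neg hb, if_neg hb]; ring
  · rw [if_neg ha, if_pos hb, if_neg ha, if_pos hb, if_pos hb, h0]; ring
  · rw [if_neg ha, if_neg hb, if_neg ha, if_neg hb, if_neg hb]; ring

lemma mm_sym (a b i : Fin d) : Sym (rr a b i) (mm a b i) :=
  ⟨pp b i, pp_smooth b i, pp_periodic b i, mm_eq a b i⟩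

lemma sum_rr (a b : Fin d) : ∑ i, (rr a b i + 1) = d + 2 := by
  unfold rr
  rw [Finset.sum_add_distrib, Finset.sum_add_distrib]
  simp
  omega

/-- the numerator -/
def Nm (a b : Fin d) (z : Fin d → ℤ) (u : Fin d → ℝ) : ℂ := ∏ i, (ee (z i * u i) * mm a b i (u i))

lemma Nm_cont (a b : Fin d) (z : Fin d → ℤ) : Continuous (Nm a b z) := by
  unfold Nm
  refine continuous_finsetProd _ fun i _ => ?_
  exact (ee_cont.comp (continuous_const.mul (continuous_apply i))).mul
    ((mm_sym a b i).smooth.continuous.comp (continuous_apply i))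

lemma Nm_norm_le (a b : Fin d) (z : Fin d → ℤ) (u : Fin d → ℝ) : ‖Nm a b z u‖ ≤ sl u := by
  unfold Nm
  have h1 : ∀ i, ‖ee (z i * u i) * mm a b i (u i)‖ =
      (if i = a then ‖1 - ee (u i)‖ else 1) * (if i = b then ‖1 - ee (-u i)‖ else 1) := by
    intro i
    rw [norm_mul, norm_ee, one_mul]
    unfold mm
    rw [norm_mul]
    congr 1
    · split_ifs
      · rfl
      · exact norm_one
    · split_ifs
      · rfl
      · exact norm_one
  rw [norm_prod, Finset.prod_congr rfl fun i _ => h1 i, Finset.prod_mul_distrib,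
    Finset.prod_ite_eq', Finset.prod_ite_eq', if_pos (Finset.mem_univ _),
    if_pos (Finset.mem_univ _), norm_one_sub_ee, norm_one_sub_ee, mul_neg, Real.sin_neg, abs_neg]
  have h2 := sl_ge u a
  have h3 := sl_ge u b
  have h4 : |Real.sin (Real.pi * u a)| ^ 2 = Real.sin (Real.pi * u a) ^ 2 := sq_abs _
  have h5 : |Real.sin (Real.pi * u b)| ^ 2 = Real.sin (Real.pi * u b) ^ 2 := sq_abs _
  nlinarith [sq_nonneg (|Real.sin (Real.pi * u a)| - |Real.sin (Real.pi * u b)|)]

/-- the second differences of the lattice Green function -/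
def Qz (a b : Fin d) (z : Fin d → ℤ) : ℂ :=
  ∫ u, Nm a b z u / (sl u : ℂ) ∂(Measure.pi fun _ : Fin d => nu1)

lemma sl_pos_ae (hd : 0 < d) : ∀ᵐ u ∂(Measure.pi fun _ : Fin d => nu1), 0 < sl u := by
  obtain ⟨i⟩ : Nonempty (Fin d) := ⟨⟨0, hd⟩⟩
  have h0 : ∀ᵐ u ∂(Measure.pi fun _ : Fin d => nu1), u i ∈ Set.Ioo (0 : ℝ) 1 := by
    have h3 : ∀ᵐ v ∂nu1, v ∈ Set.Ioo (0 : ℝ) 1 := by
      have h4 : nu1 = volume.restrict (Set.Ioo 0 1) := by
        unfold nu1
        exact Measure.restrict_congr_set Ioo_ae_eq_Ico.symm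
      rw [h4]
      exact ae_restrict_mem measurableSet_Ioo
    exact (Measure.quasiMeasurePreserving_eval (μ := fun _ : Fin d => nu1) i).ae h3
  filter_upwards [h0] with u hu
  refine lt_of_lt_of_le ?_ (sl_ge u i)
  have h1 : 0 < Real.sin (Real.pi * u i) := by
    refine Real.sin_pos_of_pos_of_lt_pi (mul_pos Real.pi_pos hu.1) ?_
    have := hu.2
    nlinarith [Real.pi_pos]
  positivity

lemma int_nu1 {f : ℝ → ℂ} (hf : Function.Periodic f 1) :
    ∫ θ, f θ ∂nu1 = ∫ θ in (-(1 / 2) : ℝ)..(1 / 2), f θ := by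
  have h1 : nu1 = volume.restrict (Set.Ioc 0 1) := by
    unfold nu1
    exact Measure.restrict_congr_set Ico_ae_eq_Ioc
  rw [h1, ← intervalIntegral.integral_of_le zero_le_one]
  have h2 := hf.intervalIntegral_add_eq 0 (-(1 / 2))
  rw [zero_add, show (-(1 / 2) : ℝ) + 1 = 1 / 2 by norm_num] at h2
  exact h2

lemma fI_periodic {m : ℝ → ℂ} (hm : Function.Periodic m 1) (t : ℝ) (k : ℤ) :
    Function.Periodic (fI m t k) 1 := by
  intro θ
  unfold fI
  rw [hm θ, mul_add, mul_one, ee_add, ee_int, mul_one, mul_add, mul_one, Real.sin_add_pi, neg_sq]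

lemma exp_sl (t : ℝ) (u : Fin d → ℝ) : ((Real.exp (-(t * sl u)) : ℝ) : ℂ) =
    ∏ i, ((Real.exp (-(4 * t * Real.sin (Real.pi * u i) ^ 2)) : ℝ) : ℂ) := by
  rw [← Complex.ofReal_prod, ← Real.exp_sum]
  congr 2
  unfold sl
  rw [Finset.mul_sum, ← Finset.sum_neg_distrib]
  exact Finset.sum_congr rfl fun i _ => by ring

lemma int_prod (a b : Fin d) (z : Fin d → ℤ) (t : ℝ) :
    ∫ u, Nm a b z u * ((Real.exp (-(t * sl u)) : ℝ) : ℂ) ∂(Measure.pi fun _ : Fin d => nu1) =
      ∏ i, II (mm a b i) t (z i) := by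
  have h1 : ∀ u : Fin d → ℝ, Nm a b z u * ((Real.exp (-(t * sl u)) : ℝ) : ℂ) =
      ∏ i, fI (mm a b i) t (z i) (u i) := by
    intro u
    rw [exp_sl]
    unfold Nm fI
    rw [← Finset.prod_mul_distrib]
  simp only [h1]
  rw [integral_fintype_prod_eq_prod (fun i => fI (mm a b i) t (z i))]
  refine Finset.prod_congr rfl fun i _ => ?_
  rw [int_nu1 (fI_periodic (mm_sym a b i).periodic t (z i))]
  rfl

/-- the heat kernel representation -/
theorem Qz_eq (hd : 0 < d) (a b : Fin d) (z : Fin d → ℤ) :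
    Qz a b z = ∫ t in Set.Ioi (0 : ℝ), ∏ i, II (mm a b i) t (z i) := by
  have hc : Continuous (Function.uncurry fun (u : Fin d → ℝ) (t : ℝ) =>
      Nm a b z u * ((Real.exp (-(t * sl u)) : ℝ) : ℂ)) := by
    refine ((Nm_cont a b z).comp continuous_fst).mul ?_
    exact Complex.continuous_ofReal.comp (Real.continuous_exp.comp
      (continuous_snd.mul (sl_cont.comp continuous_fst)).neg)
  have hexp : ∀ c : ℝ, 0 < c → ∫ t in Set.Ioi (0 : ℝ), Real.exp (-(t * c)) = 1 / c := by
    intro c hc
    have h1 := integral_exp_mul_Ioi (a := -c) (by linarith) 0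
    rw [mul_zero, Real.exp_zero] at h1
    have h2 : ∀ t : ℝ, Real.exp (-(t * c)) = Real.exp (-c * t) := fun t => by ring_nf
    simp only [h2]
    rw [h1]
    field_simp
  have hexpi : ∀ c : ℝ, 0 < c → IntegrableOn (fun t => Real.exp (-(t * c))) (Set.Ioi (0 : ℝ)) := by
    intro c hc
    have h1 := integrableOn_exp_mul_Ioi (a := -c) (by linarith) 0
    have h2 : (fun t : ℝ => Real.exp (-(t * c))) = fun t => Real.exp (-c * t) := by
      funext t; ring_nf
    rw [h2]
    exact h1
  have hI : Integrable (Function.uncurry fun (u : Fin d → ℝ) (t : ℝ) =>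
      Nm a b z u * ((Real.exp (-(t * sl u)) : ℝ) : ℂ))
      ((Measure.pi fun _ : Fin d => nu1).prod (volume.restrict (Set.Ioi (0 : ℝ)))) := by
    rw [integrable_prod_iff hc.aestronglyMeasurable]
    constructor
    · filter_upwards [sl_pos_ae hd] with u hu
      have h1 : Integrable (fun t : ℝ => ((Real.exp (-(t * sl u)) : ℝ) : ℂ))
          (volume.restrict (Set.Ioi 0)) := (hexpi _ hu).ofReal
      exact h1.const_mul (Nm a b z u)
    · refine Integrable.mono' (integrable_const (1 : ℝ)) ?_ ?_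
      · exact (hc.norm.aestronglyMeasurable).integral_prod_right'
      · filter_upwards [sl_pos_ae hd] with u hu
        simp only [Function.uncurry_apply_pair, norm_mul, Complex.norm_real, Real.norm_eq_abs,
          Real.abs_exp]
        rw [integral_const_mul, hexp _ hu, abs_mul, abs_norm, abs_of_pos (by positivity),
          mul_one_div, div_le_one hu]
        exact Nm_norm_le a b z u
  have h1 := integral_integral_swap hI
  simp only [int_prod] at h1
  rw [← h1]
  unfold Qz
  refine integral_congr_ae ?_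
  filter_upwards [sl_pos_ae hd] with u hu
  rw [integral_const_mul, integral_complex_ofReal, hexp _ hu]
  push_cast
  rw [mul_one_div]

end

end Pool.Agent.U322.SF
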