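import Mathlib
import Pool.Agent.U322.SF.Green

/-!
# Schwinger functions of lattice Yang-Mills: scaling limit of the differences of the Green function
-/

open MeasureTheory Filter
open scoped Topology ContDiff
open Pool.Agent.TH618.YM (nu1)

namespace Pool.Agent.U322.SF

set_option linter.unusedSectionVars false
set_option linter.unusedVariables false

noncomputable section

variable {d : ℕ}

/-- the product of the scaled kernels -/
def SP (a b : Fin d) (z : Fin d → ℤ) (h τ : ℝ) : ℂ :=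
  ∏ i, (((h : ℂ) ^ (rr a b i + 1))⁻¹ * II (mm a b i) (τ / h ^ 2) (z i))

lemma SP_eq (a b : Fin d) (z : Fin d → ℤ) (h τ : ℝ) : SP a b z h τ =
    ((h : ℂ) ^ (d + 2))⁻¹ * ∏ i, II (mm a b i) (τ / h ^ 2) (z i) := by
  unfold SP
  rw [Finset.prod_mul_distrib, Finset.prod_inv_distrib, Finset.prod_pow_eq_pow_sum, sum_rr]

lemma Qz_scaled (hd : 0 < d) (a b : Fin d) (z : Fin d → ℤ) {h : ℝ} (hh : 0 < h) :
    ((h : ℂ) ^ d)⁻¹ * Qz a b z = ∫ τ in Set.Ioi (0 : ℝ), SP a b z h τ := by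
  have h0 : (h : ℂ) ≠ 0 := by exact_mod_cast hh.ne'
  have h1 := integral_comp_mul_left_Ioi (fun t => ∏ i, II (mm a b i) t (z i)) 0
    (show 0 < (h ^ 2)⁻¹ by positivity)
  rw [mul_zero, inv_inv] at h1
  simp only [SP_eq]
  rw [integral_const_mul, Qz_eq hd]
  have h2 : ∀ τ : ℝ, τ / h ^ 2 = (h ^ 2)⁻¹ * τ := fun τ => by rw [div_eq_inv_mul]
  simp only [h2]
  rw [h1, Complex.real_smul]
  push_cast
  rw [pow_add, mul_inv, mul_assoc, ← mul_assoc (((h : ℂ) ^ 2)⁻¹), inv_mul_cancel₀ (by positivity),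
    one_mul]

lemma II_cont {m : ℝ → ℂ} (hm : Continuous m) (k : ℤ) : Continuous fun t => II m t k := by
  unfold II
  refine intervalIntegral.continuous_parametric_intervalIntegral_of_continuous' ?_ _ _
  unfold fI
  refine ((ee_cont.comp (continuous_const.mul continuous_snd)).mul (hm.comp continuous_snd)).mul ?_
  exact Complex.continuous_ofReal.comp (Real.continuous_exp.comp
    (((continuous_const.mul continuous_fst).mul
    ((Real.continuous_sin.comp (continuous_const.mul continuous_snd)).pow 2)).neg))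

lemma SP_cont (a b : Fin d) (z : Fin d → ℤ) (h : ℝ) : Continuous (SP a b z h) := by
  unfold SP
  refine continuous_finsetProd _ fun i _ => continuous_const.mul ?_
  exact (II_cont (mm_sym a b i).smooth.continuous (z i)).comp (continuous_id.div_const _)

lemma rho_eq {h τ : ℝ} (hh : 0 < h) (hτ : 0 ≤ τ) :
    h * Real.sqrt (1 + τ / h ^ 2) = Real.sqrt (h ^ 2 + τ) := by
  have h1 : h ^ 2 + τ = h ^ 2 * (1 + τ / h ^ 2) := by field_simp
  rw [h1, Real.sqrt_mul (by positivity), Real.sqrt_sq hh.le]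

theorem SP_bound (a b i0 : Fin d) : ∃ A D : ℝ, 0 ≤ A ∧ 0 ≤ D ∧ ∀ h : ℝ, 0 < h → ∀ τ : ℝ, 0 ≤ τ →
    ∀ z : Fin d → ℤ, ‖SP a b z h τ‖ * Real.sqrt (h ^ 2 + τ) ^ (d + 2) ≤ A ∧
      |h * z i0| ^ (d + 2) * ‖SP a b z h τ‖ ≤ D := by
  choose C hC hCb using fun i => II_bound (mm_sym a b i)
  obtain ⟨D, hD, hDb⟩ := II_decay (d + 2) (mm_sym a b i0)
  refine ⟨∏ i, C i, D * ∏ i ∈ Finset.univ.erase i0, C i, Finset.prod_nonneg fun i _ => hC i,
    mul_nonneg hD (Finset.prod_nonneg fun i _ => hC i), fun h hh τ hτ z => ?_⟩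
  obtain ⟨ρ, hρ⟩ : ∃ ρ, ρ = Real.sqrt (h ^ 2 + τ) := ⟨_, rfl⟩
  have hρ0 : 0 < ρ := by rw [hρ]; exact Real.sqrt_pos.2 (by positivity)
  have hρ1 : h * Real.sqrt (1 + τ / h ^ 2) = ρ := by rw [hρ]; exact rho_eq hh hτ
  obtain ⟨T, hT⟩ : ∃ T : Fin d → ℝ, T = fun i =>
    ‖((h : ℂ) ^ (rr a b i + 1))⁻¹ * II (mm a b i) (τ / h ^ 2) (z i)‖ := ⟨_, rfl⟩
  have ht : 0 ≤ τ / h ^ 2 := by positivity
  have hTi : ∀ i, T i * ρ ^ (rr a b i + 1) =
      ‖II (mm a b i) (τ / h ^ 2) (z i)‖ * Real.sqrt (1 + τ / h ^ 2) ^ (rr a b i + 1) := by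
    intro i
    rw [hT]
    simp only
    rw [norm_mul, norm_inv, norm_pow, Complex.norm_real, Real.norm_eq_abs, abs_of_pos hh, ← hρ1,
      mul_pow]
    field_simp
  have hT0 : ∀ i, 0 ≤ T i := fun i => by rw [hT]; exact norm_nonneg _
  have h1 : ∀ i, T i * ρ ^ (rr a b i + 1) ≤ C i := fun i => by
    rw [hTi]; exact hCb i _ ht _
  have hS : ‖SP a b z h τ‖ = ∏ i, T i := by
    unfold SP
    rw [norm_prod, hT]
  have hprod : (∏ i, T i) * ρ ^ (d + 2) = ∏ i, T i * ρ ^ (rr a b i + 1) := by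
    rw [Finset.prod_mul_distrib, Finset.prod_pow_eq_pow_sum, sum_rr]
  rw [← hρ, hS]
  constructor
  · rw [hprod]
    exact Finset.prod_le_prod (fun i _ => mul_nonneg (hT0 i) (by positivity)) fun i _ => h1 i
  · have h2 : |h * (z i0 : ℝ)| ^ (d + 2) * (T i0 * ρ ^ (rr a b i0 + 1)) ≤ D * ρ ^ (d + 2) := by
      rw [hTi, abs_mul, abs_of_pos hh, mul_pow]
      have h3 := hDb (τ / h ^ 2) ht (z i0)
      calc h ^ (d + 2) * |(z i0 : ℝ)| ^ (d + 2) * (‖II (mm a b i0) (τ / h ^ 2) (z i0)‖ *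
          Real.sqrt (1 + τ / h ^ 2) ^ (rr a b i0 + 1)) =
          h ^ (d + 2) * (|(z i0 : ℝ)| ^ (d + 2) * ‖II (mm a b i0) (τ / h ^ 2) (z i0)‖ *
          Real.sqrt (1 + τ / h ^ 2) ^ (rr a b i0 + 1)) := by ring
        _ ≤ h ^ (d + 2) * (D * Real.sqrt (1 + τ / h ^ 2) ^ (d + 2)) :=
          mul_le_mul_of_nonneg_left h3 (by positivity)
        _ = D * (h * Real.sqrt (1 + τ / h ^ 2)) ^ (d + 2) := by rw [mul_pow]; ring
        _ = _ := by rw [hρ1]
    have h4 : |h * (z i0 : ℝ)| ^ (d + 2) * (∏ i, T i) * ρ ^ (d + 2) ≤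
        D * (∏ i ∈ Finset.univ.erase i0, C i) * ρ ^ (d + 2) := by
      rw [mul_assoc, hprod, ← Finset.mul_prod_erase Finset.univ _ (Finset.mem_univ i0), ← mul_assoc]
      calc _ ≤ D * ρ ^ (d + 2) * ∏ i ∈ Finset.univ.erase i0, C i := by
            refine mul_le_mul h2 ?_ ?_ (by positivity)
            · exact Finset.prod_le_prod (fun i _ => mul_nonneg (hT0 i) (by positivity))
                fun i _ => h1 i
            · exact Finset.prod_nonneg fun i _ => mul_nonneg (hT0 i) (by positivity)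
        _ = _ := by ring
    exact le_of_mul_le_mul_right h4 (by positivity)

/-- the integrand of the limit -/
def LI (a b : Fin d) (x : Fin d → ℝ) (τ : ℝ) : ℂ := ∏ i, (pp b i 0 * GG (rr a b i) τ (x i))

theorem Qz_lim0 (hd : 2 ≤ d) (a b : Fin d) {h : ℕ → ℝ} (hh : ∀ n, 0 < h n)
    (hl : Tendsto h atTop (𝓝 0)) {z : ℕ → Fin d → ℤ} {x : Fin d → ℝ}
    (hz : ∀ i, Tendsto (fun n => h n * (z n i : ℝ)) atTop (𝓝 (x i))) (hx : x ≠ 0) :
    Tendsto (fun n => ((h n : ℂ) ^ d)⁻¹ * Qz a b (z n)) atTop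
      (𝓝 (∫ τ in Set.Ioi (0 : ℝ), LI a b x τ)) := by
  obtain ⟨i0, hi0⟩ : ∃ i, x i ≠ 0 := by
    by_contra hcon
    push Not at hcon
    exact hx (funext hcon)
  obtain ⟨A, D, hA, hD, hb⟩ := SP_bound a b i0
  obtain ⟨c, hc⟩ : ∃ c, c = |x i0| / 2 := ⟨_, rfl⟩
  have hc0 : 0 < c := by rw [hc]; have := abs_pos.2 hi0; positivity
  simp only [Qz_scaled (by omega : 0 < d) a b _ (hh _)]
  refine tendsto_integral_filter_of_dominated_convergence
    (fun τ => 2 * (A + D / c ^ (d + 2)) * (1 + τ ^ 2)⁻¹) ?_ ?_ ?_ ?_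
  · exact Eventually.of_forall fun n => (SP_cont a b (z n) (h n)).aestronglyMeasurable
  · have h1 : ∀ᶠ n in atTop, c ≤ |h n * (z n i0 : ℝ)| := by
      have h2 := (hz i0).abs
      have h3 : c < |x i0| := by rw [hc]; have := abs_pos.2 hi0; linarith
      filter_upwards [h2.eventually (lt_mem_nhds h3)] with n hn using hn.le
    filter_upwards [h1] with n hn
    filter_upwards [ae_restrict_mem measurableSet_Ioi] with τ hτ
    have hτ0 : 0 < τ := hτ
    obtain ⟨h2, h3⟩ := hb (h n) (hh n) τ hτ0.le (z n)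
    have h4 : 0 ≤ ‖SP a b (z n) (h n) τ‖ := norm_nonneg _
    have h5 : ‖SP a b (z n) (h n) τ‖ ≤ D / c ^ (d + 2) := by
      rw [le_div_iff₀ (by positivity), mul_comm]
      refine le_trans ?_ h3
      exact mul_le_mul_of_nonneg_right (pow_le_pow_left₀ hc0.le hn _) h4
    rw [← div_eq_mul_inv, le_div_iff₀ (by positivity)]
    rcases le_total τ 1 with h6 | h6
    · have h7 : 1 + τ ^ 2 ≤ 2 := by nlinarith
      calc ‖SP a b (z n) (h n) τ‖ * (1 + τ ^ 2) ≤ (D / c ^ (d + 2)) * 2 :=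
            mul_le_mul h5 h7 (by positivity) (by positivity)
        _ ≤ 2 * (A + D / c ^ (d + 2)) := by linarith
    · have h7 : τ ^ 2 ≤ Real.sqrt (h n ^ 2 + τ) ^ (d + 2) := by
        have e1 : Real.sqrt τ ≤ Real.sqrt (h n ^ 2 + τ) :=
          Real.sqrt_le_sqrt (by have := sq_nonneg (h n); linarith)
        have e2 : 1 ≤ Real.sqrt τ := by rw [Real.one_le_sqrt]; exact h6
        calc τ ^ 2 = Real.sqrt τ ^ 4 := by
              rw [show (4 : ℕ) = 2 * 2 by norm_num, pow_mul, Real.sq_sqrt hτ0.le]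
          _ ≤ Real.sqrt τ ^ (d + 2) := pow_le_pow_right₀ e2 (by omega)
          _ ≤ _ := pow_le_pow_left₀ (Real.sqrt_nonneg _) e1 _
      have h8 : ‖SP a b (z n) (h n) τ‖ * τ ^ 2 ≤ A :=
        (mul_le_mul_of_nonneg_left h7 h4).trans h2
      have h9 : 1 ≤ τ ^ 2 := one_le_pow₀ h6
      have h10 : ‖SP a b (z n) (h n) τ‖ ≤ ‖SP a b (z n) (h n) τ‖ * τ ^ 2 :=
        le_mul_of_one_le_right h4 h9
      have h11 : 0 ≤ D / c ^ (d + 2) := by positivity
      nlinarith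
  · exact (integrable_inv_one_add_sq.const_mul _).integrableOn
  · filter_upwards [ae_restrict_mem measurableSet_Ioi] with τ hτ
    have hτ0 : 0 < τ := hτ
    unfold SP LI
    refine tendsto_finsetProd _ fun i _ => ?_
    exact II_lim (pp_smooth b i) (pp_periodic b i) (mm_eq a b i) hh hl (hz i) hτ0

end

end Pool.Agent.U322.SF
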