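import Mathlib
import Pool.Agent.U322.SF.Green2

/-!
# Schwinger functions of lattice Yang-Mills: second derivatives of the Green function
-/

open MeasureTheory Filter
open scoped Topology ContDiff

namespace Pool.Agent.U322.SF

set_option linter.unusedSectionVars false
set_option linter.unusedVariables false

noncomputable section

variable {d : ℕ}

lemma time_int {A s : ℝ} (hA : 0 < A) (hs : 0 < s) :
    ∫ τ in Set.Ioi (0 : ℝ), τ ^ (-1 - s) * Real.exp (-(A / τ)) = (1 / A) ^ s * Real.Gamma s := by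
  have h1 := integral_comp_rpow_Ioi (fun y : ℝ => y ^ (s - 1) * Real.exp (-(A * y)))
    (p := -1) (by norm_num)
  rw [Real.integral_rpow_mul_exp_neg_mul_Ioi hs hA] at h1
  rw [← h1]
  refine setIntegral_congr_fun measurableSet_Ioi fun τ hτ => ?_
  have hτ0 : 0 < τ := hτ
  simp only [smul_eq_mul, abs_neg, abs_one, one_mul]
  rw [Real.rpow_neg_one, Real.inv_rpow hτ0.le, ← Real.rpow_neg hτ0.le, ← mul_assoc,
    ← Real.rpow_add hτ0, div_eq_mul_inv]
  congr 2
  ring

lemma time_ion {A s : ℝ} (hA : 0 < A) (hs : 0 < s) :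
    IntegrableOn (fun τ : ℝ => τ ^ (-1 - s) * Real.exp (-(A / τ))) (Set.Ioi 0) := by
  refine Integrable.of_integral_ne_zero ?_
  rw [time_int hA hs]
  have := Real.Gamma_pos_of_pos hs
  positivity

/-- minus the second derivatives of the Green function of `-Δ` on `ℝ^d`, `R` being the norm -/
def green (a b : Fin d) (x : Fin d → ℝ) : ℝ :=
  Real.Gamma (d / 2) / (2 * Real.pi ^ ((d : ℝ) / 2)) *
    ((if a = b then 1 else 0) / Real.sqrt (∑ i, x i ^ 2) ^ d -
      d * x a * x b / Real.sqrt (∑ i, x i ^ 2) ^ (d + 2))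

lemma prod_pp (b : Fin d) : ∏ i, pp b i 0 = -1 := by
  unfold pp
  rw [Finset.prod_ite_eq' Finset.univ b, if_pos (Finset.mem_univ _), neg_zero, ee_zero]

lemma prod_g0 {τ : ℝ} (hτ : 0 < τ) (x : Fin d → ℝ) : ∏ i, g0 τ (x i) =
    Real.exp (-((∑ i, x i ^ 2) / 4 / τ)) * ((4 * Real.pi) ^ (-((d : ℝ) / 2)) *
      τ ^ (-((d : ℝ) / 2))) := by
  unfold g0
  rw [Finset.prod_div_distrib, ← Real.exp_sum, Finset.prod_const, Finset.card_univ,
    Fintype.card_fin, div_eq_mul_inv]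
  congr 1
  · congr 1
    rw [Finset.sum_div, Finset.sum_div, ← Finset.sum_neg_distrib]
    exact Finset.sum_congr rfl fun i _ => by rw [div_div]
  · have hpi := Real.pi_pos
    rw [← Real.mul_rpow (by positivity) hτ.le, Real.sqrt_eq_rpow, ← Real.rpow_natCast,
      ← Real.rpow_mul (by positivity), ← Real.rpow_neg (by positivity)]
    congr 1
    ring

lemma LI_eq {τ : ℝ} (hτ : 0 < τ) (a b : Fin d) (x : Fin d → ℝ) : LI a b x τ =
    (((if a = b then 1 else 0) / (2 * τ) - x a * x b / (4 * τ ^ 2)) * ∏ i, g0 τ (x i) : ℝ) := by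
  unfold LI
  rw [Finset.prod_mul_distrib, prod_pp]
  by_cases hab : a = b
  · subst hab
    have h1 : ∀ i, GG (rr a a i) τ (x i) =
        (((if i = a then (x i ^ 2 / (4 * τ ^ 2) - 1 / (2 * τ)) else 1) * g0 τ (x i) : ℝ) : ℂ) := by
      intro i
      by_cases hi : i = a
      · have e : rr a a i = 2 := by simp [rr, hi]
        rw [e, GG_two hτ, if_pos hi]
      · have e : rr a a i = 0 := by simp [rr, hi]
        rw [e, GG_zero hτ, if_neg hi, one_mul]
    rw [Finset.prod_congr rfl fun i _ => h1 i, ← Complex.ofReal_prod, Finset.prod_mul_distrib,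
      Finset.prod_ite_eq' Finset.univ a, if_pos (Finset.mem_univ _), if_pos rfl]
    push_cast
    ring
  · have h1 : ∀ i, GG (rr a b i) τ (x i) =
        (((if i = a then x i / (2 * τ) else 1) * (if i = b then x i / (2 * τ) else 1) *
          g0 τ (x i) : ℝ) : ℂ) := by
      intro i
      by_cases hi : i = a
      · have hib : ¬(i = b) := fun h => hab (hi.symm.trans h)
        have e : rr a b i = 1 := by simp [rr, hi, hab]
        rw [e, GG_one hτ, if_pos hi, if_neg hib, mul_one]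
      · by_cases hib : i = b
        · have e : rr a b i = 1 := by simp [rr, hib, Ne.symm hab]
          rw [e, GG_one hτ, if_neg hi, if_pos hib, one_mul]
        · have e : rr a b i = 0 := by simp [rr, hi, hib]
          rw [e, GG_zero hτ, if_neg hi, if_neg hib, one_mul, one_mul]
    rw [Finset.prod_congr rfl fun i _ => h1 i, ← Complex.ofReal_prod, Finset.prod_mul_distrib,
      Finset.prod_mul_distrib, Finset.prod_ite_eq' Finset.univ a,
      Finset.prod_ite_eq' Finset.univ b, if_pos (Finset.mem_univ _), if_pos (Finset.mem_univ _),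
      if_neg hab]
    push_cast
    ring

lemma int_LI (hd : 0 < d) (a b : Fin d) {x : Fin d → ℝ} (hx : x ≠ 0) :
    ∫ τ in Set.Ioi (0 : ℝ), LI a b x τ = (green a b x : ℂ) := by
  obtain ⟨δ, hδ⟩ : ∃ δ : ℝ, δ = if a = b then 1 else 0 := ⟨_, rfl⟩
  obtain ⟨R2, hR2⟩ : ∃ R2, R2 = ∑ i, x i ^ 2 := ⟨_, rfl⟩
  have hR : 0 < R2 := by
    rw [hR2]
    obtain ⟨i0, hi0⟩ : ∃ i, x i ≠ 0 := by
      by_contra hcon
      push Not at hcon
      exact hx (funext hcon)
    exact Finset.sum_pos' (fun i _ => sq_nonneg _) ⟨i0, Finset.mem_univ _, by positivity⟩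
  have hd0 : (0 : ℝ) < d := by exact_mod_cast hd
  have hd2 : 0 < (d : ℝ) / 2 := by positivity
  have hd21 : 0 < (d : ℝ) / 2 + 1 := by positivity
  have hpi := Real.pi_pos
  have hA : 0 < R2 / 4 := by positivity
  have h1 : ∀ τ ∈ Set.Ioi (0 : ℝ), LI a b x τ = (((4 * Real.pi) ^ (-((d : ℝ) / 2)) *
      (δ / 2 * (τ ^ (-1 - (d : ℝ) / 2) * Real.exp (-(R2 / 4 / τ))) -
        x a * x b / 4 * (τ ^ (-1 - ((d : ℝ) / 2 + 1)) * Real.exp (-(R2 / 4 / τ)))) : ℝ) : ℂ) := by
    intro τ hτ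
    have hτ0 : 0 < τ := hτ
    rw [LI_eq hτ0, prod_g0 hτ0, ← hR2, ← hδ]
    congr 1
    have e1 : τ ^ (-1 - (d : ℝ) / 2) = τ⁻¹ * τ ^ (-((d : ℝ) / 2)) := by
      rw [← Real.rpow_neg_one, ← Real.rpow_add hτ0]
      congr 1
    have e2 : τ ^ (-1 - ((d : ℝ) / 2 + 1)) = (τ ^ 2)⁻¹ * τ ^ (-((d : ℝ) / 2)) := by
      rw [← Real.rpow_natCast, ← Real.rpow_neg hτ0.le, ← Real.rpow_add hτ0]
      congr 1
      push_cast
      ring
    rw [e1, e2]
    field_simp
  rw [setIntegral_congr_fun measurableSet_Ioi h1, integral_complex_ofReal, integral_const_mul,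
    integral_sub ((time_ion hA hd2).const_mul _) ((time_ion hA hd21).const_mul _),
    integral_const_mul, integral_const_mul, time_int hA hd2, time_int hA hd21]
  congr 1
  unfold green
  rw [← hR2, ← hδ, Real.Gamma_add_one hd2.ne']
  have hs0 : 0 < Real.sqrt R2 := Real.sqrt_pos.2 hR
  have e3 : Real.sqrt R2 ^ d = R2 ^ ((d : ℝ) / 2) := by
    rw [Real.sqrt_eq_rpow, ← Real.rpow_natCast, ← Real.rpow_mul hR.le]
    congr 1
    ring
  have e4 : Real.sqrt R2 ^ (d + 2) = R2 ^ ((d : ℝ) / 2) * R2 := by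
    rw [pow_add, e3, Real.sq_sqrt hR.le]
  have e5 : (1 / (R2 / 4)) ^ ((d : ℝ) / 2) = 4 ^ ((d : ℝ) / 2) / R2 ^ ((d : ℝ) / 2) := by
    rw [one_div_div, Real.div_rpow (by norm_num) hR.le]
  have e6 : (1 / (R2 / 4)) ^ ((d : ℝ) / 2 + 1) =
      4 ^ ((d : ℝ) / 2) / R2 ^ ((d : ℝ) / 2) * (4 / R2) := by
    rw [Real.rpow_add (by positivity), Real.rpow_one, e5, one_div_div]
  have e7 : (4 * Real.pi) ^ (-((d : ℝ) / 2)) = (4 ^ ((d : ℝ) / 2) * Real.pi ^ ((d : ℝ) / 2))⁻¹ := by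
    rw [Real.rpow_neg (by positivity), Real.mul_rpow (by norm_num) hpi.le]
  rw [e3, e4, e5, e6, e7]
  have p1 : 0 < R2 ^ ((d : ℝ) / 2) := by positivity
  have p2 : (0 : ℝ) < 4 ^ ((d : ℝ) / 2) := by positivity
  have p3 : 0 < Real.pi ^ ((d : ℝ) / 2) := by positivity
  field_simp

/-- the scaling limit of the differences of the Green function -/
theorem Qz_lim (hd : 2 ≤ d) (a b : Fin d) {h : ℕ → ℝ} (hh : ∀ n, 0 < h n)
    (hl : Tendsto h atTop (𝓝 0)) {z : ℕ → Fin d → ℤ} {x : Fin d → ℝ}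
    (hz : ∀ i, Tendsto (fun n => h n * (z n i : ℝ)) atTop (𝓝 (x i))) (hx : x ≠ 0) :
    Tendsto (fun n => ((h n : ℂ) ^ d)⁻¹ * Qz a b (z n)) atTop (𝓝 (green a b x : ℂ)) := by
  rw [← int_LI (by omega) a b hx]
  exact Qz_lim0 hd a b hh hl hz hx

end

end Pool.Agent.U322.SF
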