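import Mathlib
import Pool.Agent.U322.SF.Green3

/-!
# Schwinger functions of lattice Yang-Mills: the covariance of two plaquettes on the torus
-/

open MeasureTheory Filter
open scoped Topology
open Pool.Agent.H906R3.YM hiding Pl
open Pool.Agent.W793.YM Pool.Agent.TH618.YM

namespace Pool.Agent.U322.SF

set_option linter.unusedSectionVars false
set_option linter.unusedVariables false

noncomputable section

variable {d l n : ℕ} [NeZero l]

/-- the truncated Green function as a function of the symbol of the walk -/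
def GK (d K : ℕ) (t : ℝ) : ℝ := ∑ k ∈ Finset.range K, 1 / (4 * (d : ℝ)) * (t ^ k - t ^ (K + k))

lemma energy_fh (hd : 0 < d) (K : ℕ) (J : St d l → ℝ) :
    ip2 J (uK K J) - ip2 (Plk K J) (uK K J) =
      (1 / (l : ℝ) ^ d) * ∑ ξ : St d l, GK d K (lm ξ) * ‖fh J ξ‖ ^ 2 := by
  have h1 : ip2 (Plk K J) (uK K J) =
      ∑ k ∈ Finset.range K, (1 / (4 * d) : ℝ) * ip2 J (Plk (K + k) J) := by
    unfold uK
    rw [ip2_smul_right, ip2_sum_right, Finset.mul_sum]
    refine Finset.sum_congr rfl fun k _ => ?_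
    rw [← Plk_symm hd, Plk_Plk]
  rw [ip2_uK hd, h1, ← Finset.sum_sub_distrib]
  simp only [ip2_Plk_self hd]
  unfold GK
  rw [Finset.mul_sum]
  simp only [Finset.mul_sum, Finset.sum_mul]
  rw [Finset.sum_comm]
  refine Finset.sum_congr rfl fun ξ _ => ?_
  rw [← Finset.sum_sub_distrib]
  refine Finset.sum_congr rfl fun k _ => ?_
  ring

lemma TL_self (hd : 0 < d) (K : ℕ) {g : Fm d l} (hg : Asy g) : ipF (TL K g) (TL K g) =
    (1 / (l : ℝ) ^ d) * ∑ ξ : St d l, GK d K (lm ξ) * ∑ c, ‖fh (ds2 g c) ξ‖ ^ 2 := by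
  have h1 : ipF (TL K g) (TL K g) = ∑ k, (ip2 (ds2 g k) (uK K (ds2 g k)) -
      ip2 (Plk K (ds2 g k)) (uK K (ds2 g k))) := energy K hg
  rw [h1, Finset.sum_congr rfl fun k _ => energy_fh hd K (ds2 g k), ← Finset.mul_sum,
    Finset.sum_comm]
  simp only [Finset.mul_sum]

lemma fh_add (f g : St d l → ℝ) (ξ : St d l) : fh (f + g) ξ = fh f ξ + fh g ξ := by
  unfold fh
  rw [← Finset.sum_add_distrib]
  refine Finset.sum_congr rfl fun x _ => ?_
  rw [Pi.add_apply]; push_cast; ring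

lemma fh_zero (ξ : St d l) : fh (0 : St d l → ℝ) ξ = 0 := by
  unfold fh; simp

lemma ds2_add (f g : Fm d l) (c : Fin d) : ds2 (f + g) c = ds2 f c + ds2 g c := by
  unfold ds2
  rw [← Finset.sum_add_distrib]
  exact Finset.sum_congr rfl fun j _ => by rw [Pi.add_apply, Pi.add_apply, Dm_add]

lemma asy_add {f g : Fm d l} (hf : Asy f) (hg : Asy g) : Asy (f + g) := fun j k => by
  rw [Pi.add_apply, Pi.add_apply, Pi.add_apply, Pi.add_apply, hf j k, hg j k, neg_add]

lemma normSq_add' (x y : ℂ) : ‖x + y‖ ^ 2 = ‖x‖ ^ 2 + ‖y‖ ^ 2 + 2 * (x * (starRingEnd ℂ) y).re := by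
  rw [← Complex.normSq_eq_norm_sq, ← Complex.normSq_eq_norm_sq, ← Complex.normSq_eq_norm_sq,
    Complex.normSq_add]

/-- the covariance of two forms -/
theorem TL_cov (hd : 0 < d) (K : ℕ) {g g' : Fm d l} (hg : Asy g) (hg' : Asy g') :
    ipF (TL K g) (TL K g') = (1 / (l : ℝ) ^ d) * ∑ ξ : St d l, GK d K (lm ξ) *
      (∑ c, fh (ds2 g c) ξ * (starRingEnd ℂ) (fh (ds2 g' c) ξ)).re := by
  have h1 := TL_self hd K hg
  have h2 := TL_self hd K hg'
  have h3 := TL_self hd K (asy_add hg hg')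
  have h4 : ipF (TL K (g + g')) (TL K (g + g')) = ipF (TL K g) (TL K g) +
      ipF (TL K g') (TL K g') + 2 * ipF (TL K g) (TL K g') := by
    rw [map_add, ipF_add_left, ipF_comm _ (TL K g + TL K g'), ipF_comm _ (TL K g + TL K g'),
      ipF_add_left, ipF_add_left, ipF_comm (TL K g') (TL K g)]
    ring
  have h5 : ∀ ξ : St d l, ∑ c, ‖fh (ds2 (g + g') c) ξ‖ ^ 2 = ∑ c, ‖fh (ds2 g c) ξ‖ ^ 2 +
      ∑ c, ‖fh (ds2 g' c) ξ‖ ^ 2 +
        2 * (∑ c, fh (ds2 g c) ξ * (starRingEnd ℂ) (fh (ds2 g' c) ξ)).re := by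
    intro ξ
    rw [Complex.re_sum, Finset.mul_sum, ← Finset.sum_add_distrib, ← Finset.sum_add_distrib]
    refine Finset.sum_congr rfl fun c _ => ?_
    rw [ds2_add, fh_add, normSq_add']
  simp only [h5, mul_add, Finset.sum_add_distrib] at h3
  have h6 : ∀ ξ : St d l, GK d K (lm ξ) * (2 * (∑ c, fh (ds2 g c) ξ *
      (starRingEnd ℂ) (fh (ds2 g' c) ξ)).re) = 2 * (GK d K (lm ξ) * (∑ c, fh (ds2 g c) ξ *
      (starRingEnd ℂ) (fh (ds2 g' c) ξ)).re) := fun ξ => by ring
  simp only [h6, ← Finset.mul_sum] at h3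
  rw [h4, h1, h2] at h3
  linarith

/-- the form of a plaquette -/
def pl2 (x : St d l) (i j : Fin d) : Fm d l := rc2 x i j 1 1

lemma pl2_asy (x : St d l) (i j : Fin d) : Asy (pl2 x i j) := rc2_asy x i j 1 1

/-- the Fourier transform of the current -/
def cur (ξ : St d l) (i j c : Fin d) : ℂ :=
  (if c = j then chi (ξ i) - 1 else 0) - (if c = i then chi (ξ j) - 1 else 0)

lemma dk_one (t : ZMod l) : dk 1 t = 1 := by
  unfold dk
  rw [Finset.sum_range_one, Nat.cast_zero, mul_zero]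
  exact AddChar.map_zero_eq_one _

lemma fh_Dm (x : St d l) (i j : Fin d) (ξ : St d l) :
    fh (Dm i (rcI x i j 1 1)) ξ = ch ξ x * (chi (ξ i) - 1) := by
  rw [Dm_rcI, fh_sub, fh_sgI, fh_sgI, dk_one, ch_add, ch_smul_eT, Nat.cast_one, mul_one]
  ring

lemma fh_neg (f : St d l → ℝ) (ξ : St d l) : fh (-f) ξ = -fh f ξ := by
  have := fh_sub 0 f ξ
  rwa [fh_zero, zero_sub, zero_sub] at this

lemma fh_pl2 (x : St d l) {i j : Fin d} (hij : i ≠ j) (c : Fin d) (ξ : St d l) :
    fh (ds2 (pl2 x i j) c) ξ = ch ξ x * cur ξ i j c := by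
  unfold pl2 cur
  rw [ds2_rc2 hij, fh_add]
  have h1 : fh (if c = j then Dm i (rcI x i j 1 1) else 0) ξ =
      ch ξ x * (if c = j then chi (ξ i) - 1 else 0) := by
    split_ifs
    · exact fh_Dm x i j ξ
    · rw [fh_zero, mul_zero]
  have h2 : fh (if c = i then Dm j (-rcI x i j 1 1) else 0) ξ =
      -(ch ξ x * (if c = i then chi (ξ j) - 1 else 0)) := by
    split_ifs
    · rw [Dm_neg, fh_neg, rcI_swap, fh_Dm]
    · rw [fh_zero, mul_zero, neg_zero]
  rw [h1, h2]
  ring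

/-- the product of the two currents -/
lemma sum_cur (ξ : St d l) (i j i' j' : Fin d) :
    ∑ c, cur ξ i j c * (starRingEnd ℂ) (cur ξ i' j' c) =
      (if j = j' then (1 - chi (ξ i)) * (1 - (starRingEnd ℂ) (chi (ξ i'))) else 0) -
      (if j = i' then (1 - chi (ξ i)) * (1 - (starRingEnd ℂ) (chi (ξ j'))) else 0) -
      (if i = j' then (1 - chi (ξ j)) * (1 - (starRingEnd ℂ) (chi (ξ i'))) else 0) +
      (if i = i' then (1 - chi (ξ j)) * (1 - (starRingEnd ℂ) (chi (ξ j'))) else 0) := by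
  have h0 : ∀ (p q : Fin d) (A B : ℂ), ∑ c, (if c = p then A else 0) * (if c = q then B else 0) =
      if p = q then A * B else 0 := by
    intro p q A B
    rw [Finset.sum_eq_single p (fun c _ hc => by rw [if_neg hc, zero_mul])
      (fun h => absurd (Finset.mem_univ _) h), if_pos rfl]
    split_ifs
    · rfl
    · rw [mul_zero]
  have h1 : ∀ c, cur ξ i j c * (starRingEnd ℂ) (cur ξ i' j' c) =
      (if c = j then chi (ξ i) - 1 else 0) *
        (if c = j' then (starRingEnd ℂ) (chi (ξ i')) - 1 else 0) -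
      (if c = j then chi (ξ i) - 1 else 0) *
        (if c = i' then (starRingEnd ℂ) (chi (ξ j')) - 1 else 0) -
      (if c = i then chi (ξ j) - 1 else 0) *
        (if c = j' then (starRingEnd ℂ) (chi (ξ i')) - 1 else 0) +
      (if c = i then chi (ξ j) - 1 else 0) *
        (if c = i' then (starRingEnd ℂ) (chi (ξ j')) - 1 else 0) := by
    intro c
    unfold cur
    rw [map_sub, apply_ite (starRingEnd ℂ), apply_ite (starRingEnd ℂ), map_sub, map_sub, map_one,
      map_zero]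
    ring
  rw [Finset.sum_congr rfl fun c _ => h1 c, Finset.sum_add_distrib, Finset.sum_sub_distrib,
    Finset.sum_sub_distrib, h0, h0, h0, h0]
  have e : ∀ A B : ℂ, (A - 1) * (B - 1) = (1 - A) * (1 - B) := fun A B => by ring
  simp only [e]

end

end Pool.Agent.U322.SF
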