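import Mathlib
import Pool.Agent.U322.SF.Var

/-!
# Schwinger functions of lattice Yang-Mills: the covariance in the infinite volume
-/

open MeasureTheory Filter
open scoped Topology
open Pool.Agent.H906R3.YM hiding Pl
open Pool.Agent.W793.YM Pool.Agent.TH618.YM

namespace Pool.Agent.U322.SF

set_option linter.unusedSectionVars false
set_option linter.unusedVariables false

noncomputable section

section torus

variable {d l n : ℕ} [NeZero l]

/-- the frequencies -/
def fq (ξ : St d l) : Fin d → ℝ := fun i => ((ξ i).val : ℝ) / l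

lemma chi_mul_int (t : ZMod l) (z : ℤ) :
    chi (t * (z : ZMod l)) = ee (z * ((t.val : ℝ) / l)) := by
  have h1 : t * (z : ZMod l) = (((t.val : ℤ) * z : ℤ) : ZMod l) := by
    push_cast; rw [ZMod.natCast_zmod_val]
  unfold chi ee
  rw [h1, ZMod.stdAddChar_coe]
  congr 1
  push_cast
  ring

lemma chi_ee (t : ZMod l) : chi t = ee ((t.val : ℝ) / l) := by
  have := chi_mul_int t 1
  rwa [Int.cast_one, mul_one, Int.cast_one, one_mul] at this

lemma conj_ee (θ : ℝ) : (starRingEnd ℂ) (ee θ) = ee (-θ) := by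
  unfold ee
  rw [← Complex.exp_conj, map_mul, Complex.conj_ofReal, Complex.conj_I]
  congr 1
  push_cast
  ring

lemma ch_zt (ξ : St d l) (z : Fin d → ℤ) : ch ξ (zt l z) = ∏ i, ee (z i * fq ξ i) := by
  unfold ch zt fq
  exact Finset.prod_congr rfl fun i _ => chi_mul_int _ _

lemma zt_sub' (z z' : Fin d → ℤ) : zt l z - zt l z' = zt l (z - z') := by
  funext i
  unfold zt
  simp

lemma lm_eq (hd : 0 < d) (ξ : St d l) : lm ξ = 1 - sl (fq ξ) / (4 * d) := by
  have hd0 : (d : ℝ) ≠ 0 := by exact_mod_cast hd.ne'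
  unfold lm sl
  have h1 : ∀ i, (chi (ξ i)).re = 1 - 2 * Real.sin (Real.pi * fq ξ i) ^ 2 := by
    intro i
    rw [chi_re]
    have e : 2 * Real.pi * ((ξ i).val : ℝ) / l = 2 * (Real.pi * fq ξ i) := by
      unfold fq; ring
    rw [e, Real.cos_two_mul, Real.cos_sq']
    ring
  simp only [h1]
  rw [Finset.sum_sub_distrib, ← Finset.mul_sum, ← Finset.mul_sum]
  simp only [Finset.sum_const, Finset.card_univ, Fintype.card_fin, nsmul_eq_mul, mul_one]
  field_simp
  ring

end torus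

variable {d : ℕ}

lemma Nm_eq (a b : Fin d) (z : Fin d → ℤ) (u : Fin d → ℝ) : Nm a b z u =
    (∏ i, ee (z i * u i)) * ((1 - ee (u a)) * (1 - ee (-u b))) := by
  unfold Nm mm
  rw [Finset.prod_mul_distrib, Finset.prod_mul_distrib, Finset.prod_ite_eq' Finset.univ a,
    Finset.prod_ite_eq' Finset.univ b, if_pos (Finset.mem_univ _), if_pos (Finset.mem_univ _)]

/-- the numerator of two plaquettes -/
def Np (i j i' j' : Fin d) (z : Fin d → ℤ) (u : Fin d → ℝ) : ℂ :=
  (if j = j' then Nm i i' z u else 0) - (if j = i' then Nm i j' z u else 0) -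
    (if i = j' then Nm j i' z u else 0) + (if i = i' then Nm j j' z u else 0)

/-- the integrand of the covariance of two plaquettes -/
def Ph (K : ℕ) (i j i' j' : Fin d) (z : Fin d → ℤ) (u : Fin d → ℝ) : ℝ :=
  GK d K (1 - sl u / (4 * d)) * (Np i j i' j' z u).re

theorem cov_rs {l : ℕ} [NeZero l] (hd : 0 < d) (K : ℕ) (z z' : Fin d → ℤ) {i j i' j' : Fin d}
    (hij : i ≠ j) (hij' : i' ≠ j') :
    ipF (TL K (pl2 (zt l z) i j)) (TL K (pl2 (zt l z') i' j')) =
      TH618.YM.rs l (Ph K i j i' j' (z - z')) := by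
  rw [TL_cov hd K (pl2_asy _ _ _) (pl2_asy _ _ _)]
  unfold TH618.YM.rs
  congr 1
  have h1 := Equiv.sum_comp (Equiv.piCongrRight fun _ : Fin d => zf l)
    (fun ξ : Fin d → Fin l => Ph K i j i' j' (z - z') fun i => ((ξ i : ℕ) : ℝ) / l)
  rw [← h1]
  refine Finset.sum_congr rfl fun ξ _ => ?_
  have h2 : (fun k => (((Equiv.piCongrRight fun _ : Fin d => zf l) ξ k : Fin l) : ℕ) / (l : ℝ)) =
      fq ξ := rfl
  rw [h2]
  unfold Ph
  rw [lm_eq hd]
  congr 2
  have h3 : ∀ c, fh (ds2 (pl2 (zt l z) i j) c) ξ *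
      (starRingEnd ℂ) (fh (ds2 (pl2 (zt l z') i' j') c) ξ) =
      ch ξ (zt l z - zt l z') * (cur ξ i j c * (starRingEnd ℂ) (cur ξ i' j' c)) := by
    intro c
    rw [fh_pl2 _ hij, fh_pl2 _ hij', ch_sub, map_mul]
    ring
  rw [Finset.sum_congr rfl fun c _ => h3 c, ← Finset.mul_sum, sum_cur, zt_sub', ch_zt]
  have e1 : ∀ t : Fin d, chi (ξ t) = ee (fq ξ t) := fun t => chi_ee _
  simp only [e1, conj_ee]
  unfold Np
  simp only [Nm_eq]
  rw [mul_add, mul_sub, mul_sub]
  simp only [mul_ite, mul_zero]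

/-! ### the integrals -/

lemma pi_nu1 : (Measure.pi fun _ : Fin d => nu1) =
    volume.restrict (Set.pi Set.univ (fun _ : Fin d => Set.Icc (0 : ℝ) 1)) := by
  unfold nu1
  rw [← Measure.restrict_pi_pi]
  refine Measure.restrict_congr_set ?_
  have h2 := Measure.univ_pi_Ico_ae_eq_Icc (μ := fun _ : Fin d => (volume : Measure ℝ))
    (f := fun _ => 0) (g := fun _ => 1)
  have h3 : Set.Icc (fun _ : Fin d => (0 : ℝ)) (fun _ => 1) =
      Set.pi Set.univ (fun _ : Fin d => Set.Icc (0 : ℝ) 1) := (Set.pi_univ_Icc _ _).symm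
  rw [h3] at h2
  exact h2

lemma sl_le (u : Fin d → ℝ) : sl u ≤ 4 * d := by
  unfold sl
  calc ∑ i, 4 * Real.sin (Real.pi * u i) ^ 2 ≤ ∑ _i : Fin d, (4 : ℝ) := by
        refine Finset.sum_le_sum fun i _ => ?_
        have := Real.sin_sq_le_one (Real.pi * u i)
        linarith
    _ = _ := by simp; ring

lemma mu_mem (hd : 0 < d) (u : Fin d → ℝ) :
    0 ≤ 1 - sl u / (4 * d) ∧ 1 - sl u / (4 * d) ≤ 1 := by
  have hd0 : (0 : ℝ) < d := by exact_mod_cast hd
  constructor
  · rw [sub_nonneg, div_le_one (by positivity)]; exact sl_le u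
  · have := sl_nonneg u
    have : 0 ≤ sl u / (4 * d) := by positivity
    linarith

lemma GK_cont (K : ℕ) : Continuous (GK d K) := by
  unfold GK
  exact continuous_finsetSum _ fun k _ => continuous_const.mul
    ((continuous_pow k).sub (continuous_pow (K + k)))

lemma GK_mul (hd : 0 < d) (K : ℕ) (t : ℝ) : GK d K t * (4 * d * (1 - t)) = (1 - t ^ K) ^ 2 := by
  have hd0 : (d : ℝ) ≠ 0 := by exact_mod_cast hd.ne'
  have h1 : GK d K t = 1 / (4 * (d : ℝ)) * (1 - t ^ K) * ∑ k ∈ Finset.range K, t ^ k := by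
    unfold GK
    rw [Finset.mul_sum]
    refine Finset.sum_congr rfl fun k _ => ?_
    rw [pow_add]; ring
  have h2 : (∑ k ∈ Finset.range K, t ^ k) * (1 - t) = 1 - t ^ K := by
    have := geom_sum_mul_neg t K
    exact this
  rw [h1]
  have h3 : 1 / (4 * (d : ℝ)) * (1 - t ^ K) * (∑ k ∈ Finset.range K, t ^ k) * (4 * d * (1 - t)) =
      (1 - t ^ K) * ((∑ k ∈ Finset.range K, t ^ k) * (1 - t)) := by
    field_simp
  rw [h3, h2]
  ring

lemma GK_nonneg (hd : 0 < d) (K : ℕ) {t : ℝ} (h0 : 0 ≤ t) (h1 : t ≤ 1) : 0 ≤ GK d K t := by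
  unfold GK
  refine Finset.sum_nonneg fun k _ => mul_nonneg (by positivity) ?_
  rw [sub_nonneg]
  exact pow_le_pow_of_le_one h0 h1 (by omega)

/-- the truncated Green function times the symbol -/
lemma GK_sl (hd : 0 < d) (K : ℕ) (u : Fin d → ℝ) :
    GK d K (1 - sl u / (4 * d)) * sl u = (1 - (1 - sl u / (4 * d)) ^ K) ^ 2 := by
  have hd0 : (d : ℝ) ≠ 0 := by exact_mod_cast hd.ne'
  rw [← GK_mul hd]
  congr 1
  field_simp
  ring

lemma Np_norm_le (i j i' j' : Fin d) (z : Fin d → ℤ) (u : Fin d → ℝ) :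
    ‖Np i j i' j' z u‖ ≤ 4 * sl u := by
  have h0 : ∀ (p : Prop) [Decidable p] (a b : Fin d), ‖(if p then Nm a b z u else 0)‖ ≤ sl u := by
    intro p _ a b
    split_ifs
    · exact Nm_norm_le a b z u
    · rw [norm_zero]; exact sl_nonneg u
  unfold Np
  have h1 := h0 (j = j') i i'
  have h2 := h0 (j = i') i j'
  have h3 := h0 (i = j') j i'
  have h4 := h0 (i = i') j j'
  calc _ ≤ ‖(if j = j' then Nm i i' z u else 0)‖ + ‖(if j = i' then Nm i j' z u else 0)‖ +
        ‖(if i = j' then Nm j i' z u else 0)‖ + ‖(if i = i' then Nm j j' z u else 0)‖ := by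
        refine (norm_add_le _ _).trans (add_le_add_left ?_ _)
        refine (norm_sub_le _ _).trans (add_le_add_left ?_ _)
        exact norm_sub_le _ _
    _ ≤ _ := by linarith

lemma Np_cont (i j i' j' : Fin d) (z : Fin d → ℤ) : Continuous (Np i j i' j' z) := by
  have h0 : ∀ (p : Prop) [Decidable p] (a b : Fin d),
      Continuous fun u => (if p then Nm a b z u else 0) := by
    intro p _ a b
    split_ifs
    · exact Nm_cont a b z
    · exact continuous_const
  unfold Np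
  exact (((h0 _ _ _).sub (h0 _ _ _)).sub (h0 _ _ _)).add (h0 _ _ _)

lemma Ph_cont (K : ℕ) (i j i' j' : Fin d) (z : Fin d → ℤ) : Continuous (Ph K i j i' j' z) := by
  unfold Ph
  exact ((GK_cont K).comp (continuous_const.sub (sl_cont.div_const _))).mul
    (Complex.continuous_re.comp (Np_cont i j i' j' z))

lemma Ph_abs (hd : 0 < d) (K : ℕ) (i j i' j' : Fin d) (z : Fin d → ℤ) (u : Fin d → ℝ) :
    |Ph K i j i' j' z u| ≤ 4 := by
  obtain ⟨h0, h1⟩ := mu_mem hd u
  unfold Ph
  rw [abs_mul, abs_of_nonneg (GK_nonneg hd K h0 h1)]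
  have h2 : |(Np i j i' j' z u).re| ≤ 4 * sl u :=
    (Complex.abs_re_le_norm _).trans (Np_norm_le i j i' j' z u)
  calc GK d K (1 - sl u / (4 * d)) * |(Np i j i' j' z u).re| ≤
      GK d K (1 - sl u / (4 * d)) * (4 * sl u) :=
        mul_le_mul_of_nonneg_left h2 (GK_nonneg hd K h0 h1)
    _ = 4 * (GK d K (1 - sl u / (4 * d)) * sl u) := by ring
    _ = 4 * (1 - (1 - sl u / (4 * d)) ^ K) ^ 2 := by rw [GK_sl hd]
    _ ≤ 4 * 1 := by
      refine mul_le_mul_of_nonneg_left ?_ (by norm_num)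
      have h3 : (1 - sl u / (4 * d)) ^ K ≤ 1 := pow_le_one₀ h0 h1
      have h4 : 0 ≤ (1 - sl u / (4 * d)) ^ K := pow_nonneg h0 _
      exact pow_le_one₀ (by linarith) (by linarith)
    _ = 4 := by norm_num

/-- the covariance of two plaquettes in the infinite volume -/
def VI (K : ℕ) (i j i' j' : Fin d) (z : Fin d → ℤ) : ℝ :=
  ∫ u, Ph K i j i' j' z u ∂(Measure.pi fun _ : Fin d => nu1)

theorem cov_tendsto (hd : 0 < d) (K : ℕ) (z z' : Fin d → ℤ) {i j i' j' : Fin d}
    (hij : i ≠ j) (hij' : i' ≠ j') {s : ℕ → ℕ} (hs : Tendsto s atTop atTop) :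
    Tendsto (fun k => ipF (TL K (pl2 (zt (2 * (s k + 1)) z) i j))
      (TL K (pl2 (zt (2 * (s k + 1)) z') i' j'))) atTop (𝓝 (VI K i j i' j' (z - z'))) := by
  have h1 := rs_tendsto (Ph_cont K i j i' j' (z - z')).measurable (B := 4)
    (Ph_abs hd K i j i' j' (z - z')) (Eventually.of_forall fun u =>
      (Ph_cont K i j i' j' (z - z')).continuousAt)
  rw [← pi_nu1] at h1
  have h2 : Tendsto (fun k => 2 * (s k + 1)) atTop atTop := by
    refine tendsto_atTop_mono (fun k => ?_) hs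
    show s k ≤ 2 * (s k + 1)
    omega
  have h3 := h1.comp h2
  refine h3.congr fun k => ?_
  rw [Function.comp_apply, cov_rs hd K z z' hij hij']

lemma Ph_int (hd : 0 < d) (K : ℕ) (i j i' j' : Fin d) (z : Fin d → ℤ) :
    Integrable (Ph K i j i' j' z) (Measure.pi fun _ : Fin d => nu1) :=
  Integrable.mono' (integrable_const (4 : ℝ)) (Ph_cont K i j i' j' z).aestronglyMeasurable
    (Eventually.of_forall fun u => by rw [Real.norm_eq_abs]; exact Ph_abs hd K i j i' j' z u)

lemma VI_abs (hd : 0 < d) (K : ℕ) (i j i' j' : Fin d) (z : Fin d → ℤ) :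
    |VI K i j i' j' z| ≤ 4 := by
  unfold VI
  have h1 := norm_integral_le_of_norm_le_const (μ := Measure.pi fun _ : Fin d => nu1)
    (f := Ph K i j i' j' z) (C := 4) (Eventually.of_forall fun u => by
      rw [Real.norm_eq_abs]; exact Ph_abs hd K i j i' j' z u)
  rw [Real.norm_eq_abs] at h1
  simpa using h1

end

end Pool.Agent.U322.SF
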