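import Mathlib
import Pool.Agent.U322.SF.Var2

/-!
# Schwinger functions of lattice Yang-Mills: the scaling limit of the covariance
-/

open MeasureTheory Filter
open scoped Topology
open Pool.Agent.TH618.YM (nu1)

namespace Pool.Agent.U322.SF

set_option linter.unusedSectionVars false
set_option linter.unusedVariables false

noncomputable section

variable {d : ℕ}

/-- the covariance without truncation -/
def QI (i j i' j' : Fin d) (z : Fin d → ℤ) : ℂ :=
  (if j = j' then Qz i i' z else 0) - (if j = i' then Qz i j' z else 0) -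
    (if i = j' then Qz j i' z else 0) + (if i = i' then Qz j j' z else 0)

/-- the covariance of the free Maxwell field -/
def mx (i j i' j' : Fin d) (x : Fin d → ℝ) : ℝ :=
  (if j = j' then green i i' x else 0) - (if j = i' then green i j' x else 0) -
    (if i = j' then green j i' x else 0) + (if i = i' then green j j' x else 0)

lemma Nm_div_int (hd : 0 < d) (a b : Fin d) (z : Fin d → ℤ) :
    Integrable (fun u => Nm a b z u / (sl u : ℂ)) (Measure.pi fun _ : Fin d => nu1) := by
  refine Integrable.mono' (integrable_const (1 : ℝ)) ?_ ?_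
  · refine (Measurable.div (Nm_cont a b z).measurable ?_).aestronglyMeasurable
    exact (Complex.continuous_ofReal.comp sl_cont).measurable
  · filter_upwards [sl_pos_ae hd] with u hu
    rw [norm_div, Complex.norm_real, Real.norm_eq_abs, abs_of_pos hu, div_le_one hu]
    exact Nm_norm_le a b z u

lemma QI_eq (hd : 0 < d) (i j i' j' : Fin d) (z : Fin d → ℤ) : QI i j i' j' z =
    ∫ u, Np i j i' j' z u / (sl u : ℂ) ∂(Measure.pi fun _ : Fin d => nu1) := by
  have h0 : ∀ (p : Prop) [Decidable p] (a b : Fin d),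
      Integrable (fun u => (if p then Nm a b z u else 0) / (sl u : ℂ))
        (Measure.pi fun _ : Fin d => nu1) ∧
      ∫ u, (if p then Nm a b z u else 0) / (sl u : ℂ) ∂(Measure.pi fun _ : Fin d => nu1) =
        if p then Qz a b z else 0 := by
    intro p _ a b
    split_ifs
    · exact ⟨Nm_div_int hd a b z, rfl⟩
    · simp
  obtain ⟨i1, e1⟩ := h0 (j = j') i i'
  obtain ⟨i2, e2⟩ := h0 (j = i') i j'
  obtain ⟨i3, e3⟩ := h0 (i = j') j i'
  obtain ⟨i4, e4⟩ := h0 (i = i') j j'
  have i12 : Integrable (fun u => (if j = j' then Nm i i' z u else 0) / (sl u : ℂ) -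
      (if j = i' then Nm i j' z u else 0) / (sl u : ℂ)) (Measure.pi fun _ : Fin d => nu1) :=
    i1.sub i2
  have i123 : Integrable (fun u => (if j = j' then Nm i i' z u else 0) / (sl u : ℂ) -
      (if j = i' then Nm i j' z u else 0) / (sl u : ℂ) -
      (if i = j' then Nm j i' z u else 0) / (sl u : ℂ)) (Measure.pi fun _ : Fin d => nu1) :=
    i12.sub i3
  unfold QI Np
  simp only [add_div, sub_div]
  rw [integral_add i123 i4, integral_sub i12 i3, integral_sub i1 i2, e1, e2, e3, e4]

lemma int_mu (hd : 0 < d) : ∃ C : ℝ, 0 ≤ C ∧ ∀ K : ℕ, 1 ≤ K →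
    ∫ u, (1 - sl u / (4 * d)) ^ K ∂(Measure.pi fun _ : Fin d => nu1) ≤
      C / Real.sqrt K ^ d := by
  have hd0 : (0 : ℝ) < d := by exact_mod_cast hd
  obtain ⟨C, hC, hb⟩ := II_bound Sym.one
  refine ⟨(C * Real.sqrt (4 * d)) ^ d, by positivity, fun K hK => ?_⟩
  have hK0 : (0 : ℝ) < K := by exact_mod_cast hK
  obtain ⟨t, ht⟩ : ∃ t : ℝ, t = K / (4 * d) := ⟨_, rfl⟩
  have ht0 : 0 < t := by rw [ht]; positivity
  have h1 : ∀ u : Fin d → ℝ, (1 - sl u / (4 * d)) ^ K ≤ Real.exp (-(t * sl u)) := by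
    intro u
    obtain ⟨h0, -⟩ := mu_mem hd u
    have h2 := Real.add_one_le_exp (-(sl u / (4 * d)))
    calc (1 - sl u / (4 * d)) ^ K ≤ (Real.exp (-(sl u / (4 * d)))) ^ K :=
          pow_le_pow_left₀ h0 (by linarith) K
      _ = Real.exp (-(t * sl u)) := by
        rw [← Real.exp_nat_mul, ht]
        congr 1
        field_simp
  have hc : Continuous fun u : Fin d → ℝ => Real.exp (-(t * sl u)) :=
    Real.continuous_exp.comp (continuous_const.mul sl_cont).neg
  have hi : Integrable (fun u : Fin d → ℝ => Real.exp (-(t * sl u)))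
      (Measure.pi fun _ : Fin d => nu1) :=
    Integrable.mono' (integrable_const (1 : ℝ)) hc.aestronglyMeasurable
      (Eventually.of_forall fun u => by
        rw [Real.norm_eq_abs, Real.abs_exp, Real.exp_le_one_iff, neg_nonpos]
        exact mul_nonneg ht0.le (sl_nonneg u))
  have hi2 : Integrable (fun u : Fin d → ℝ => (1 - sl u / (4 * d)) ^ K)
      (Measure.pi fun _ : Fin d => nu1) :=
    Integrable.mono' hi
      ((continuous_const.sub (sl_cont.div_const _)).pow K).aestronglyMeasurable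
      (Eventually.of_forall fun u => by
        rw [Real.norm_eq_abs, abs_of_nonneg (pow_nonneg (mu_mem hd u).1 _)]
        exact h1 u)
  refine (integral_mono hi2 hi h1).trans ?_
  have h3 : ((∫ u, Real.exp (-(t * sl u)) ∂(Measure.pi fun _ : Fin d => nu1) : ℝ) : ℂ) =
      ∏ _i : Fin d, II (fun _ => 1) t 0 := by
    rw [← integral_complex_ofReal]
    simp only [exp_sl]
    rw [integral_fintype_prod_eq_prod (fun (_ : Fin d) (θ : ℝ) =>
      ((Real.exp (-(4 * t * Real.sin (Real.pi * θ) ^ 2)) : ℝ) : ℂ))]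
    refine Finset.prod_congr rfl fun i _ => ?_
    have h4 : ∀ θ : ℝ, ((Real.exp (-(4 * t * Real.sin (Real.pi * θ) ^ 2)) : ℝ) : ℂ) =
        fI (fun _ => 1) t 0 θ := by
      intro θ
      unfold fI
      rw [Int.cast_zero, zero_mul, ee_zero, one_mul, one_mul]
    simp only [h4]
    rw [int_nu1 (fI_periodic (fun _ => rfl) t 0)]
    rfl
  have h5 : ∫ u, Real.exp (-(t * sl u)) ∂(Measure.pi fun _ : Fin d => nu1) =
      ‖II (fun _ => 1) t 0‖ ^ d := by
    have h6 : 0 ≤ ∫ u, Real.exp (-(t * sl u)) ∂(Measure.pi fun _ : Fin d => nu1) :=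
      integral_nonneg fun u => (Real.exp_pos _).le
    have h7 := congrArg norm h3
    rw [Complex.norm_real, Real.norm_eq_abs, abs_of_nonneg h6, norm_prod, Finset.prod_const,
      Finset.card_univ, Fintype.card_fin] at h7
    exact h7
  rw [h5]
  have h6 := hb t ht0.le 0
  rw [zero_add, pow_one] at h6
  have h7 : Real.sqrt K ≤ Real.sqrt (4 * d) * Real.sqrt (1 + t) := by
    rw [← Real.sqrt_mul (by positivity)]
    refine Real.sqrt_le_sqrt ?_
    rw [ht]
    have : 4 * (d : ℝ) * (1 + K / (4 * d)) = 4 * d + K := by field_simp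
    rw [this]
    linarith
  have hsK : 0 < Real.sqrt K := Real.sqrt_pos.2 hK0
  have h8 : ‖II (fun _ => 1) t 0‖ ≤ C * Real.sqrt (4 * d) / Real.sqrt K := by
    rw [le_div_iff₀ hsK]
    calc ‖II (fun _ => 1) t 0‖ * Real.sqrt K ≤
        ‖II (fun _ => 1) t 0‖ * (Real.sqrt (4 * d) * Real.sqrt (1 + t)) :=
          mul_le_mul_of_nonneg_left h7 (norm_nonneg _)
      _ = (‖II (fun _ => 1) t 0‖ * Real.sqrt (1 + t)) * Real.sqrt (4 * d) := by ring
      _ ≤ C * Real.sqrt (4 * d) := mul_le_mul_of_nonneg_right h6 (Real.sqrt_nonneg _)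
  calc ‖II (fun _ => 1) t 0‖ ^ d ≤ (C * Real.sqrt (4 * d) / Real.sqrt K) ^ d :=
        pow_le_pow_left₀ (norm_nonneg _) h8 d
    _ = _ := by rw [div_pow]

/-- removing the truncation -/
theorem VI_QI (hd : 0 < d) : ∃ C : ℝ, 0 ≤ C ∧ ∀ K : ℕ, 1 ≤ K → ∀ (i j i' j' : Fin d)
    (z : Fin d → ℤ), |VI K i j i' j' z - (QI i j i' j' z).re| ≤ C / Real.sqrt K ^ d := by
  obtain ⟨C, hC, hb⟩ := int_mu hd
  refine ⟨8 * C, by positivity, fun K hK i j i' j' z => ?_⟩
  have hqi : Integrable (fun u => Np i j i' j' z u / (sl u : ℂ))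
      (Measure.pi fun _ : Fin d => nu1) := by
    refine Integrable.mono' (integrable_const (4 : ℝ)) ?_ ?_
    · refine (Measurable.div (Np_cont i j i' j' z).measurable ?_).aestronglyMeasurable
      exact (Complex.continuous_ofReal.comp sl_cont).measurable
    · filter_upwards [sl_pos_ae hd] with u hu
      rw [norm_div, Complex.norm_real, Real.norm_eq_abs, abs_of_pos hu, div_le_iff₀ hu]
      exact Np_norm_le i j i' j' z u
  have h1 : (QI i j i' j' z).re =
      ∫ u, (Np i j i' j' z u / (sl u : ℂ)).re ∂(Measure.pi fun _ : Fin d => nu1) := by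
    rw [QI_eq hd]
    exact (integral_re hqi).symm
  have hre : Integrable (fun u => (Np i j i' j' z u / (sl u : ℂ)).re)
      (Measure.pi fun _ : Fin d => nu1) := hqi.re
  unfold VI
  rw [h1, ← integral_sub (Ph_int hd K i j i' j' z) hre]
  refine (abs_integral_le_integral_abs).trans ?_
  have h2 : ∫ u, |Ph K i j i' j' z u - (Np i j i' j' z u / (sl u : ℂ)).re|
      ∂(Measure.pi fun _ : Fin d => nu1) ≤
      ∫ u, 8 * (1 - sl u / (4 * d)) ^ K ∂(Measure.pi fun _ : Fin d => nu1) := by
    refine integral_mono_of_nonneg (Eventually.of_forall fun u => abs_nonneg _) ?_ ?_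
    · refine Integrable.mono' (integrable_const (8 : ℝ)) ?_ (Eventually.of_forall fun u => ?_)
      · exact (continuous_const.mul
          ((continuous_const.sub (sl_cont.div_const _)).pow K)).aestronglyMeasurable
      · obtain ⟨h3, h4⟩ := mu_mem hd u
        rw [Real.norm_eq_abs, abs_of_nonneg (by positivity)]
        have := pow_le_one₀ h3 h4 (n := K)
        linarith
    · filter_upwards [sl_pos_ae hd] with u hu
      obtain ⟨h3, h4⟩ := mu_mem hd u
      obtain ⟨q, hq⟩ : ∃ q, q = (1 - sl u / (4 * d)) ^ K := ⟨_, rfl⟩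
      have hq0 : 0 ≤ q := by rw [hq]; exact pow_nonneg h3 _
      have hq1 : q ≤ 1 := by rw [hq]; exact pow_le_one₀ h3 h4
      have hg := GK_sl hd K u
      rw [← hq] at hg ⊢
      unfold Ph
      have e1 : (Np i j i' j' z u / (sl u : ℂ)).re = (Np i j i' j' z u).re / sl u :=
        Complex.div_ofReal_re _ _
      have e2 : GK d K (1 - sl u / (4 * d)) = (1 - q) ^ 2 / sl u := by
        rw [eq_div_iff hu.ne']; exact hg
      rw [e1, e2]
      have e3 : (1 - q) ^ 2 / sl u * (Np i j i' j' z u).re - (Np i j i' j' z u).re / sl u =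
          -(q * (2 - q)) * ((Np i j i' j' z u).re / sl u) := by ring
      rw [e3, abs_mul, abs_neg, abs_of_nonneg (mul_nonneg hq0 (by linarith)), abs_div,
        abs_of_pos hu]
      have e4 : |(Np i j i' j' z u).re| / sl u ≤ 4 := by
        rw [div_le_iff₀ hu]
        exact (Complex.abs_re_le_norm _).trans (Np_norm_le i j i' j' z u)
      calc q * (2 - q) * (|(Np i j i' j' z u).re| / sl u) ≤ q * (2 - q) * 4 :=
            mul_le_mul_of_nonneg_left e4 (mul_nonneg hq0 (by linarith))
        _ ≤ 8 * q := by nlinarith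
  refine h2.trans ?_
  rw [integral_const_mul, mul_div_assoc]
  exact mul_le_mul_of_nonneg_left (hb K hK) (by norm_num)

/-- the scaling limit of the covariance -/
theorem VI_lim (hd : 2 ≤ d) (i j i' j' : Fin d) {h : ℕ → ℝ} (hh : ∀ n, 0 < h n)
    (hl : Tendsto h atTop (𝓝 0)) {z : ℕ → Fin d → ℤ} {x : Fin d → ℝ}
    (hz : ∀ i, Tendsto (fun n => h n * (z n i : ℝ)) atTop (𝓝 (x i))) (hx : x ≠ 0)
    {K : ℕ → ℕ} (hK : ∀ᶠ n in atTop, 1 ≤ K n)
    (hK2 : Tendsto (fun n => (h n * Real.sqrt (K n))⁻¹) atTop (𝓝 0)) :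
    Tendsto (fun n => (h n ^ d)⁻¹ * VI (K n) i j i' j' (z n)) atTop (𝓝 (mx i j i' j' x)) := by
  obtain ⟨C, hC, hb⟩ := VI_QI (d := d) (by omega)
  have h0 : ∀ (p : Prop) [Decidable p] (a b : Fin d),
      Tendsto (fun n => (if p then ((h n : ℂ) ^ d)⁻¹ * Qz a b (z n) else 0)) atTop
        (𝓝 (if p then (green a b x : ℂ) else 0)) := by
    intro p _ a b
    split_ifs
    · exact Qz_lim hd a b hh hl hz hx
    · exact tendsto_const_nhds
  have h1 : Tendsto (fun n => ((h n : ℂ) ^ d)⁻¹ * QI i j i' j' (z n)) atTop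
      (𝓝 (mx i j i' j' x : ℂ)) := by
    have h2 := (((h0 (j = j') i i').sub (h0 (j = i') i j')).sub (h0 (i = j') j i')).add
      (h0 (i = i') j j')
    have e1 : (if j = j' then (green i i' x : ℂ) else 0) -
        (if j = i' then (green i j' x : ℂ) else 0) - (if i = j' then (green j i' x : ℂ) else 0) +
        (if i = i' then (green j j' x : ℂ) else 0) = (mx i j i' j' x : ℂ) := by
      unfold mx
      split_ifs <;> push_cast <;> ring
    rw [e1] at h2
    refine h2.congr fun n => ?_
    unfold QI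
    rw [mul_add, mul_sub, mul_sub]
    simp only [mul_ite, mul_zero]
  have h3 := (Complex.continuous_re.tendsto _).comp h1
  rw [Complex.ofReal_re] at h3
  have h4 : Tendsto (fun n => (h n ^ d)⁻¹ * (VI (K n) i j i' j' (z n) -
      (QI i j i' j' (z n)).re)) atTop (𝓝 0) := by
    have h5 : Tendsto (fun n => C * ((h n * Real.sqrt (K n))⁻¹) ^ d) atTop (𝓝 0) := by
      have := (hK2.pow d).const_mul C
      rwa [zero_pow (by omega), mul_zero] at this
    refine squeeze_zero_norm' ?_ h5
    filter_upwards [hK] with n hn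
    have hhn := hh n
    rw [Real.norm_eq_abs, abs_mul, abs_of_pos (by positivity)]
    calc (h n ^ d)⁻¹ * |VI (K n) i j i' j' (z n) - (QI i j i' j' (z n)).re| ≤
        (h n ^ d)⁻¹ * (C / Real.sqrt (K n) ^ d) :=
          mul_le_mul_of_nonneg_left (hb (K n) hn i j i' j' (z n)) (by positivity)
      _ = _ := by rw [inv_pow, mul_pow, mul_inv]; ring
  have h6 := h3.add h4
  rw [add_zero] at h6
  refine h6.congr fun n => ?_
  have e2 : (((h n : ℂ) ^ d)⁻¹ * QI i j i' j' (z n)).re =
      (h n ^ d)⁻¹ * (QI i j i' j' (z n)).re := by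
    have : ((h n : ℂ) ^ d)⁻¹ = (((h n ^ d)⁻¹ : ℝ) : ℂ) := by push_cast; rfl
    rw [this, Complex.re_ofReal_mul]
  rw [Function.comp_apply, e2]
  ring

end

end Pool.Agent.U322.SF
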