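import Mathlib
import Pool.Agent.U322.SF.Var3
import Pool.Agent.U322.FL.Fin

/-!
# Schwinger functions of lattice Yang-Mills: joint characteristic functions of finitely many
plaquettes
-/

open MeasureTheory Filter
open scoped Topology
open Pool.Agent.H906R3.YM hiding Pl
open Pool.Agent.W793.YM Pool.Agent.TH618.YM

namespace Pool.Agent.U322.SF

set_option linter.unusedSectionVars false
set_option linter.unusedVariables false

noncomputable section

section torus

variable {d l n D : ℕ} [NeZero l]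

/-- the form of finitely many plaquettes -/
def fo (t : Fin n → ℝ) (a : Fin n → Fin D) (I J : Fin n → Fin d) (x : Fin n → St d l) :
    Fin D → Fm d l := fun α => ∑ k, (if a k = α then t k else 0) • pl2 (x k) (I k) (J k)

lemma pl2_apply (x : St d l) (i j j' k' : Fin d) (y : St d l) : pl2 x i j j' k' y =
    ((if j' = i ∧ k' = j then 1 else 0) - (if j' = j ∧ k' = i then 1 else 0)) *
      (if y = x then 1 else 0) := by
  have h1 : ∀ i j : Fin d, rcI x i j 1 1 y = if y = x then 1 else 0 := by
    intro i j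
    unfold rcI
    rw [Finset.sum_range_one, Finset.sum_range_one, zero_smul, zero_smul, add_zero, add_zero]
  unfold pl2 rc2
  rw [Pi.sub_apply]
  rw [apply_ite (fun f : St d l → ℝ => f y), apply_ite (fun f : St d l → ℝ => f y), h1,
    Pi.zero_apply]
  split_ifs <;> simp

lemma fo_apply (t : Fin n → ℝ) (a : Fin n → Fin D) (I J : Fin n → Fin d) (x : Fin n → St d l)
    (α : Fin D) (j' k' : Fin d) (y : St d l) : fo t a I J x α j' k' y =
    ∑ k, (if a k = α then t k else 0) * pl2 (x k) (I k) (J k) j' k' y := by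
  unfold fo
  rw [Finset.sum_apply, Finset.sum_apply, Finset.sum_apply]
  rfl

lemma asy_sum {ι : Type*} (s : Finset ι) (f : ι → Fm d l) (hf : ∀ i ∈ s, Asy (f i)) :
    Asy (∑ i ∈ s, f i) := fun j k => by
  rw [Finset.sum_apply, Finset.sum_apply, Finset.sum_apply, Finset.sum_apply,
    ← Finset.sum_neg_distrib]
  exact Finset.sum_congr rfl fun i hi => hf i hi j k

lemma fo_asy (t : Fin n → ℝ) (a : Fin n → Fin D) (I J : Fin n → Fin d) (x : Fin n → St d l)
    (α : Fin D) : Asy (fo t a I J x α) := by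
  unfold fo
  refine asy_sum _ _ fun k _ => ?_
  intro j' k'
  show (if a k = α then t k else 0) • pl2 (x k) (I k) (J k) j' k' =
    -((if a k = α then t k else 0) • pl2 (x k) (I k) (J k) k' j')
  rw [pl2_asy (x k) (I k) (J k) j' k', smul_neg]

lemma fo_ne {t : Fin n → ℝ} {a : Fin n → Fin D} {I J : Fin n → Fin d} {x : Fin n → St d l}
    {α : Fin D} {j' k' : Fin d} {y : St d l} (h : fo t a I J x α j' k' y ≠ 0) : ∃ k, y = x k := by
  by_contra hcon
  push Not at hcon
  apply h
  rw [fo_apply]
  refine Finset.sum_eq_zero fun k _ => ?_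
  rw [pl2_apply, if_neg (hcon k), mul_zero, mul_zero]

lemma sum_pl2 (x : St d l) (i j : Fin d) : ∑ j', ∑ k', ∑ y, |pl2 x i j j' k' y| ≤ 2 := by
  have h1 : ∀ j' k', ∑ y, |pl2 x i j j' k' y| ≤
      (if j' = i ∧ k' = j then 1 else 0) + (if j' = j ∧ k' = i then 1 else 0) := by
    intro j' k'
    have h2 : ∀ y : St d l, |pl2 x i j j' k' y| =
        |(if j' = i ∧ k' = j then (1 : ℝ) else 0) - (if j' = j ∧ k' = i then 1 else 0)| *
          (if y = x then 1 else 0) := by
      intro y
      rw [pl2_apply, abs_mul]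
      congr 1
      split_ifs <;> simp
    rw [Finset.sum_congr rfl fun y _ => h2 y, ← Finset.mul_sum, Finset.sum_ite_eq' Finset.univ x,
      if_pos (Finset.mem_univ _), mul_one]
    split_ifs <;> norm_num
  have h3 : ∀ p q : Fin d, ∑ j' : Fin d, ∑ k' : Fin d,
      (if j' = p ∧ k' = q then (1 : ℝ) else 0) = 1 := by
    intro p q
    rw [Finset.sum_eq_single p, Finset.sum_eq_single q]
    · simp
    · intro k' _ hk'; simp [hk']
    · intro h; exact absurd (Finset.mem_univ _) h
    · intro j' _ hj'; simp [hj']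
    · intro h; exact absurd (Finset.mem_univ _) h
  refine (Finset.sum_le_sum fun j' _ => Finset.sum_le_sum fun k' _ => h1 j' k').trans ?_
  simp only [Finset.sum_add_distrib, h3]
  norm_num

lemma fo_N1 (t : Fin n → ℝ) (a : Fin n → Fin D) (I J : Fin n → Fin d) (x : Fin n → St d l) :
    N1 (fo t a I J x) ≤ 2 * ∑ k, |t k| := by
  unfold N1
  have h1 : ∀ (α : Fin D) (j' k' : Fin d) (y : St d l), |fo t a I J x α j' k' y| ≤
      ∑ k : Fin n, (if a k = α then |t k| else 0) * |pl2 (x k) (I k) (J k) j' k' y| := by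
    intro α j' k' y
    rw [fo_apply]
    refine (Finset.abs_sum_le_sum_abs _ _).trans (le_of_eq ?_)
    refine Finset.sum_congr rfl fun k _ => ?_
    rw [abs_mul]
    congr 1
    split_ifs
    · rfl
    · exact abs_zero
  refine (Finset.sum_le_sum fun α _ => Finset.sum_le_sum fun j' _ => Finset.sum_le_sum fun k' _ =>
    Finset.sum_le_sum fun y _ => h1 α j' k' y).trans ?_
  have h2 : ∀ α : Fin D, ∑ j' : Fin d, ∑ k' : Fin d, ∑ y : St d l, ∑ k : Fin n,
      (if a k = α then |t k| else 0) * |pl2 (x k) (I k) (J k) j' k' y| ≤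
      ∑ k : Fin n, (if a k = α then |t k| else 0) * 2 := by
    intro α
    have e : ∑ j' : Fin d, ∑ k' : Fin d, ∑ y : St d l, ∑ k : Fin n,
      (if a k = α then |t k| else 0) * |pl2 (x k) (I k) (J k) j' k' y| =
      ∑ k : Fin n, (if a k = α then |t k| else 0) *
        ∑ j' : Fin d, ∑ k' : Fin d, ∑ y : St d l, |pl2 (x k) (I k) (J k) j' k' y| := by
      have e1 : ∀ j' : Fin d, ∑ k' : Fin d, ∑ y : St d l, ∑ k : Fin n,
          (if a k = α then |t k| else 0) * |pl2 (x k) (I k) (J k) j' k' y| =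
          ∑ k : Fin n, ∑ k' : Fin d, ∑ y : St d l,
            (if a k = α then |t k| else 0) * |pl2 (x k) (I k) (J k) j' k' y| := by
        intro j'
        exact (Finset.sum_congr rfl fun k' _ => Finset.sum_comm).trans Finset.sum_comm
      rw [Finset.sum_congr rfl fun j' _ => e1 j', Finset.sum_comm]
      simp only [Finset.mul_sum]
    rw [e]
    refine Finset.sum_le_sum fun k _ => mul_le_mul_of_nonneg_left (sum_pl2 _ _ _) ?_
    split_ifs
    · exact abs_nonneg _
    · exact le_rfl
  refine (Finset.sum_le_sum fun α _ => h2 α).trans (le_of_eq ?_)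
  rw [Finset.sum_comm, Finset.mul_sum]
  refine Finset.sum_congr rfl fun k _ => ?_
  rw [← Finset.sum_mul, Finset.sum_ite_eq Finset.univ (a k), if_pos (Finset.mem_univ _), mul_comm]

/-- the variance of finitely many plaquettes -/
lemma vK_fo (K : ℕ) (t : Fin n → ℝ) (a : Fin n → Fin D) (I J : Fin n → Fin d)
    (x : Fin n → St d l) : vK K (fo t a I J x) =
    ∑ k, ∑ k', t k * t k' * (if a k = a k' then
      ipF (TL K (pl2 (x k) (I k) (J k))) (TL K (pl2 (x k') (I k') (J k'))) else 0) := by
  rw [vK_eq]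
  have h1 : ∀ α, ipF (TL K (fo t a I J x α)) (TL K (fo t a I J x α)) =
      ∑ k, ∑ k', (if a k = α then t k else 0) * ((if a k' = α then t k' else 0) *
        ipF (TL K (pl2 (x k) (I k) (J k))) (TL K (pl2 (x k') (I k') (J k')))) := by
    intro α
    unfold fo
    rw [map_sum, ipF_sum_left]
    refine Finset.sum_congr rfl fun k _ => ?_
    rw [ipF_sum_right]
    refine Finset.sum_congr rfl fun k' _ => ?_
    rw [map_smul, map_smul, ipF_smul_left, ipF_smul_right]
  rw [Finset.sum_congr rfl fun α _ => h1 α, Finset.sum_comm]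
  refine Finset.sum_congr rfl fun k _ => ?_
  rw [Finset.sum_comm]
  refine Finset.sum_congr rfl fun k' _ => ?_
  rw [Finset.sum_eq_single (a k)]
  · rw [if_pos rfl]
    by_cases h : a k' = a k
    · rw [if_pos h, if_pos h.symm]; ring
    · rw [if_neg h, if_neg (Ne.symm h)]; ring
  · intro α _ hα
    rw [if_neg (Ne.symm hα), zero_mul]
  · intro h; exact absurd (Finset.mem_univ _) h

lemma ipF_pl2 (x : St d l) (i j : Fin d) (W : Fin d → Fin d → St d l → ℝ)
    (hW : ∀ j k, W j k x = -W k j x) : ipF (pl2 x i j) W = W i j x := by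
  unfold ipF ip2
  have h1 : ∀ j' k', ∑ y, pl2 x i j j' k' y * W j' k' y =
      ((if j' = i ∧ k' = j then 1 else 0) - (if j' = j ∧ k' = i then 1 else 0)) * W j' k' x := by
    intro j' k'
    rw [Finset.sum_eq_single x]
    · rw [pl2_apply, if_pos rfl, mul_one]
    · intro y _ hy
      rw [pl2_apply, if_neg hy, mul_zero, zero_mul]
    · intro h; exact absurd (Finset.mem_univ _) h
  have h3 : ∀ p q : Fin d, ∑ j' : Fin d, ∑ k' : Fin d,
      (if j' = p ∧ k' = q then (1 : ℝ) else 0) * W j' k' x = W p q x := by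
    intro p q
    rw [Finset.sum_eq_single p, Finset.sum_eq_single q]
    · simp
    · intro k' _ hk'; simp [hk']
    · intro h; exact absurd (Finset.mem_univ _) h
    · intro j' _ hj'; simp [hj']
    · intro h; exact absurd (Finset.mem_univ _) h
  simp only [h1, sub_mul, Finset.sum_sub_distrib, h3]
  rw [hW j i]
  ring

end torus

section field

variable {G : Type*} [Group G] [TopologicalSpace G] [IsTopologicalGroup G] [CompactSpace G]
  [SecondCountableTopology G] [MeasurableSpace G] [BorelSpace G] (μ : Measure G)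
  [IsProbabilityMeasure μ] [μ.IsMulLeftInvariant] [μ.IsMulRightInvariant] [μ.IsInvInvariant]
  {N D : ℕ} (L : LD G N D) {d l n : ℕ} [NeZero l]

lemma Fh_fo (t : Fin n → ℝ) (a : Fin n → Fin D) (I J : Fin n → Fin d) (x : Fin n → St d l)
    (H : St d l → G) (U : Ed d l → G) : Fh L (fo t a I J x) H U =
    ∑ k, t k * fi L (a k) (H (x k) * plqT U (x k) (I k) (J k) * (H (x k))⁻¹) := by
  unfold Fh fo
  have h1 : ∀ α, ipF (∑ k, (if a k = α then t k else 0) • pl2 (x k) (I k) (J k))
      (fun j k y => fi L α (H y * plqT U y j k * (H y)⁻¹)) =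
      ∑ k, (if a k = α then t k else 0) *
        fi L α (H (x k) * plqT U (x k) (I k) (J k) * (H (x k))⁻¹) := by
    intro α
    rw [ipF_sum_left]
    refine Finset.sum_congr rfl fun k _ => ?_
    rw [ipF_smul_left]
    congr 1
    refine ipF_pl2 (x k) (I k) (J k) _ fun i j => ?_
    have e : H (x k) * plqT U (x k) i j * (H (x k))⁻¹ =
        (H (x k) * plqT U (x k) j i * (H (x k))⁻¹)⁻¹ := by
      unfold plqT
      group
    rw [e, fi_inv]
  rw [Finset.sum_congr rfl fun α _ => h1 α, Finset.sum_comm]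
  refine Finset.sum_congr rfl fun k _ => ?_
  rw [Finset.sum_eq_single (a k)]
  · rw [if_pos rfl]
  · intro α _ hα
    rw [if_neg (Ne.symm hα), zero_mul]
  · intro h; exact absurd (Finset.mem_univ _) h

/-- the linear combination of the transported curvatures -/
def lc (t : Fin n → ℝ) (a : Fin n → Fin D) (I J : Fin n → Fin d) (z : Fin n → Fin d → ℤ)
    (P : (Fin d → ℤ) → List (Fin d × Bool)) (V : Ez d → G) : ℝ :=
  ∑ k, t k * FL.fst L V P (a k) (I k) (J k) (z k)

lemma lc_eq (t : Fin n → ℝ) (a : Fin n → Fin D) (I J : Fin n → Fin d) (z : Fin n → Fin d → ℤ)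
    (P : (Fin d → ℤ) → List (Fin d × Bool)) {o : Fin d → ℤ} {r : ℕ} (hm : FL.Mar l r o)
    (hz : ∀ k i, |z k i| ≤ r) (U : Ed d l → G) :
    lc L t a I J z P (lf (tr (zt l o) U)) =
      Fh L (fo t a I J fun k => zt l (z k + o)) (fun y => hol (lf U) o (FL.Pp o P y)) U := by
  rw [Fh_fo]
  unfold lc
  refine Finset.sum_congr rfl fun k _ => ?_
  congr 1
  unfold FL.fst
  rw [FL.lf_tr, hol_trans, FL.plz_trans, FL.plz_lf, zero_add]
  unfold FL.Pp
  rw [FL.rep_zt hm (hz k)]

end field

end

end Pool.Agent.U322.SF
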