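import Mathlib
import Pool.Agent.W793.YM.Char
import Pool.Agent.W793.YM.Mom

/-!
# Schwinger functions of lattice Yang-Mills: all the moments of a plaquette
-/

open MeasureTheory Matrix
open scoped Matrix.Norms.Frobenius ContDiff
open Pool.Agent.H906R3.YM Pool.Agent.W793.YM

namespace Pool.Agent.U322.SF

set_option linter.unusedSectionVars false
set_option linter.unusedVariables false

noncomputable section

variable {G : Type*} [Group G] [TopologicalSpace G] [IsTopologicalGroup G] [CompactSpace G]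
  [SecondCountableTopology G] [MeasurableSpace G] [BorelSpace G] (μ : Measure G)
  [IsProbabilityMeasure μ] [μ.IsMulLeftInvariant] [μ.IsMulRightInvariant] [μ.IsInvInvariant]
  {N n : ℕ} (L : LD G N n)

variable {L}

lemma we_plq_cont {d l : ℕ} [NeZero l] (x : Fin d → ZMod l) (i j : Fin d) :
    Continuous fun U : Ed d l → G => we L (plqT U x i j) :=
  Sm_cont ⟨_, we_mem (L := L) x i j⟩

/-- the exponential moment of a plaquette -/
theorem plaq_exp : ∃ C : ℝ, 0 < C ∧ ∀ b : ℝ, 1 ≤ b → ∀ (d m : ℕ) [NeZero m], 2 ≤ m →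
    ∀ (x : Fin d → ZMod (2 * m)) (i j : Fin d), i ≠ j →
      EX μ L (b ^ 4) (fun U : Ed d (2 * m) → G => Real.exp (b ^ 4 * we L (plqT U x i j))) ≤
        C * b ^ (4 * N ^ 2) := by
  obtain ⟨C, hC, hz⟩ := zz_lower μ (L := L)
  refine ⟨C⁻¹, by positivity, fun b hb d m _ hm x i j hij => ?_⟩
  have hb0 : 0 < b := by linarith
  obtain ⟨Φ, hΦ⟩ : ∃ Φ : G → ℝ, Φ = fun g => Real.exp (b ^ 4 * we L g) := ⟨_, rfl⟩
  have hΦc : Continuous Φ := by
    rw [hΦ]; exact Real.continuous_exp.comp (continuous_const.mul we_cont)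
  have h0 : Zt μ L (b ^ 4) (fun U : Ed d (2 * m) → G => Φ (plqT U x i j)) =
      Zt μ L (b ^ 4) (fun U : Ed d (2 * m) → G => Φ (plqT U 0 i j)) := by
    rw [← Zt_tr μ _ x (fun U : Ed d (2 * m) → G => Φ (plqT U 0 i j))]
    simp only [plqT_tr, zero_add]
  obtain ⟨c, hc, hred⟩ := Zt_red μ (L := L) hm j (b ^ 4)
  have hcont : Continuous fun U : Ed d (2 * m) → G => Φ (plqT U 0 i j) := by
    rw [hΦ]
    exact Real.continuous_exp.comp (continuous_const.mul (we_plq_cont (L := L) 0 i j))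
  have hgi : GI fun U : Ed d (2 * m) → G => Φ (plqT U 0 i j) := fun γ U => by
    show Φ (plqT (gt γ U) 0 i j) = _
    rw [plqT_gt, hΦ]
    simp only [we_conj]
  have hgi1 : GI fun _ : Ed d (2 * m) → G => (1 : ℝ) := fun γ U => rfl
  have hJ : ((0 + eT j : Fin d → ZMod (2 * m)), i) ∈ (TR hm j).J := by
    show _ ∈ Finset.univ.filter _
    rw [Finset.mem_filter]
    refine ⟨Finset.mem_univ _, hij, Or.inl ?_⟩
    simp only [add_same, Pi.zero_apply, zero_add]
  have h1 := (TR hm j).expm μ (L := L) (by positivity : (0 : ℝ) ≤ b ^ 4)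
    (w := (wR L (b ^ 4) m j).1) (Sm_cont _) (wR_dep hm _ _) (wR_nonneg _ _) hJ
  have h2 : (fun U : Ed d (2 * m) → G => Φ (plqT (fix j U) 0 i j)) = fun U =>
      Real.exp (b ^ 4 * we L ((TR hm j).W U ((0 + eT j : Fin d → ZMod (2 * m)), i))) := by
    funext U
    rw [hΦ]
    simp only
    congr 2
    have h3 : plqT (fix j U) 0 i j =
        ((TR hm j).W U ((0 + eT j : Fin d → ZMod (2 * m)), i))⁻¹ := by
      have h5 : rB j (0 : Fin d → ZMod (2 * m)) = 0 := by
        unfold rB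
        simp
      have h4 : (TR hm j).W U ((0 + eT j : Fin d → ZMod (2 * m)), i) =
          U (0 + eT j, i) * (U (rA j (0 + eT j), i))⁻¹ := by
        unfold Refl.W TR
        simp [hij]
      rw [h4, rA_eq', h5]
      unfold plqT
      rw [fix_i0' U 0 (Or.inl rfl), fix_i0' U _ (Or.inl (add_ne 0 hij)),
        fix_ne _ _ hij, fix_ne _ _ hij]
      group
    rw [h3, we_inv]
  have h6 : zz μ L (b ^ 4) * Zt μ L (b ^ 4) (fun U : Ed d (2 * m) → G => Φ (plqT U x i j)) ≤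
      Zt μ L (b ^ 4) (fun _ : Ed d (2 * m) → G => 1) := by
    rw [h0, hred _ hcont hgi, hred _ continuous_const hgi1, h2]
    calc _ = c * (zz μ L (b ^ 4) * (TR hm j).Ew μ L (b ^ 4) (wR L (b ^ 4) m j).1
          (fun U => Real.exp (b ^ 4 * we L
            ((TR hm j).W U ((0 + eT j : Fin d → ZMod (2 * m)), i))))) := by ring
      _ ≤ _ := mul_le_mul_of_nonneg_left h1 hc.le
  have hz1 := hz b hb
  have hZ := Zt_pos (L := L) (d := d) (l := 2 * m) μ (b ^ 4)
  have hZ2 : 0 ≤ Zt μ L (b ^ 4) (fun U : Ed d (2 * m) → G => Φ (plqT U x i j)) :=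
    Zt_nonneg μ fun U => by rw [hΦ]; exact (Real.exp_pos _).le
  have h7 : EX μ L (b ^ 4) (fun U : Ed d (2 * m) → G => Real.exp (b ^ 4 * we L (plqT U x i j))) =
      Zt μ L (b ^ 4) (fun U : Ed d (2 * m) → G => Φ (plqT U x i j)) /
        Zt μ L (b ^ 4) (fun _ : Ed d (2 * m) → G => 1) := by
    unfold EX
    rw [hΦ]
  rw [h7, div_le_iff₀ hZ]
  have h8 : C * Zt μ L (b ^ 4) (fun U : Ed d (2 * m) → G => Φ (plqT U x i j)) ≤
      b ^ (4 * N ^ 2) * Zt μ L (b ^ 4) (fun _ : Ed d (2 * m) → G => 1) := by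
    calc C * Zt μ L (b ^ 4) (fun U : Ed d (2 * m) → G => Φ (plqT U x i j)) ≤
        (zz μ L (b ^ 4) * b ^ (4 * N ^ 2)) *
          Zt μ L (b ^ 4) (fun U : Ed d (2 * m) → G => Φ (plqT U x i j)) :=
          mul_le_mul_of_nonneg_right hz1 hZ2
      _ = b ^ (4 * N ^ 2) * (zz μ L (b ^ 4) *
          Zt μ L (b ^ 4) (fun U : Ed d (2 * m) → G => Φ (plqT U x i j))) := by ring
      _ ≤ _ := mul_le_mul_of_nonneg_left h6 (by positivity)
  rw [mul_assoc, inv_mul_eq_div, le_div_iff₀ hC, mul_comm]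
  exact h8

/-- the elementary inequality behind the moments -/
lemma pow_le_exp {τ y : ℝ} (hτ : 1 ≤ τ) (hy : 0 ≤ y) (p Q : ℕ) :
    y ^ p ≤ τ + (p * (Q + 1)).factorial * (τ ^ Q)⁻¹ * Real.exp y := by
  have hτ0 : 0 < τ := by linarith
  have hpos : 0 ≤ (p * (Q + 1)).factorial * (τ ^ Q)⁻¹ * Real.exp y := by positivity
  rcases le_total (y ^ p) τ with h | h
  · linarith
  · have hq : τ ^ Q ≤ (y ^ p) ^ Q := pow_le_pow_left₀ hτ0.le h Q
    have h1 : y ^ p * τ ^ Q ≤ y ^ (p * (Q + 1)) := by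
      calc y ^ p * τ ^ Q ≤ y ^ p * (y ^ p) ^ Q := mul_le_mul_of_nonneg_left hq (by positivity)
        _ = y ^ (p * (Q + 1)) := by rw [pow_mul, pow_succ]; ring
    have h2 : y ^ (p * (Q + 1)) ≤ (p * (Q + 1)).factorial * Real.exp y := by
      have := Real.pow_div_factorial_le_exp y hy (p * (Q + 1))
      rw [div_le_iff₀ (by positivity)] at this
      linarith
    have h3 : y ^ p ≤ (p * (Q + 1)).factorial * (τ ^ Q)⁻¹ * Real.exp y := by
      rw [mul_right_comm, ← div_eq_mul_inv, le_div_iff₀ (by positivity)]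
      exact h1.trans h2
    linarith

/-- the moments of a plaquette -/
theorem plaq_pow (J p : ℕ) : ∃ C : ℝ, 0 < C ∧ ∀ τ : ℝ, 1 ≤ τ → ∀ (d m : ℕ) [NeZero m], 2 ≤ m →
    ∀ (x : Fin d → ZMod (2 * m)) (i j : Fin d), i ≠ j →
      EX μ L ((τ ^ J) ^ 4) (fun U : Ed d (2 * m) → G =>
        ((τ ^ J) ^ 4 * we L (plqT U x i j)) ^ p) ≤ C * τ := by
  obtain ⟨C, hC, h⟩ := plaq_exp μ (L := L)
  obtain ⟨Q, hQ⟩ : ∃ Q, Q = J * (4 * N ^ 2) := ⟨_, rfl⟩
  refine ⟨1 + (p * (Q + 1)).factorial * C, by positivity, fun τ hτ d m _ hm x i j hij => ?_⟩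
  have hτ0 : 0 < τ := by linarith
  have hb : 1 ≤ τ ^ J := one_le_pow₀ hτ
  have hw : Continuous fun U : Ed d (2 * m) → G => (τ ^ J) ^ 4 * we L (plqT U x i j) :=
    continuous_const.mul (we_plq_cont x i j)
  have h1 := EX_mono μ (L := L) (β := (τ ^ J) ^ 4) (hw.pow p) (continuous_const.add
    (continuous_const.mul (Real.continuous_exp.comp hw)))
    (H := fun U : Ed d (2 * m) → G => τ + ((p * (Q + 1)).factorial * (τ ^ Q)⁻¹) *
      Real.exp ((τ ^ J) ^ 4 * we L (plqT U x i j)))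
    (fun U => pow_le_exp hτ (mul_nonneg (by positivity) (we_nonneg _)) p Q)
  refine h1.trans ?_
  have hE : Continuous fun U : Ed d (2 * m) → G => ((p * (Q + 1)).factorial * (τ ^ Q)⁻¹) *
      Real.exp ((τ ^ J) ^ 4 * we L (plqT U x i j)) :=
    continuous_const.mul (Real.continuous_exp.comp hw)
  rw [EX_add μ continuous_const hE, EX_const, EX_smul]
  have h2 := h (τ ^ J) hb d m hm x i j hij
  rw [show (τ ^ J) ^ (4 * N ^ 2) = τ ^ Q by rw [hQ, ← pow_mul]] at h2
  have h3 : ((p * (Q + 1)).factorial : ℝ) * (τ ^ Q)⁻¹ *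
      EX μ L ((τ ^ J) ^ 4) (fun U : Ed d (2 * m) → G =>
        Real.exp ((τ ^ J) ^ 4 * we L (plqT U x i j))) ≤ (p * (Q + 1)).factorial * C := by
    calc _ ≤ ((p * (Q + 1)).factorial : ℝ) * (τ ^ Q)⁻¹ * (C * τ ^ Q) :=
          mul_le_mul_of_nonneg_left h2 (by positivity)
      _ = _ := by field_simp
  have h4 : ((p * (Q + 1)).factorial : ℝ) * C ≤ (p * (Q + 1)).factorial * C * τ :=
    le_mul_of_one_le_right (by positivity) hτ
  linarith

end

end Pool.Agent.U322.SF
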