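import Mathlib
import Pool.Agent.U322.SF.App
import Pool.Agent.U322.SF.Asm2
import Pool.Agent.U322.SF.Mom
import Pool.Agent.U322.FL.Law

/-!
# Schwinger functions of lattice Yang-Mills: characteristic functions and moments in the infinite
volume
-/

open MeasureTheory Filter
open scoped Topology
open Pool.Agent.H906R3.YM hiding Pl
open Pool.Agent.W793.YM Pool.Agent.TH618.YM

namespace Pool.Agent.U322.SF

set_option linter.unusedSectionVars false
set_option linter.unusedVariables false

noncomputable section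

/-- paths -/
lemma dest_append {d : ℕ} (x : Fin d → ℤ) (p q : List (Fin d × Bool)) :
    dest x (p ++ q) = dest (dest x p) q := by
  induction p generalizing x with
  | nil => rfl
  | cons s p ih =>
    obtain ⟨i, s⟩ := s
    cases s with
    | true => simp only [List.cons_append, dest]; exact ih _
    | false => simp only [List.cons_append, dest]; exact ih _

lemma exists_path {d : ℕ} : ∀ (M : ℕ) (x : Fin d → ℤ), ∑ i, (x i).natAbs = M →
    ∃ p : List (Fin d × Bool), dest 0 p = x ∧ p.length = M := by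
  intro M
  induction M with
  | zero =>
    intro x hx
    refine ⟨[], ?_, rfl⟩
    funext i
    have := (Finset.sum_eq_zero_iff.1 hx) i (Finset.mem_univ i)
    show (0 : ℤ) = x i
    omega
  | succ M ih =>
    intro x hx
    obtain ⟨i, hi⟩ : ∃ i, x i ≠ 0 := by
      by_contra hcon
      push Not at hcon
      simp [hcon] at hx
    have key : ∀ e : ℤ, (x i - e).natAbs + 1 = (x i).natAbs →
        ∑ j, ((x - Pi.single i e : Fin d → ℤ) j).natAbs = M := by
      intro e he
      have h1 := Finset.add_sum_erase Finset.univ (fun j => (x j).natAbs) (Finset.mem_univ i)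
      have h2 := Finset.add_sum_erase Finset.univ
        (fun j => ((x - Pi.single i e : Fin d → ℤ) j).natAbs) (Finset.mem_univ i)
      have h3 : ∑ j ∈ Finset.univ.erase i, ((x - Pi.single i e : Fin d → ℤ) j).natAbs =
          ∑ j ∈ Finset.univ.erase i, (x j).natAbs := by
        refine Finset.sum_congr rfl fun j hj => ?_
        rw [Pi.sub_apply, Pi.single_eq_of_ne (Finset.ne_of_mem_erase hj), sub_zero]
      have h4 : (x - Pi.single i e : Fin d → ℤ) i = x i - e := by
        rw [Pi.sub_apply, Pi.single_eq_same]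
      rw [h3, h4] at h2
      omega
    rcases lt_or_gt_of_ne hi with h | h
    · obtain ⟨p, hp, hl⟩ := ih (x - Pi.single i (-1)) (key (-1) (by omega))
      refine ⟨p ++ [(i, false)], ?_, by rw [List.length_append, hl]; rfl⟩
      rw [dest_append, hp]
      simp only [dest]
      rw [Pi.single_neg]
      abel
    · obtain ⟨p, hp, hl⟩ := ih (x - Pi.single i 1) (key 1 (by omega))
      refine ⟨p ++ [(i, true)], ?_, by rw [List.length_append, hl]; rfl⟩
      rw [dest_append, hp]
      simp only [dest]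
      abel

/-- a choice of the paths -/
def pth {d : ℕ} (x : Fin d → ℤ) : List (Fin d × Bool) := (exists_path _ x rfl).choose

lemma pth_dest {d : ℕ} (x : Fin d → ℤ) : dest 0 (pth x) = x := (exists_path _ x rfl).choose_spec.1

lemma pth_len {d : ℕ} (x : Fin d → ℤ) : (pth x).length = ∑ i, (x i).natAbs :=
  (exists_path _ x rfl).choose_spec.2

variable {G : Type*} [Group G] [TopologicalSpace G] [IsTopologicalGroup G] [CompactSpace G]
  [SecondCountableTopology G] [MeasurableSpace G] [BorelSpace G] (μ : Measure G)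
  [IsProbabilityMeasure μ] [μ.IsMulLeftInvariant] [μ.IsMulRightInvariant] [μ.IsInvInvariant]
  {N D : ℕ} (L : LD G N D) {d : ℕ}

/-- the covariances of the plaquettes -/
def VZ {n : ℕ} (K : ℕ) (I J : Fin n → Fin d) (z : Fin n → Fin d → ℤ) : Fin n → Fin n → ℝ :=
  fun k l => VI K (I k) (J k) (I l) (J l) (z k - z l)

lemma lc_cont {n : ℕ} (t : Fin n → ℝ) (a : Fin n → Fin D) (I J : Fin n → Fin d)
    (z : Fin n → Fin d → ℤ) (P : (Fin d → ℤ) → List (Fin d × Bool)) :
    Continuous fun V : Ez d → G => lc L t a I J z P V := by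
  unfold lc
  exact continuous_finsetSum _ fun k _ => continuous_const.mul (FL.fst_cont L P _ _ _ _)

/-- the joint characteristic function of finitely many transported plaquettes -/
theorem char_inf (hd : 3 ≤ d) : ∃ C : ℝ, 0 < C ∧ ∀ b : ℝ, 1 ≤ b → ∀ K : ℕ, 1 ≤ K →
    ∀ ν : Measure (Ez d → G), FL.IVL μ L (b ^ 4) ν →
    ∀ (n : ℕ) (t : Fin n → ℝ) (a : Fin n → Fin D) (I J : Fin n → Fin d)
      (z : Fin n → Fin d → ℤ), (∀ k, I k ≠ J k) → (∀ k i, 2 * |z k i| + 2 ≤ K) →
    (∀ k, (pth (z k)).length ≤ K) →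
    |∫ V, Real.cos (b ^ 2 * lc L t a I J z pth V) ∂ν -
      Real.exp (-((∑ k, ∑ l, t k * t l * cv (VZ K I J z) a k l) / 2))| ≤
      C * (2 * ∑ k, |t k| / Real.sqrt (Real.sqrt K ^ (d - 2)) +
        (K : ℝ) ^ (2 * d + 3) * (1 + 2 * ∑ k, |t k|) ^ 2 / b) ∧
    0 ≤ ∑ k, ∑ l, t k * t l * cv (VZ K I J z) a k l := by
  obtain ⟨C, hC, hrb⟩ := lattice_rb μ (L := L) hd
  refine ⟨C, hC, fun b hb K hK ν hν n t a I J z hIJ hz hlen => ?_⟩
  have hb0 : 0 < b := by linarith
  obtain ⟨s, hs, hlim⟩ := hν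
  obtain ⟨T, hT⟩ : ∃ T : ℝ, T = 2 * ∑ k, |t k| := ⟨_, rfl⟩
  have hT0 : 0 ≤ T := by rw [hT]; positivity
  have hT2 : 2 * ∑ k, |t k| / Real.sqrt (Real.sqrt K ^ (d - 2)) =
      T / Real.sqrt (Real.sqrt K ^ (d - 2)) := by
    rw [hT, ← Finset.sum_div, mul_div_assoc]
  rw [hT2, ← hT]
  obtain ⟨r, hr⟩ : ∃ r : ℕ, r = (K - 1) / 2 := ⟨_, rfl⟩
  have hr2 : 2 * r < K := by omega
  have hzr : ∀ k i, |z k i| ≤ r := fun k i => by
    have := hz k i
    omega
  obtain ⟨o, ho⟩ : ∃ o : Fin d → ℤ, o = fun _ => (K : ℤ) + 2 + r := ⟨_, rfl⟩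
  have hoi : ∀ i, o i = (K : ℤ) + 2 + r := fun i => by rw [ho]
  have hcov : ∀ k l, Tendsto (fun j => ipF
      (TL K (pl2 (zt (2 * (s j + 1)) (z k + o)) (I k) (J k)))
      (TL K (pl2 (zt (2 * (s j + 1)) (z l + o)) (I l) (J l)))) atTop (𝓝 (VZ K I J z k l)) := by
    intro k l
    have h1 := cov_tendsto (d := d) (by omega) K (z k + o) (z l + o) (hIJ k) (hIJ l) hs
    rwa [add_sub_add_right_eq_sub] at h1
  have hq : Tendsto (fun j => ∑ k, ∑ l, t k * t l * (if a k = a l then ipF
      (TL K (pl2 (zt (2 * (s j + 1)) (z k + o)) (I k) (J k)))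
      (TL K (pl2 (zt (2 * (s j + 1)) (z l + o)) (I l) (J l))) else 0)) atTop
      (𝓝 (∑ k, ∑ l, t k * t l * cv (VZ K I J z) a k l)) := by
    refine tendsto_finsetSum _ fun k _ => tendsto_finsetSum _ fun l _ => ?_
    refine Tendsto.const_mul _ ?_
    unfold cv
    split_ifs
    · exact hcov k l
    · exact tendsto_const_nhds
  have hc : Continuous fun V : Ez d → G => Real.cos (b ^ 2 * lc L t a I J z pth V) :=
    Real.continuous_cos.comp (continuous_const.mul (lc_cont L t a I J z pth))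
  have h1 := hlim _ hc
  have h2 := h1.sub ((Real.continuous_exp.tendsto _).comp (hq.div_const 2).neg)
  have fin : ∀ m : ℕ, 3 * K + 5 < m →
      |EX μ L (b ^ 4) (fun U : Ed d (2 * (m + 1)) → G =>
        Real.cos (b ^ 2 * lc L t a I J z pth (lf U))) -
      Real.exp (-((∑ k, ∑ l, t k * t l * (if a k = a l then ipF
      (TL K (pl2 (zt (2 * (m + 1)) (z k + o)) (I k) (J k)))
      (TL K (pl2 (zt (2 * (m + 1)) (z l + o)) (I l) (J l))) else 0)) / 2))| ≤
      C * (T / Real.sqrt (Real.sqrt K ^ (d - 2)) + (K : ℝ) ^ (2 * d + 3) * (1 + T) ^ 2 / b) := by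
    intro m hj
    have hKm : 3 * K + 5 < 2 * (m + 1) := by omega
    have hmar : FL.Mar (2 * (m + 1)) r o := fun i => by
      rw [hoi]
      constructor <;> push_cast <;> omega
    have hwv : ∀ k i, ((wv (zt (2 * (m + 1)) (z k + o)) i : ℕ) : ℤ) = z k i + o i := by
      intro k i
      refine wv_zt (fun i => ?_) i
      have h3 := hzr k i
      have h4 := hoi i
      rw [abs_le] at h3
      rw [Pi.add_apply, h4]
      constructor <;> push_cast <;> omega
    obtain ⟨φ, hφ⟩ : ∃ φ : Fin D → Fm d (2 * (m + 1)), φ = fo t a I J fun k =>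
      zt (2 * (m + 1)) (z k + o) := ⟨_, rfl⟩
    have hne : ∀ α j' k' y, φ α j' k' y ≠ 0 → ∃ k, y = zt (2 * (m + 1)) (z k + o) :=
      fun α j' k' y h => by rw [hφ] at h; exact fo_ne h
    obtain ⟨h3, -⟩ := hrb b hb (m + 1) K hK hKm φ
      (fun α => by rw [hφ]; exact fo_asy t a I J _ α)
      (fun α j' k' y hy i => by
        obtain ⟨k, rfl⟩ := hne α j' k' y hy
        have h4 := hwv k i
        have h5 := hzr k i
        have h6 := hoi i
        rw [abs_le] at h5
        constructor <;> omega)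
      o (FL.Pp o pth) (fun i => by rw [hoi]; constructor <;> omega)
      (fun α j' k' y hy => by
        obtain ⟨k, rfl⟩ := hne α j' k' y hy
        have e1 : FL.Pp o pth (zt (2 * (m + 1)) (z k + o)) = pth (z k) := by
          unfold FL.Pp
          rw [FL.rep_zt hmar (hzr k)]
        rw [e1]
        refine ⟨hlen k, ?_⟩
        have e2 := dest_trans o 0 (pth (z k))
        rw [zero_add, pth_dest] at e2
        rw [e2])
    have hN : N1 φ ≤ T := by rw [hφ, hT]; exact fo_N1 t a I J _
    have hN0 := N1_nonneg φ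
    have e1 : EX μ L (b ^ 4) (fun U : Ed d (2 * (m + 1)) → G =>
        Real.cos (b ^ 2 * lc L t a I J z pth (lf U))) =
        EX μ L (b ^ 4) (fun U : Ed d (2 * (m + 1)) → G => Real.cos (b ^ 2 *
          Fh L φ (fun y => hol (lf U) o (FL.Pp o pth y)) U)) := by
      rw [← EX_tr μ (zt (2 * (m + 1)) o)]
      congr 1
      funext U
      rw [lc_eq L t a I J z pth hmar hzr, hφ]
    have e2 : vK K φ = ∑ k, ∑ l, t k * t l * (if a k = a l then ipF
      (TL K (pl2 (zt (2 * (m + 1)) (z k + o)) (I k) (J k)))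
      (TL K (pl2 (zt (2 * (m + 1)) (z l + o)) (I l) (J l))) else 0) := by
      rw [hφ]; exact vK_fo K t a I J _
    have hKr : (0 : ℝ) < K := by exact_mod_cast hK
    have hsq : 0 < Real.sqrt (Real.sqrt K ^ (d - 2)) := by positivity
    rw [e1, ← e2]
    refine h3.trans (mul_le_mul_of_nonneg_left ?_ hC.le)
    have p1 : N1 φ / Real.sqrt (Real.sqrt K ^ (d - 2)) ≤ T / Real.sqrt (Real.sqrt K ^ (d - 2)) :=
      div_le_div_of_nonneg_right hN hsq.le
    have p2 : (K : ℝ) ^ (2 * d + 3) * (1 + N1 φ) ^ 2 / b ≤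
        (K : ℝ) ^ (2 * d + 3) * (1 + T) ^ 2 / b := by
      refine div_le_div_of_nonneg_right ?_ hb0.le
      refine mul_le_mul_of_nonneg_left ?_ (by positivity)
      exact pow_le_pow_left₀ (by linarith) (by linarith) 2
    linarith
  constructor
  · refine le_of_tendsto h2.abs ?_
    filter_upwards [hs.eventually_gt_atTop (3 * K + 5)] with j hj using fin (s j) hj
  · refine ge_of_tendsto hq (Eventually.of_forall fun j => ?_)
    rw [← vK_fo K t a I J]
    exact FL.vK_nonneg' K _

end

end Pool.Agent.U322.SF
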