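import Mathlib
import Pool.Agent.U322.SF.App2

/-!
# Schwinger functions of lattice Yang-Mills: the truncated moments of the plaquettes
-/

open MeasureTheory Filter
open scoped Topology Matrix.Norms.Frobenius
open Pool.Agent.H906R3.YM hiding Pl
open Pool.Agent.W793.YM Pool.Agent.TH618.YM

namespace Pool.Agent.U322.SF

set_option linter.unusedSectionVars false
set_option linter.unusedVariables false

noncomputable section

section bess

variable {G : Type*} [Group G] [TopologicalSpace G] [IsTopologicalGroup G] [CompactSpace G]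
  [SecondCountableTopology G] [MeasurableSpace G] [BorelSpace G] {N D : ℕ} {L : LD G N D}

/-- Bessel's inequality -/
lemma fi_bessel (g : G) : ∑ a, fi L a g ^ 2 ≤ 2 * we L g := by
  rw [← dv_sq]
  unfold dv
  obtain ⟨M, hM⟩ : ∃ M, M = L.rho g - 1 := ⟨_, rfl⟩
  rw [← hM]
  have h1 : ∀ a, ip (L.X a) M = -fi L a g := by
    intro a
    have e1 : fi L a g = trX L a M := by
      rw [hM, map_sub, trX_one, sub_zero]; rfl
    have e2 : (L.X a).conjTranspose = -L.X a := skew a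
    rw [e1]
    unfold trX
    rw [ip_apply, ip_apply, Matrix.conjTranspose_conjTranspose, e2, Matrix.neg_mul,
      Matrix.trace_neg, Complex.neg_re]
  obtain ⟨S, hS⟩ : ∃ S, S = ∑ a, fi L a g • L.X a := ⟨_, rfl⟩
  have h2 : ip S M = -∑ a, fi L a g ^ 2 := by
    rw [ip_comm, hS, map_sum, ← Finset.sum_neg_distrib]
    refine Finset.sum_congr rfl fun a _ => ?_
    rw [map_smul, ip_comm, h1, smul_eq_mul]; ring
  have h3 := ip_cs S M
  rw [h2, ← norm_sq_ip M, hS, ip_sumX, neg_sq, sq (∑ a, fi L a g ^ 2)] at h3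
  have h0 : 0 ≤ ∑ a, fi L a g ^ 2 := Finset.sum_nonneg fun a _ => sq_nonneg _
  rcases h0.eq_or_lt with h | h
  · rw [← h]; positivity
  · exact le_of_mul_le_mul_left h3 h

end bess

variable {G : Type*} [Group G] [TopologicalSpace G] [IsTopologicalGroup G] [CompactSpace G]
  [SecondCountableTopology G] [MeasurableSpace G] [BorelSpace G] (μ : Measure G)
  [IsProbabilityMeasure μ] [μ.IsMulLeftInvariant] [μ.IsMulRightInvariant] [μ.IsInvInvariant]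
  {N D : ℕ} (L : LD G N D) {d : ℕ}

lemma we_plz_cont (x : Fin d → ℤ) (i j : Fin d) :
    Continuous fun V : Ez d → G => we L (FL.plz V x i j) :=
  we_cont.comp (FL.plz_cont x i j)

/-- the moments in the infinite volume -/
theorem mom_inf (J p : ℕ) : ∃ C : ℝ, 0 < C ∧ ∀ τ : ℝ, 1 ≤ τ →
    ∀ (ν : Measure (Ez d → G)), FL.IVL μ L ((τ ^ J) ^ 4) ν →
    ∀ (x : Fin d → ℤ) (i j : Fin d), i ≠ j →
      ∫ V, ((τ ^ J) ^ 4 * we L (FL.plz V x i j)) ^ p ∂ν ≤ C * τ := by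
  obtain ⟨C, hC, h⟩ := plaq_pow μ (L := L) J p
  refine ⟨C, hC, fun τ hτ ν hν x i j hij => ?_⟩
  obtain ⟨s, hs, hlim⟩ := hν
  have hc : Continuous fun V : Ez d → G => ((τ ^ J) ^ 4 * we L (FL.plz V x i j)) ^ p :=
    (continuous_const.mul (we_plz_cont L x i j)).pow p
  refine le_of_tendsto (hlim _ hc) ?_
  filter_upwards [hs.eventually_gt_atTop 2] with k hk
  have h1 := h τ hτ d (s k + 1) (by omega) (zt (2 * (s k + 1)) x) i j hij
  simp only [FL.plz_lf]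
  exact h1

/-- the covariances are symmetric -/
lemma VZ_symm (hd : 0 < d) {n : ℕ} (K : ℕ) {I J : Fin n → Fin d} (hIJ : ∀ k, I k ≠ J k)
    (z : Fin n → Fin d → ℤ) (k l : Fin n) : VZ K I J z k l = VZ K I J z l k := by
  have h1 := cov_tendsto hd K (z k) (z l) (hIJ k) (hIJ l) tendsto_id
  have h2 := cov_tendsto hd K (z l) (z k) (hIJ l) (hIJ k) tendsto_id
  refine tendsto_nhds_unique h1 (h2.congr fun j => ?_)
  exact ipF_comm _ _

lemma VZ_nonneg (hd : 0 < d) {n : ℕ} (K : ℕ) {I J : Fin n → Fin d} (hIJ : ∀ k, I k ≠ J k)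
    (z : Fin n → Fin d → ℤ) (k : Fin n) : 0 ≤ VZ K I J z k k := by
  have h1 := cov_tendsto hd K (z k) (z k) (hIJ k) (hIJ k) tendsto_id
  exact ge_of_tendsto h1 (Eventually.of_forall fun j => ipF_self_nonneg _)

/-- the powers -/
lemma pow_est {d n : ℕ} (hd : 3 ≤ d) {t T : ℝ} (ht : 1 ≤ t) {A : ℕ} {K : ℕ}
    (hK : K = ⌈t ^ (4 * A)⌉₊) (hT0 : 0 ≤ T) {J : ℕ} (hJ : J = (8 * d + 13) * A) :
    T / Real.sqrt (Real.sqrt K ^ (d - 2)) + (K : ℝ) ^ (2 * d + 3) * (1 + T) ^ 2 / t ^ J ≤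
      (T + 2 ^ (2 * d + 3) * (1 + T) ^ 2) / t ^ A := by
  have ht0 : 0 < t := by linarith
  have hK1 : t ^ (4 * A) ≤ K := by rw [hK]; exact Nat.le_ceil _
  have h1t : 1 ≤ t ^ (4 * A) := one_le_pow₀ ht
  have hK2 : (K : ℝ) ≤ 2 * t ^ (4 * A) := by
    have := Nat.ceil_lt_add_one (show 0 ≤ t ^ (4 * A) by positivity)
    rw [← hK] at this
    linarith
  have h1 : t ^ (2 * A) ≤ Real.sqrt K := by
    rw [show t ^ (2 * A) = Real.sqrt (t ^ (4 * A)) by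
      rw [show t ^ (4 * A) = (t ^ (2 * A)) ^ 2 by rw [← pow_mul]; congr 1; ring,
        Real.sqrt_sq (by positivity)]]
    exact Real.sqrt_le_sqrt hK1
  have h1' : 1 ≤ t ^ (2 * A) := one_le_pow₀ ht
  have h2 : t ^ (2 * A) ≤ Real.sqrt K ^ (d - 2) :=
    h1.trans (le_self_pow₀ (h1'.trans h1) (by omega))
  have h3 : t ^ A ≤ Real.sqrt (Real.sqrt K ^ (d - 2)) := by
    rw [show t ^ A = Real.sqrt (t ^ (2 * A)) by
      rw [show t ^ (2 * A) = (t ^ A) ^ 2 by rw [← pow_mul]; congr 1; ring,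
        Real.sqrt_sq (by positivity)]]
    exact Real.sqrt_le_sqrt h2
  have htA : 0 < t ^ A := by positivity
  rw [add_div]
  refine add_le_add (div_le_div_of_nonneg_left hT0 htA h3) ?_
  rw [div_le_div_iff₀ (by positivity) htA]
  have h4 : (K : ℝ) ^ (2 * d + 3) ≤ (2 * t ^ (4 * A)) ^ (2 * d + 3) :=
    pow_le_pow_left₀ (Nat.cast_nonneg _) hK2 _
  calc (K : ℝ) ^ (2 * d + 3) * (1 + T) ^ 2 * t ^ A ≤
      (2 * t ^ (4 * A)) ^ (2 * d + 3) * (1 + T) ^ 2 * t ^ A := by gcongr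
    _ = 2 ^ (2 * d + 3) * (1 + T) ^ 2 * t ^ J := by
      rw [mul_pow, ← pow_mul]
      have : t ^ J = t ^ (4 * A * (2 * d + 3)) * t ^ A := by
        rw [← pow_add, hJ]; congr 1; ring
      rw [this]; ring

set_option maxHeartbeats 1000000 in
/-- the truncated moments of finitely many plaquettes -/
theorem main_q (hd : 3 ≤ d) (n : ℕ) {c1 : ℝ} (hc1 : 0 ≤ c1)
    (hcar : ∀ g : G, |we L g - 1 / 2 * ∑ a, fi L a g ^ 2| ≤ c1 * we L g ^ 2) :
    ∃ C : ℝ, 0 ≤ C ∧ ∀ τ t : ℝ, 1 ≤ τ → t = τ ^ (n + 1) →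
      ∀ (ν : Measure (Ez d → G)) [IsProbabilityMeasure ν],
      FL.IVL μ L ((t ^ ((8 * d + 13) * (2 * n + 1))) ^ 4) ν →
      ∀ (I J : Fin n → Fin d) (z : Fin n → Fin d → ℤ) (K : ℕ) (v : ℝ), (∀ k, I k ≠ J k) →
      K = ⌈t ^ (4 * (2 * n + 1))⌉₊ → (∀ k i, 2 * |z k i| + 2 ≤ K) →
      (∀ k, ∑ i, (z k i).natAbs ≤ K) → 0 ≤ v → n ^ 2 * (4 * v) ≤ 1 →
      (∀ k l, k < l → |VZ K I J z k l| ≤ v) →
      |∫ V, ∏ k, ((t ^ ((8 * d + 13) * (2 * n + 1))) ^ 4 * we L (FL.plz V (z k) (I k) (J k)) -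
          ∫ V', (t ^ ((8 * d + 13) * (2 * n + 1))) ^ 4 *
            we L (FL.plz V' (z k) (I k) (J k)) ∂ν) ∂ν -
        (∏ k, Real.exp (-(2 * (t⁻¹) ^ 2 * VZ K I J z k k))) * SS D (VZ K I J z)| ≤
          C * (1 / t + v ^ (n + 1)) := by
  obtain ⟨Cr, hCr, hchar⟩ := char_inf μ L hd
  have hmoms : ∀ p : ℕ, ∃ C : ℝ, 0 < C ∧ ∀ τ : ℝ, 1 ≤ τ →
      ∀ (ν : Measure (Ez d → G)),
      FL.IVL μ L ((τ ^ ((n + 1) * ((8 * d + 13) * (2 * n + 1)))) ^ 4) ν →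
      ∀ (x : Fin d → ℤ) (i j : Fin d), i ≠ j →
      ∫ V, ((τ ^ ((n + 1) * ((8 * d + 13) * (2 * n + 1)))) ^ 4 *
        we L (FL.plz V x i j)) ^ p ∂ν ≤ C * τ := fun p => mom_inf μ L _ p
  choose Cm hCm hmom using hmoms
  obtain ⟨M, hM⟩ : ∃ M, M = ∑ p ∈ Finset.range (n + 3), Cm p := ⟨_, rfl⟩
  have hM0 : 0 ≤ M := by rw [hM]; exact Finset.sum_nonneg fun p _ => (hCm p).le
  obtain ⟨Ca, hCa, hasm⟩ := asm (Ω := Ez d → G) n D hM0
  obtain ⟨E, hE⟩ : ∃ E : ℝ, E = Cr * (4 * n + 2 ^ (2 * d + 3) * (1 + 4 * n) ^ 2) := ⟨_, rfl⟩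
  have hE0 : 0 ≤ E := by rw [hE]; positivity
  refine ⟨Ca * (c1 + 8 + E + 1), by positivity, ?_⟩
  intro τ t hτ htτ ν _ hν I J z K v hIJ hK hz hzs hv hv1 hvb
  have ht1 : 1 ≤ t := by rw [htτ]; exact one_le_pow₀ hτ
  have ht0 : 0 < t := by linarith
  obtain ⟨JJ, hJJ⟩ : ∃ JJ, JJ = (8 * d + 13) * (2 * n + 1) := ⟨_, rfl⟩
  obtain ⟨b, hb⟩ : ∃ b, b = t ^ JJ := ⟨_, rfl⟩
  rw [← hJJ] at hmom
  rw [← hJJ, ← hb] at hν
  simp only [← hJJ, ← hb]
  have hb1 : 1 ≤ b := by rw [hb]; exact one_le_pow₀ ht1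
  have hb0 : 0 < b := by linarith
  have hbτ : τ ^ ((n + 1) * JJ) = b := by rw [hb, htτ, ← pow_mul]
  have hmom' : ∀ p : ℕ, ∀ (x : Fin d → ℤ) (i j : Fin d), i ≠ j →
      ∫ V, (b ^ 4 * we L (FL.plz V x i j)) ^ p ∂ν ≤ Cm p * τ := by
    intro p x i j hij
    have h1 := hmom p τ hτ ν (by rw [hbτ]; exact hν) x i j hij
    rwa [hbτ] at h1
  obtain ⟨w, hw⟩ : ∃ w : Fin n → (Ez d → G) → ℝ, w = fun k V =>
    b ^ 4 * we L (FL.plz V (z k) (I k) (J k)) := ⟨_, rfl⟩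
  obtain ⟨Y, hY⟩ : ∃ Y : Fin n → Fin D → (Ez d → G) → ℝ, Y = fun k a V =>
    b ^ 2 * FL.fst L V pth a (I k) (J k) (z k) := ⟨_, rfl⟩
  have hwc : ∀ k, Continuous (w k) := fun k => by
    rw [hw]; exact continuous_const.mul (we_plz_cont L _ _ _)
  have hYc : ∀ k a, Continuous (Y k a) := fun k a => by
    rw [hY]; exact continuous_const.mul (FL.fst_cont L pth a _ _ _)
  have hw0 : ∀ k V, 0 ≤ w k V := fun k V => by
    rw [hw]; exact mul_nonneg (by positivity) (we_nonneg _)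
  obtain ⟨B, hB⟩ : ∃ B : ℝ, ∀ k V, |w k V| ≤ B := by
    have h1 : ∀ k, ∃ B : ℝ, ∀ V, |w k V| ≤ B := by
      intro k
      obtain ⟨B, hB⟩ := (isCompact_range (hwc k).abs).bddAbove
      exact ⟨B, fun V => hB ⟨V, rfl⟩⟩
    choose B hB using h1
    refine ⟨∑ k, |B k|, fun k V => (hB k V).trans ((le_abs_self _).trans ?_)⟩
    exact Finset.single_le_sum (f := fun k => |B k|) (fun _ _ => abs_nonneg _) (Finset.mem_univ k)
  have hfst : ∀ k V, ∑ a, Y k a V ^ 2 = b ^ 4 * ∑ a, fi L a (hol V 0 (pth (z k)) *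
      FL.plz V (z k) (I k) (J k) * (hol V 0 (pth (z k)))⁻¹) ^ 2 := by
    intro k V
    rw [hY, Finset.mul_sum]
    refine Finset.sum_congr rfl fun a _ => ?_
    simp only [FL.fst]
    ring
  have hwe : ∀ k V, w k V = b ^ 4 * we L (hol V 0 (pth (z k)) *
      FL.plz V (z k) (I k) (J k) * (hol V 0 (pth (z k)))⁻¹) := by
    intro k V
    rw [hw, we_conj]
  have hb4 : 0 < b ^ 4 := by positivity
  have hVs := VZ_symm (d := d) (by omega) K hIJ z
  have hVk := VZ_nonneg (d := d) (by omega) K hIJ z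
  have hε : 0 < t⁻¹ := by positivity
  have hε1 : t⁻¹ ≤ 1 := inv_le_one_of_one_le₀ ht1
  have hε2 : (t⁻¹) ^ 2 ≤ 1 := pow_le_one₀ hε.le hε1
  have hK1 : 1 ≤ K := by
    have h1 : t ^ (4 * (2 * n + 1)) ≤ K := by rw [hK]; exact Nat.le_ceil _
    have h2 : (1 : ℝ) ≤ K := (one_le_pow₀ ht1).trans h1
    exact_mod_cast h2
  have hcoef : ∀ (a : Fin n → Fin D) (S : Finset (Fin n)) (σ : Fin n → Bool),
      qf (fun k l => 4 * (t⁻¹) ^ 2 * cv (VZ K I J z) a k l) S σ =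
        ∑ k, ∑ l, (rst S (fun k => sg (σ k)) k * (2 * t⁻¹)) *
          (rst S (fun k => sg (σ k)) l * (2 * t⁻¹)) * cv (VZ K I J z) a k l := by
    intro a S σ
    unfold qf
    exact Finset.sum_congr rfl fun k _ => Finset.sum_congr rfl fun l _ => by ring
  have hch := fun (a : Fin n → Fin D) (S : Finset (Fin n)) (σ : Fin n → Bool) =>
    hchar b hb1 K hK1 ν hν n (fun k => rst S (fun k => sg (σ k)) k * (2 * t⁻¹)) a I J z hIJ hz
      (fun k => by rw [pth_len]; exact hzs k)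
  have hrst : ∀ (S : Finset (Fin n)) (σ : Fin n → Bool) k,
      |rst S (fun k => sg (σ k)) k * (2 * t⁻¹)| ≤ 2 := by
    intro S σ k
    rw [abs_mul, abs_of_pos (show 0 < 2 * t⁻¹ by positivity)]
    have h1 : |rst S (fun k => sg (σ k)) k| ≤ 1 := by
      have hsg : ∀ β : Bool, |sg β| ≤ 1 := fun β => by cases β <;> simp [sg]
      unfold rst
      split_ifs
      · exact hsg _
      · simp
    have h2 : 0 ≤ |rst S (fun k => sg (σ k)) k| := abs_nonneg _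
    nlinarith
  have hE2 : ∀ (S : Finset (Fin n)) (σ : Fin n → Bool),
      Cr * (2 * ∑ k, |rst S (fun k => sg (σ k)) k * (2 * t⁻¹)| /
        Real.sqrt (Real.sqrt K ^ (d - 2)) + (K : ℝ) ^ (2 * d + 3) *
        (1 + 2 * ∑ k, |rst S (fun k => sg (σ k)) k * (2 * t⁻¹)|) ^ 2 / b) ≤
        E / t ^ (2 * n + 1) := by
    intro S σ
    obtain ⟨T, hT⟩ : ∃ T : ℝ, T = ∑ k, |rst S (fun k => sg (σ k)) k * (2 * t⁻¹)| := ⟨_, rfl⟩
    have hT0 : 0 ≤ T := by rw [hT]; exact Finset.sum_nonneg fun _ _ => abs_nonneg _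
    have hT2 : T ≤ 2 * n := by
      rw [hT]
      refine (Finset.sum_le_sum fun k _ => hrst S σ k).trans (le_of_eq ?_)
      simp; ring
    have e1 : 2 * ∑ k, |rst S (fun k => sg (σ k)) k * (2 * t⁻¹)| /
        Real.sqrt (Real.sqrt K ^ (d - 2)) = 2 * T / Real.sqrt (Real.sqrt K ^ (d - 2)) := by
      rw [hT, ← Finset.sum_div, mul_div_assoc]
    rw [e1, ← hT]
    have h1 := pow_est (n := n) hd ht1 hK (T := 4 * n) (by positivity) hJJ
    rw [← hb] at h1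
    have hKr : (0 : ℝ) < K := by exact_mod_cast hK1
    have h2 : 2 * T / Real.sqrt (Real.sqrt K ^ (d - 2)) + (K : ℝ) ^ (2 * d + 3) *
        (1 + 2 * T) ^ 2 / b ≤ (4 * n) / Real.sqrt (Real.sqrt K ^ (d - 2)) +
          (K : ℝ) ^ (2 * d + 3) * (1 + 4 * n) ^ 2 / b := by
      have h3 : 2 * T ≤ 4 * n := by linarith
      gcongr
    calc _ ≤ Cr * ((4 * n + 2 ^ (2 * d + 3) * (1 + 4 * n) ^ 2) / t ^ (2 * n + 1)) :=
          mul_le_mul_of_nonneg_left (h2.trans h1) hCr.le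
      _ = _ := by rw [hE]; ring
  have hmain := hasm ν w Y (VZ K I J z) t⁻¹ (c1 / b ^ 4) τ (E / t ^ (2 * n + 1)) v B
    (fun k => (hwc k).measurable) (fun k a => (hYc k a).measurable) hB hε (by positivity) hτ
    (by positivity) hw0 (fun k V => by
      rw [hfst, hwe]
      have := fi_bessel (L := L) (hol V 0 (pth (z k)) * FL.plz V (z k) (I k) (J k) *
        (hol V 0 (pth (z k)))⁻¹)
      nlinarith) (fun k V => by
      rw [hfst, hwe]
      have h1 := hcar (hol V 0 (pth (z k)) * FL.plz V (z k) (I k) (J k) *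
        (hol V 0 (pth (z k)))⁻¹)
      obtain ⟨x, hx⟩ : ∃ x, x = we L (hol V 0 (pth (z k)) * FL.plz V (z k) (I k) (J k) *
        (hol V 0 (pth (z k)))⁻¹) := ⟨_, rfl⟩
      obtain ⟨y, hy⟩ : ∃ y, y = ∑ a, fi L a (hol V 0 (pth (z k)) *
        FL.plz V (z k) (I k) (J k) * (hol V 0 (pth (z k)))⁻¹) ^ 2 := ⟨_, rfl⟩
      rw [← hx, ← hy] at h1 ⊢
      have e1 : b ^ 4 * x - 1 / 2 * (b ^ 4 * y) = b ^ 4 * (x - 1 / 2 * y) := by ring
      have e2 : c1 / b ^ 4 * (b ^ 4 * x) ^ 2 = b ^ 4 * (c1 * x ^ 2) := by field_simp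
      rw [e1, e2, abs_mul, abs_of_pos hb4]
      exact mul_le_mul_of_nonneg_left h1 hb4.le) (fun k p hp => by
      rw [hw]
      refine (hmom' p (z k) (I k) (J k) (hIJ k)).trans ?_
      refine mul_le_mul_of_nonneg_right ?_ (by linarith)
      rw [hM]
      have hp2 := (Finset.mem_Icc.1 hp).2
      exact Finset.single_le_sum (f := Cm) (fun p _ => (hCm p).le)
        (Finset.mem_range.2 (by omega))) hVs hVk hv (by
      have h1 : 4 * (t⁻¹) ^ 2 * v ≤ 4 * v := by nlinarith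
      have h2 : (n : ℝ) ^ 2 * (4 * (t⁻¹) ^ 2 * v) ≤ n ^ 2 * (4 * v) :=
        mul_le_mul_of_nonneg_left h1 (by positivity)
      linarith) hvb (fun a S σ => by
      rw [hcoef]; exact (hch a S σ).2) (fun a S σ => by
      have h1 := (hch a S σ).1.trans (hE2 S σ)
      rw [← hcoef] at h1
      have e1 : ∀ V : Ez d → G, b ^ 2 * lc L (fun k => rst S (fun k => sg (σ k)) k * (2 * t⁻¹)) a
          I J z pth V = ∑ k, rst S (fun k => sg (σ k)) k * (2 * t⁻¹ * Y k (a k) V) := by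
        intro V
        unfold lc
        rw [hY, Finset.mul_sum]
        exact Finset.sum_congr rfl fun k _ => by ring
      simp only [e1] at h1
      exact h1)
  have hgoal : ∀ V : Ez d → G, ∏ k, (b ^ 4 * we L (FL.plz V (z k) (I k) (J k)) -
      ∫ V', b ^ 4 * we L (FL.plz V' (z k) (I k) (J k)) ∂ν) = ∏ k, (w k V - ∫ V', w k V' ∂ν) := by
    intro V; rw [hw]
  simp only [hgoal]
  refine hmain.trans ?_
  rw [mul_assoc Ca]
  refine mul_le_mul_of_nonneg_left ?_ hCa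
  have hbt : t ≤ b := by rw [hb]; exact le_self_pow₀ ht1 (by rw [hJJ]; positivity)
  have q1 : (c1 / b ^ 4 + 8 * (t⁻¹) ^ 2) * τ ^ (n + 1) ≤ (c1 + 8) * (1 / t) := by
    rw [← htτ]
    have e1 : t ^ 2 ≤ b ^ 4 := by
      calc t ^ 2 ≤ t ^ 4 := pow_le_pow_right₀ ht1 (by norm_num)
        _ ≤ b ^ 4 := pow_le_pow_left₀ ht0.le hbt 4
    have e2 : c1 / b ^ 4 ≤ c1 / t ^ 2 := div_le_div_of_nonneg_left hc1 (by positivity) e1
    have e3 : (c1 / t ^ 2 + 8 * (t⁻¹) ^ 2) * t = (c1 + 8) * (1 / t) := by field_simp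
    rw [← e3]
    exact mul_le_mul_of_nonneg_right (by linarith) ht0.le
  have q2 : E / t ^ (2 * n + 1) / (4 * (t⁻¹) ^ 2) ^ n ≤ E * (1 / t) := by
    rw [mul_pow, inv_pow, inv_pow, ← pow_mul]
    have e1 : E / t ^ (2 * n + 1) / (4 ^ n * (t ^ (2 * n))⁻¹) = E * (1 / t) / 4 ^ n := by
      rw [pow_succ]
      field_simp
    rw [e1]
    exact div_le_self (by positivity) (one_le_pow₀ (by norm_num))
  have q3 : (t⁻¹) ^ 2 * v ^ (n + 1) ≤ v ^ (n + 1) := by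
    have : 0 ≤ v ^ (n + 1) := by positivity
    nlinarith
  have q4 : 0 ≤ 1 / t := by positivity
  have q5 : 0 ≤ v ^ (n + 1) := by positivity
  nlinarith

end

end Pool.Agent.U322.SF
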