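import Mathlib
import Pool.Agent.U322.SF.App3

/-!
# Schwinger functions of lattice Yang-Mills: the scaling limit
-/

open MeasureTheory Filter
open scoped Topology
open Pool.Agent.H906R3.YM hiding Pl
open Pool.Agent.W793.YM Pool.Agent.TH618.YM

namespace Pool.Agent.U322.SF

set_option linter.unusedSectionVars false
set_option linter.unusedVariables false

noncomputable section

lemma Lp_tendsto {n : ℕ} {V : ℕ → Fin n → Fin n → ℝ} {W : Fin n → Fin n → ℝ}
    (h : ∀ k l, k < l → Tendsto (fun m => V m k l) atTop (𝓝 (W k l))) :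
    Tendsto (fun m => Lp (V m)) atTop (𝓝 (Lp W)) := by
  unfold Lp
  refine Tendsto.const_mul _ (tendsto_finsetSum _ fun p _ => ?_)
  by_cases hp : (∀ i, (p i).1 < (p i).2) ∧ ∀ k, dg p k = 2
  · simp only [if_pos hp]
    exact tendsto_finsetProd _ fun i _ => h _ _ (hp.1 i)
  · simp only [if_neg hp]
    exact tendsto_const_nhds

lemma SS_tendsto {n D : ℕ} {V : ℕ → Fin n → Fin n → ℝ} {W : Fin n → Fin n → ℝ}
    (h : ∀ k l, k < l → Tendsto (fun m => V m k l) atTop (𝓝 (W k l))) :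
    Tendsto (fun m => SS D (V m)) atTop (𝓝 (SS D W)) := by
  unfold SS
  refine tendsto_finsetSum _ fun a _ => Lp_tendsto fun k l hkl => ?_
  unfold cv
  split_ifs
  · exact h k l hkl
  · exact tendsto_const_nhds

lemma SS_smul {n D : ℕ} (s : ℝ) (V : Fin n → Fin n → ℝ) :
    SS D (fun k l => s * V k l) = s ^ n * SS D V := by
  unfold SS
  rw [Finset.mul_sum]
  refine Finset.sum_congr rfl fun a _ => ?_
  rw [← Lp_smul]
  congr 1
  funext k l
  unfold cv
  split_ifs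
  · rfl
  · rw [mul_zero]

variable {G : Type*} [Group G] [TopologicalSpace G] [IsTopologicalGroup G] [CompactSpace G]
  [SecondCountableTopology G] [MeasurableSpace G] [BorelSpace G] (μ : Measure G)
  [IsProbabilityMeasure μ] [μ.IsMulLeftInvariant] [μ.IsMulRightInvariant] [μ.IsInvInvariant]
  {N D : ℕ} (L : LD G N D) {d : ℕ}

/-- the exponent of the coupling -/
def kap (d n : ℕ) : ℕ := 4 * ((8 * d + 13) * (2 * n + 1)) * (n * d + 1)

/-- the scale of the coupling -/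
lemma exists_scale {d n : ℕ} {β h : ℝ} (hh : 0 < h) (hh1 : h ≤ 1) (hβ : 1 ≤ β * h ^ kap d n) :
    ∃ τ t : ℝ, 1 ≤ τ ∧ t = τ ^ (n + 1) ∧ (t ^ ((8 * d + 13) * (2 * n + 1))) ^ 4 = β ∧
      1 ≤ t * h ^ (n * d + 1) := by
  obtain ⟨J, hJ⟩ : ∃ J, J = (8 * d + 13) * (2 * n + 1) := ⟨_, rfl⟩
  have hJ0 : 0 < J := by rw [hJ]; positivity
  have hβ0 : 0 < β := by
    by_contra h0
    have : β * h ^ kap d n ≤ 0 := mul_nonpos_of_nonpos_of_nonneg (not_lt.1 h0) (by positivity)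
    linarith
  have hβ1 : 1 ≤ β := by
    refine hβ.trans ?_
    have : h ^ kap d n ≤ 1 := pow_le_one₀ hh.le hh1
    nlinarith
  obtain ⟨Q, hQ⟩ : ∃ Q : ℕ, Q = (n + 1) * (J * 4) := ⟨_, rfl⟩
  have hQ0 : Q ≠ 0 := by rw [hQ]; positivity
  obtain ⟨τ, hτ⟩ : ∃ τ : ℝ, τ = β ^ ((Q : ℝ)⁻¹) := ⟨_, rfl⟩
  have hτQ : τ ^ Q = β := by
    rw [hτ]; exact Real.rpow_inv_natCast_pow hβ0.le hQ0
  have hτ1 : 1 ≤ τ := by
    rw [hτ]; exact Real.one_le_rpow hβ1 (by positivity)
  refine ⟨τ, τ ^ (n + 1), hτ1, rfl, ?_, ?_⟩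
  · rw [← hJ, ← pow_mul, ← pow_mul]
    rw [hQ] at hτQ
    exact hτQ
  · have e1 : 1 ≤ (τ ^ (n + 1) * h ^ (n * d + 1)) ^ (4 * J) := by
      rw [mul_pow, ← pow_mul, ← pow_mul]
      have e2 : τ ^ ((n + 1) * (4 * J)) = β := by rw [← hτQ, hQ]; congr 1; ring
      have e3 : h ^ ((n * d + 1) * (4 * J)) = h ^ kap d n := by
        unfold kap; rw [← hJ]; congr 1; ring
      rw [e2, e3]
      exact hβ
    by_contra hcon
    push Not at hcon
    have e4 : (τ ^ (n + 1) * h ^ (n * d + 1)) ^ (4 * J) < 1 :=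
      pow_lt_one₀ (by positivity) hcon (by omega)
    linarith

set_option maxHeartbeats 1000000 in
/-- the scaling limit of the truncated moments of the plaquettes -/
theorem lim_main (hd : 3 ≤ d) (n : ℕ) {c1 : ℝ} (hc1 : 0 ≤ c1)
    (hcar : ∀ g : G, |we L g - 1 / 2 * ∑ a, fi L a g ^ 2| ≤ c1 * we L g ^ 2)
    {β h : ℕ → ℝ} {ν : ℕ → Measure (Ez d → G)} (hνp : ∀ m, IsProbabilityMeasure (ν m))
    (hν : ∀ m, FL.IVL μ L (β m) (ν m)) (hh : ∀ m, 0 < h m) (hl : Tendsto h atTop (𝓝 0))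
    (hβ : ∀ᶠ m in atTop, 1 ≤ β m * h m ^ kap d n) {I J : Fin n → Fin d}
    (hIJ : ∀ k, I k ≠ J k) {x : Fin n → Fin d → ℝ} (hx : ∀ k l, k ≠ l → x k ≠ x l)
    {z : ℕ → Fin n → Fin d → ℤ}
    (hz : ∀ k i, Tendsto (fun m => h m * (z m k i : ℝ)) atTop (𝓝 (x k i))) :
    Tendsto (fun m => (h m ^ (n * d))⁻¹ * ∫ V, ∏ k, (β m * we L (FL.plz V (z m k) (I k) (J k)) -
        ∫ V', β m * we L (FL.plz V' (z m k) (I k) (J k)) ∂(ν m)) ∂(ν m)) atTop
      (𝓝 (SS D fun k l => mx (I k) (J k) (I l) (J l) (x k - x l))) := by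
  obtain ⟨C, hC, hmain⟩ := main_q μ L hd n hc1 hcar
  obtain ⟨JJ, hJJ⟩ : ∃ JJ, JJ = (8 * d + 13) * (2 * n + 1) := ⟨_, rfl⟩
  -- the scales
  have hsc : ∀ m, ∃ τ t : ℝ, (h m ≤ 1 ∧ 1 ≤ β m * h m ^ kap d n) → (1 ≤ τ ∧ t = τ ^ (n + 1) ∧
      (t ^ ((8 * d + 13) * (2 * n + 1))) ^ 4 = β m ∧ 1 ≤ t * h m ^ (n * d + 1)) := by
    intro m
    by_cases h1 : h m ≤ 1 ∧ 1 ≤ β m * h m ^ kap d n
    · obtain ⟨τ, t, h2⟩ := exists_scale (hh m) h1.1 h1.2
      exact ⟨τ, t, fun _ => h2⟩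
    · exact ⟨1, 1, fun h2 => absurd h2 h1⟩
  choose τ t hτt using hsc
  have hev1 : ∀ᶠ m in atTop, h m ≤ 1 := hl.eventually (ge_mem_nhds zero_lt_one)
  have hev : ∀ᶠ m in atTop, h m ≤ 1 ∧ 1 ≤ τ m ∧ t m = τ m ^ (n + 1) ∧
      (t m ^ ((8 * d + 13) * (2 * n + 1))) ^ 4 = β m ∧ 1 ≤ t m * h m ^ (n * d + 1) := by
    filter_upwards [hev1, hβ] with m h1 h2
    exact ⟨h1, hτt m ⟨h1, h2⟩⟩
  have ht1 : ∀ᶠ m in atTop, 1 ≤ t m * h m := by
    filter_upwards [hev] with m ⟨h1, h2, h3, _, h5⟩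
    refine h5.trans ?_
    have ht0 : 0 ≤ t m := by rw [h3]; positivity
    refine mul_le_mul_of_nonneg_left ?_ ht0
    rw [pow_succ]
    have : h m ^ (n * d) ≤ 1 := pow_le_one₀ (hh m).le h1
    have := hh m
    nlinarith
  obtain ⟨K, hK⟩ : ∃ K : ℕ → ℕ, K = fun m => ⌈t m ^ (4 * (2 * n + 1))⌉₊ := ⟨_, rfl⟩
  have hKt : ∀ m, t m ^ (4 * (2 * n + 1)) ≤ K m := fun m => by rw [hK]; exact Nat.le_ceil _
  have htge : ∀ᶠ m in atTop, 1 ≤ t m := by
    filter_upwards [hev] with m ⟨_, h2, h3, _⟩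
    rw [h3]; exact one_le_pow₀ h2
  have hK4 : ∀ᶠ m in atTop, (h m ^ 4)⁻¹ ≤ K m := by
    filter_upwards [ht1, htge] with m h1 h2
    refine le_trans ?_ (hKt m)
    have hhm := hh m
    rw [inv_le_iff_one_le_mul₀ (by positivity)]
    calc (1 : ℝ) ≤ (t m * h m) ^ 4 := one_le_pow₀ h1
      _ = t m ^ 4 * h m ^ 4 := mul_pow _ _ _
      _ ≤ t m ^ (4 * (2 * n + 1)) * h m ^ 4 := by
        refine mul_le_mul_of_nonneg_right ?_ (by positivity)
        exact pow_le_pow_right₀ h2 (by omega)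
  have hK1 : ∀ᶠ m in atTop, 1 ≤ K m := by
    filter_upwards [htge] with m h1
    have : (1 : ℝ) ≤ K m := (one_le_pow₀ h1).trans (hKt m)
    exact_mod_cast this
  have hKs : Tendsto (fun m => (h m * Real.sqrt (K m))⁻¹) atTop (𝓝 0) := by
    refine squeeze_zero' (Eventually.of_forall fun m => ?_) ?_ hl
    · have := hh m; positivity
    · filter_upwards [hK4] with m h1
      have hhm := hh m
      have h2 : (h m ^ 2)⁻¹ ≤ Real.sqrt (K m) := by
        rw [show (h m ^ 2)⁻¹ = Real.sqrt ((h m ^ 4)⁻¹) by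
          rw [show (h m ^ 4)⁻¹ = ((h m ^ 2)⁻¹) ^ 2 by rw [inv_pow, ← pow_mul],
            Real.sqrt_sq (by positivity)]]
        exact Real.sqrt_le_sqrt h1
      have h3 : (h m)⁻¹ ≤ h m * Real.sqrt (K m) := by
        calc (h m)⁻¹ = h m * (h m ^ 2)⁻¹ := by field_simp
          _ ≤ _ := mul_le_mul_of_nonneg_left h2 hhm.le
      calc (h m * Real.sqrt (K m))⁻¹ ≤ ((h m)⁻¹)⁻¹ := inv_anti₀ (by positivity) h3
        _ = h m := inv_inv _
  -- the covariances
  obtain ⟨MX, hMX⟩ : ∃ MX : Fin n → Fin n → ℝ, MX = fun k l =>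
    mx (I k) (J k) (I l) (J l) (x k - x l) := ⟨_, rfl⟩
  rw [← hMX]
  have hV : ∀ k l, k ≠ l → Tendsto (fun m => (h m ^ d)⁻¹ * VZ (K m) I J (z m) k l) atTop
      (𝓝 (MX k l)) := by
    intro k l hkl
    rw [hMX]
    unfold VZ
    refine VI_lim (by omega) (I k) (J k) (I l) (J l) hh hl (fun i => ?_)
      (sub_ne_zero.2 (hx k l hkl)) hK1 hKs
    have := (hz k i).sub (hz l i)
    refine this.congr fun m => ?_
    rw [Pi.sub_apply]
    push_cast
    ring
  obtain ⟨v0, hv0⟩ : ∃ v0 : ℝ, v0 = 1 + ∑ k, ∑ l, |MX k l| := ⟨_, rfl⟩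
  have hsum0 : 0 ≤ ∑ k, ∑ l, |MX k l| :=
    Finset.sum_nonneg fun _ _ => Finset.sum_nonneg fun _ _ => abs_nonneg _
  have hv00 : 0 < v0 := by rw [hv0]; linarith
  have hvb : ∀ᶠ m in atTop, ∀ k l, k < l → |VZ (K m) I J (z m) k l| ≤ v0 * h m ^ d := by
    rw [eventually_all]
    intro k
    rw [eventually_all]
    intro l
    by_cases hkl : k < l
    · have h1 := (hV k l hkl.ne).abs
      have h2 : |MX k l| < v0 := by
        have h3 : |MX k l| ≤ ∑ l, |MX k l| :=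
          Finset.single_le_sum (f := fun l => |MX k l|) (fun _ _ => abs_nonneg _)
            (Finset.mem_univ l)
        have h4 : ∑ l, |MX k l| ≤ ∑ k, ∑ l, |MX k l| :=
          Finset.single_le_sum (f := fun k => ∑ l, |MX k l|)
            (fun _ _ => Finset.sum_nonneg fun _ _ => abs_nonneg _) (Finset.mem_univ k)
        rw [hv0]; linarith
      filter_upwards [h1.eventually (gt_mem_nhds h2)] with m hm _
      have hhm : 0 < h m ^ d := pow_pos (hh m) d
      rw [abs_mul, abs_of_pos (inv_pos.2 hhm), inv_mul_lt_iff₀ hhm] at hm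
      rw [mul_comm]
      exact hm.le
    · exact Eventually.of_forall fun m hkl' => absurd hkl' hkl
  have hhd : Tendsto (fun m => h m ^ d) atTop (𝓝 0) := by
    have := hl.pow d
    rwa [zero_pow (by omega)] at this
  have hsmall : ∀ᶠ m in atTop, (n : ℝ) ^ 2 * (4 * (v0 * h m ^ d)) ≤ 1 := by
    have h1 : Tendsto (fun m => (n : ℝ) ^ 2 * (4 * (v0 * h m ^ d))) atTop (𝓝 0) := by
      have := ((hhd.const_mul v0).const_mul 4).const_mul ((n : ℝ) ^ 2)
      simpa using this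
    exact h1.eventually (ge_mem_nhds zero_lt_one)
  -- the sites
  obtain ⟨R, hR⟩ : ∃ R : ℝ, R = 1 + ∑ k, ∑ i, |x k i| := ⟨_, rfl⟩
  have hRx : ∀ k i, |x k i| < R := by
    intro k i
    have h3 : |x k i| ≤ ∑ i, |x k i| :=
      Finset.single_le_sum (f := fun i => |x k i|) (fun _ _ => abs_nonneg _) (Finset.mem_univ i)
    have h4 : ∑ i, |x k i| ≤ ∑ k, ∑ i, |x k i| :=
      Finset.single_le_sum (f := fun k => ∑ i, |x k i|)
        (fun _ _ => Finset.sum_nonneg fun _ _ => abs_nonneg _) (Finset.mem_univ k)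
    rw [hR]; linarith
  have hR0 : 0 < R := by
    have : 0 ≤ ∑ k, ∑ i, |x k i| :=
      Finset.sum_nonneg fun _ _ => Finset.sum_nonneg fun _ _ => abs_nonneg _
    rw [hR]; linarith
  have hzb : ∀ᶠ m in atTop, ∀ k i, |(z m k i : ℝ)| ≤ R * (h m)⁻¹ := by
    rw [eventually_all]
    intro k
    rw [eventually_all]
    intro i
    filter_upwards [(hz k i).abs.eventually (gt_mem_nhds (hRx k i))] with m hm
    rw [abs_mul, abs_of_pos (hh m)] at hm
    rw [← div_eq_mul_inv, le_div_iff₀ (hh m), mul_comm]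
    exact hm.le
  have hzK : ∀ᶠ m in atTop, (2 * (R * (h m)⁻¹) + 2 ≤ K m) ∧ (d * (R * (h m)⁻¹) ≤ K m) := by
    have h1 : Tendsto (fun m => 2 * R * h m ^ 3 + 2 * h m ^ 4) atTop (𝓝 0) := by
      have := ((hl.pow 3).const_mul (2 * R)).add ((hl.pow 4).const_mul 2)
      simpa using this
    have h2 : Tendsto (fun m => d * R * h m ^ 3) atTop (𝓝 0) := by
      have := (hl.pow 3).const_mul (d * R)
      simpa using this
    filter_upwards [h1.eventually (ge_mem_nhds zero_lt_one),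
      h2.eventually (ge_mem_nhds zero_lt_one), hK4] with m e1 e2 e3
    have hhm := hh m
    constructor
    · refine le_trans ?_ e3
      rw [le_inv_comm₀ (by positivity) (by positivity)]
      rw [← one_div, le_div_iff₀ (by positivity)]
      refine le_trans (le_of_eq ?_) e1
      field_simp
    · refine le_trans ?_ e3
      rw [← div_eq_mul_inv, mul_div_assoc', div_le_iff₀ hhm]
      have e4 : (h m ^ 4)⁻¹ * h m = (h m ^ 3)⁻¹ := by field_simp
      rw [e4, ← one_div, le_div_iff₀ (by positivity)]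
      exact e2
  -- the error
  have herr : Tendsto (fun m => (h m ^ (n * d))⁻¹ * (∫ V, ∏ k,
      (β m * we L (FL.plz V (z m k) (I k) (J k)) -
        ∫ V', β m * we L (FL.plz V' (z m k) (I k) (J k)) ∂(ν m)) ∂(ν m) -
        (∏ k, Real.exp (-(2 * ((t m)⁻¹) ^ 2 * VZ (K m) I J (z m) k k))) *
          SS D (VZ (K m) I J (z m)))) atTop (𝓝 0) := by
    have hb : Tendsto (fun m => C * (h m + v0 ^ (n + 1) * h m ^ d)) atTop (𝓝 0) := by
      have := (hl.add (hhd.const_mul (v0 ^ (n + 1)))).const_mul C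
      simpa using this
    refine squeeze_zero_norm' ?_ hb
    filter_upwards [hev, htge, hvb, hsmall, hzb, hzK] with m ⟨h1, h2, h3, h4, h5⟩ h6 h7 h8 h9 h10
    have hhm := hh m
    have := hνp m
    have h11 := hmain (τ m) (t m) h2 h3 (ν m) (by rw [h4]; exact hν m) I J (z m) (K m)
      (v0 * h m ^ d) hIJ (by rw [hK]) (fun k i => by
        have e1 := h9 k i
        have e2 : ((2 * |z m k i| + 2 : ℤ) : ℝ) ≤ ((K m : ℤ) : ℝ) := by
          push_cast
          linarith [h10.1]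
        exact_mod_cast e2) (fun k => by
        have e1 : ((∑ i, (z m k i).natAbs : ℕ) : ℝ) ≤ K m := by
          push_cast
          have e2 : ∀ i, (((z m k i).natAbs : ℕ) : ℝ) ≤ R * (h m)⁻¹ := fun i => by
            have e3 : (((z m k i).natAbs : ℕ) : ℝ) = |(z m k i : ℝ)| := by
              rw [Nat.cast_natAbs, Int.cast_abs]
            rw [e3]; exact h9 k i
          refine (Finset.sum_le_sum fun i _ => e2 i).trans (le_trans (le_of_eq ?_) h10.2)
          simp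
        exact_mod_cast e1) (by positivity) h8 h7
    rw [h4] at h11
    rw [Real.norm_eq_abs, abs_mul, abs_of_pos (by positivity)]
    refine (mul_le_mul_of_nonneg_left h11 (by positivity)).trans ?_
    have e5 : (h m ^ (n * d))⁻¹ * (1 / t m) ≤ h m := by
      have ht0 : 0 < t m := by linarith
      rw [mul_one_div, div_le_iff₀ ht0, inv_le_iff_one_le_mul₀ (by positivity)]
      refine h5.trans (le_of_eq ?_)
      rw [pow_succ]; ring
    have e6 : (h m ^ (n * d))⁻¹ * (v0 * h m ^ d) ^ (n + 1) = v0 ^ (n + 1) * h m ^ d := by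
      rw [mul_pow, ← pow_mul, mul_comm d (n + 1), add_mul, one_mul, pow_add]
      field_simp
      ring
    calc (h m ^ (n * d))⁻¹ * (C * (1 / t m + (v0 * h m ^ d) ^ (n + 1))) =
        C * ((h m ^ (n * d))⁻¹ * (1 / t m) + (h m ^ (n * d))⁻¹ * (v0 * h m ^ d) ^ (n + 1)) := by
          ring
      _ ≤ C * (h m + v0 ^ (n + 1) * h m ^ d) := by
        rw [e6]
        exact mul_le_mul_of_nonneg_left (by linarith) hC
  -- the main part
  have hmainpart : Tendsto (fun m => (∏ k, Real.exp (-(2 * ((t m)⁻¹) ^ 2 *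
      VZ (K m) I J (z m) k k))) * SS D (fun k l => (h m ^ d)⁻¹ * VZ (K m) I J (z m) k l)) atTop
      (𝓝 (SS D MX)) := by
    have h1 : Tendsto (fun m => ∏ k : Fin n, Real.exp (-(2 * ((t m)⁻¹) ^ 2 *
        VZ (K m) I J (z m) k k))) atTop (𝓝 (∏ _k : Fin n, Real.exp 0)) := by
      refine tendsto_finsetProd _ fun k _ => (Real.continuous_exp.tendsto 0).comp ?_
      have h2 : Tendsto (fun m => 8 * h m ^ 2) atTop (𝓝 0) := by
        have := (hl.pow 2).const_mul 8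
        simpa using this
      refine squeeze_zero_norm' ?_ h2
      filter_upwards [ht1, htge] with m e1 e2
      have hhm := hh m
      have ht0 : 0 < t m := by linarith
      have e3 : (t m)⁻¹ ≤ h m := by
        rw [inv_le_iff_one_le_mul₀ ht0, mul_comm]; exact e1
      have e4 : |VZ (K m) I J (z m) k k| ≤ 4 := VI_abs (by omega) _ _ _ _ _ _
      rw [Real.norm_eq_abs, abs_neg, abs_mul, abs_of_pos (by positivity)]
      have e5 : ((t m)⁻¹) ^ 2 ≤ h m ^ 2 := pow_le_pow_left₀ (by positivity) e3 2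
      calc 2 * ((t m)⁻¹) ^ 2 * |VZ (K m) I J (z m) k k| ≤ 2 * (h m ^ 2) * 4 := by gcongr
        _ = 8 * h m ^ 2 := by ring
    have h2 := h1.mul (SS_tendsto (D := D) fun k l hkl => hV k l (ne_of_lt hkl))
    simpa using h2
  have hsum := herr.add hmainpart
  rw [zero_add] at hsum
  refine hsum.congr fun m => ?_
  rw [SS_smul]
  have hhm := hh m
  have e : ((h m ^ d)⁻¹) ^ n = (h m ^ (n * d))⁻¹ := by rw [inv_pow, ← pow_mul, mul_comm d n]
  rw [e]
  ring

end

end Pool.Agent.U322.SF
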